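import Mathlib
import Pool.Agent.H933R3.Susp

set_option autoImplicit false

/-!
# The complex `cx 13 Bm` is a 3-ball
-/

namespace Pool.Agent.W296.BallB

open Finset Pool.Agent.H933R3 Pool.Agent.Helper175.NS

/-- the set of facets -/
def Gs : Finset (Finset (Fin 13)) := (Bm.map (decF 13)).toFinset

theorem mem_Gs {F : Finset (Fin 13)} : F ∈ Gs ↔ ∃ m ∈ Bm, decF 13 m = F := by
  rw [Gs, List.mem_toFinset, List.mem_map]

theorem image_val {m : ℕ} (hm : m ∈ Bm) : (decF 13 m).image Fin.val = dec m := by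
  ext k
  rw [mem_image]
  constructor
  · rintro ⟨i, hi, rfl⟩
    exact mem_dec_of hm hi
  · intro hk
    have h2 := dec_lt (Bm_small m hm) _ hk
    refine ⟨⟨k, h2⟩, ?_, rfl⟩
    rw [mem_decF]
    rw [mem_dec] at hk
    exact hk.2

theorem old_s4 : Old {s4} := by
  intro F hF n hn
  rw [mem_singleton] at hF
  subst hF
  rw [mem_s4] at hn
  exact Or.inl hn

theorem Gs_image : Gs.image (fun F => F.image Fin.val) = Sub {s4} (decL Bm) := by
  ext A
  rw [mem_image, mem_Sub]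
  constructor
  · rintro ⟨F, hF, rfl⟩
    obtain ⟨m, hm, rfl⟩ := mem_Gs.1 hF
    right
    refine ⟨s4, by simp, Subset.refl _, dec m, mem_decL.2 ⟨m, hm, rfl⟩, ?_⟩
    rw [sdiff_self, image_val hm]
    simp
  · rintro (⟨h1, h2⟩ | ⟨F, hF, -, β, hβ, rfl⟩)
    · rw [mem_singleton] at h1
      exact absurd (h1 ▸ Subset.refl _) h2
    · obtain ⟨m, hm, rfl⟩ := mem_decL.1 hβ
      rw [mem_singleton] at hF
      subst hF
      refine ⟨decF 13 m, mem_Gs.2 ⟨m, hm, rfl⟩, ?_⟩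
      rw [sdiff_self, image_val hm]
      simp

theorem Gs_ball : Nonempty (Sp Gs ≃ₜ Metric.closedBall (0 : EuclideanSpace ℝ (Fin 3)) 1) := by
  obtain ⟨e1⟩ := relabel_homeo Gs (Fin.val : Fin 13 → ℕ) univ (fun F _ => subset_univ F)
    (Fin.val_injective.injOn)
  rw [Gs_image] at e1
  obtain ⟨e2⟩ := sub_homeo {s4} old_s4
  obtain ⟨e4⟩ := simplex_ball s4 3 (by decide)
  exact ⟨(e1.symm.trans e2).trans e4⟩

theorem realization_eq_B : realization (cx 13 Bm) = Sp Gs := by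
  ext x
  constructor
  · rintro ⟨h0, h1, σ, hσ, h2⟩
    obtain ⟨m, hm, h3⟩ := mem_cx.1 hσ
    refine ⟨h0, decF 13 m, mem_Gs.2 ⟨m, hm, rfl⟩, fun i hi => h2 i (fun h => hi (h3 h)), ?_⟩
    rw [← h1]
    exact sum_subset (subset_univ _) (fun i _ hi => h2 i (fun h => hi (h3 h)))
  · rintro ⟨h0, F, hF, h1, h2⟩
    obtain ⟨m, hm, rfl⟩ := mem_Gs.1 hF
    refine ⟨h0, ?_, decF 13 m, mem_cx.2 ⟨m, hm, Subset.refl _⟩, h1⟩
    rw [← h2]
    exact (sum_subset (subset_univ _) (fun i _ hi => h1 i hi)).symm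

/-- the complex is a triangulated 3-ball -/
theorem isBall_B : IsBall 3 (cx 13 Bm) := by
  unfold IsBall
  rw [realization_eq_B]
  exact Gs_ball

end Pool.Agent.W296.BallB
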