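import Mathlib
import Pool.Agent.H933R3.Susp

set_option autoImplicit false

/-!
# A locally constructible evasive 3-ball: the local construction

The 3-ball `cx 13 Bm` of `Pool.Agent.H933R3` is locally constructible.
-/

namespace Pool.Agent.W296.LCB

open Finset Pool.Agent.H933R3 Pool.Agent.Helper175.NS

/-- the family of sets with the masks in `l` -/
def FF (n : ℕ) (l : List ℕ) : Finset (Finset (Fin n)) := (l.map (decF n)).toFinset

theorem mem_FF {n : ℕ} {l : List ℕ} {X : Finset (Fin n)} : X ∈ FF n l ↔ ∃ m ∈ l, decF n m = X := by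
  rw [FF, List.mem_toFinset, List.mem_map]

theorem FF_cons (n : ℕ) (m : ℕ) (l : List ℕ) : FF n (m :: l) = insert (decF n m) (FF n l) := by
  rw [FF, List.map_cons, List.toFinset_cons]; rfl

theorem decF_inj {n a b : ℕ} (ha : a < 2 ^ n) (hb : b < 2 ^ n) (h : decF n a = decF n b) :
    a = b := by
  rw [← enc_decF ha, ← enc_decF hb, h]

theorem decF_mem_FF {n : ℕ} {l : List ℕ} {m : ℕ} (h : m ∈ l) : decF n m ∈ FF n l :=
  mem_FF.2 ⟨m, h, rfl⟩

theorem not_mem_FF {n : ℕ} {l : List ℕ} {m : ℕ} (hm : m < 2 ^ n) (hl : ∀ x ∈ l, x < 2 ^ n)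
    (h : m ∉ l) : decF n m ∉ FF n l := by
  intro hcon
  obtain ⟨x, hx, hxm⟩ := mem_FF.1 hcon
  exact h ((decF_inj (hl x hx) hm hxm) ▸ hx)

theorem decF_subset {n a b : ℕ} (h : a &&& b = a) : decF n a ⊆ decF n b := by
  intro i hi
  rw [mem_decF] at hi ⊢
  rw [← h, Nat.testBit_land, Bool.and_eq_true] at hi
  exact hi.2

/-- one step of a local construction, given by masks: `(F, F', R, A, ch)`; it attaches `F'` to
`F` along `R` if `A = 0` and glues the copies of `R` in `F` and `F'` along `A` otherwise; `ch` is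
a list of facets that leads from `F` to `F'` around `A` -/
abbrev Step := ℕ × ℕ × ℕ × ℕ × List ℕ

/-- the list `ch` leads from `X` to `Y` through glued faces containing `A` -/
def chainB (l G : List ℕ) (A Y : ℕ) : ℕ → List ℕ → Bool
  | X, [] => X == Y
  | X, Z :: ch => l.contains X && l.contains Z && G.contains (X &&& Z) &&
      ((A &&& (X &&& Z)) == A) && chainB l G A Y Z ch

theorem chainB_sound {n : ℕ} {l G : List ℕ} {A Y : ℕ} (ch : List ℕ) : ∀ X : ℕ,
    chainB l G A Y X ch = true →
    SameFace (FF n l) (FF n G) (decF n A) (decF n X) (decF n Y) := by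
  induction ch with
  | nil =>
    intro X h
    rw [chainB, beq_iff_eq] at h
    rw [h]
    exact Relation.ReflTransGen.refl
  | cons Z ch ih =>
    intro X h
    simp only [chainB, Bool.and_eq_true, beq_iff_eq, List.contains_iff_mem] at h
    obtain ⟨⟨⟨⟨h1, h2⟩, h3⟩, h4⟩, h5⟩ := h
    refine Relation.ReflTransGen.head ?_ (ih Z h5)
    refine ⟨decF_mem_FF h1, decF_mem_FF h2, decF n (X &&& Z), decF_mem_FF h3,
      decF_subset h4, ?_, ?_⟩
    · apply decF_subset
      rw [Nat.and_right_comm, Nat.and_self]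
    · apply decF_subset
      rw [Nat.and_assoc, Nat.and_self]

/-- run the steps; `l` are the facets used so far and `G` the glued faces -/
def run (d n : ℕ) (Bs : List ℕ) : List ℕ → List ℕ → List Step → Option (List ℕ × List ℕ)
  | l, G, [] => some (l, G)
  | l, G, (F, F', R, A, ch) :: st =>
    if l.contains F && ((R &&& F) == R) && ((R &&& F') == R) && !(G.contains R) &&
        decide (R < 2 ^ n) && decide (F < 2 ^ n) && decide (F' < 2 ^ n) &&
        decide ((decF n R).card = d) then
      if A = 0 then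
        if Bs.contains F' && !(l.contains F') then run d n Bs (F' :: l) (R :: G) st else none
      else
        if l.contains F' && !(F == F') && decide ((decF n A).card + 1 = d) && ((A &&& R) == A) &&
          chainB l G A F' F ch then run d n Bs l (R :: G) st else none
    else none

theorem run_sound {d n : ℕ} {K : Finset (Finset (Fin n))} {Bs : List ℕ}
    (hB : ∀ m ∈ Bs, IsFacet K (decF n m)) (st : List Step) : ∀ l G l' G' : List ℕ,
    (∀ x ∈ l, x < 2 ^ n) → (∀ x ∈ G, x < 2 ^ n) →
    LCStage d K (FF n l) (FF n G) → run d n Bs l G st = some (l', G') →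
    LCStage d K (FF n l') (FF n G') := by
  induction st with
  | nil =>
    intro l G l' G' _ _ h h1
    rw [run, Option.some.injEq, Prod.mk.injEq] at h1
    rw [← h1.1, ← h1.2]
    exact h
  | cons s st ih =>
    obtain ⟨F, F', R, A, ch⟩ := s
    intro l G l' G' hl hG h h1
    rw [run] at h1
    split_ifs at h1 with h2 h3 h4 h5
    · simp only [Bool.and_eq_true, beq_iff_eq, Bool.not_eq_true',
        List.contains_eq_mem, decide_eq_false_iff_not, decide_eq_true_eq] at h2 h4
      obtain ⟨⟨⟨⟨⟨⟨⟨a1, a2⟩, a3⟩, a4⟩, a5⟩, a6⟩, a7⟩, a8⟩ := h2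
      refine ih (F' :: l) (R :: G) l' G' ?_ ?_ ?_ h1
      · intro x hx
        rcases List.mem_cons.1 hx with rfl | hx
        · exact a7
        · exact hl x hx
      · intro x hx
        rcases List.mem_cons.1 hx with rfl | hx
        · exact a5
        · exact hG x hx
      · rw [FF_cons, FF_cons]
        exact LCStage.attach _ _ (decF n F) (decF n F') (decF n R) h (decF_mem_FF a1)
          (hB F' h4.1) (not_mem_FF a7 hl h4.2) a8 (decF_subset a2) (decF_subset a3)
          (not_mem_FF a5 hG a4)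
    · simp only [Bool.and_eq_true, beq_iff_eq, Bool.not_eq_true',
        List.contains_eq_mem, decide_eq_false_iff_not, decide_eq_true_eq,
        beq_eq_false_iff_ne] at h2 h5
      obtain ⟨⟨⟨⟨⟨⟨⟨a1, a2⟩, a3⟩, a4⟩, a5⟩, a6⟩, a7⟩, a8⟩ := h2
      obtain ⟨⟨⟨⟨b1, b2⟩, b3⟩, b4⟩, b5⟩ := h5
      refine ih l (R :: G) l' G' hl ?_ ?_ h1
      · intro x hx
        rcases List.mem_cons.1 hx with rfl | hx
        · exact a5
        · exact hG x hx
      · rw [FF_cons]
        exact LCStage.glue _ _ (decF n F) (decF n F') (decF n R) (decF n A) h (decF_mem_FF a1)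
          (decF_mem_FF b1) (fun e => b2 (decF_inj a6 a7 e)) a8 (decF_subset a2) (decF_subset a3)
          (not_mem_FF a5 hG a4) b3 (decF_subset b4) (chainB_sound ch F b5)

/-- breadth first search -/
def bfs (G A : ℕ) : ℕ → List ℕ → List ℕ → Bool
  | 0, _, rest => rest.isEmpty
  | k + 1, seen, rest =>
    bfs G A k (rest.filter (fun y => seen.any (fun x => G.testBit (x &&& y))) ++ seen)
      (rest.filter (fun y => !(seen.any (fun x => G.testBit (x &&& y)))))

theorem bfs_sound {n : ℕ} {l G : List ℕ} {A X0 : ℕ} (k : ℕ) : ∀ seen rest : List ℕ,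
    (∀ x ∈ seen, x ∈ l ∧ A &&& x = A) → (∀ x ∈ rest, x ∈ l ∧ A &&& x = A) →
    (∀ x ∈ seen, SameFace (FF n l) (FF n G) (decF n A) (decF n X0) (decF n x)) →
    bfs (bitset G) A k seen rest = true →
    ∀ x ∈ rest, SameFace (FF n l) (FF n G) (decF n A) (decF n X0) (decF n x) := by
  induction k with
  | zero =>
    intro seen rest _ _ _ h x hx
    rw [bfs, List.isEmpty_iff] at h
    rw [h] at hx
    simp at hx
  | succ k ih =>
    intro seen rest hs hr hS h x hx
    rw [bfs] at h
    have key : ∀ y ∈ rest, seen.any (fun x => (bitset G).testBit (x &&& y)) = true →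
        SameFace (FF n l) (FF n G) (decF n A) (decF n X0) (decF n y) := by
      intro y hy h1
      rw [List.any_eq_true] at h1
      obtain ⟨z, hz, h2⟩ := h1
      rw [testBit_bitset] at h2
      refine Relation.ReflTransGen.tail (hS z hz) ?_
      refine ⟨decF_mem_FF (hs z hz).1, decF_mem_FF (hr y hy).1, decF n (z &&& y),
        decF_mem_FF h2, ?_, ?_, ?_⟩
      · apply decF_subset
        rw [← Nat.and_assoc, (hs z hz).2, (hr y hy).2]
      · apply decF_subset
        rw [Nat.and_right_comm, Nat.and_self]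
      · apply decF_subset
        rw [Nat.and_assoc, Nat.and_self]
    by_cases hc : seen.any (fun z => (bitset G).testBit (z &&& x)) = true
    · exact key x hx hc
    · refine ih _ _ ?_ ?_ ?_ h x ?_
      · intro y hy
        rcases List.mem_append.1 hy with hy | hy
        · exact hr y (List.mem_filter.1 hy).1
        · exact hs y hy
      · intro y hy
        exact hr y (List.mem_filter.1 hy).1
      · intro y hy
        rcases List.mem_append.1 hy with hy | hy
        · exact key y (List.mem_filter.1 hy).1 (List.mem_filter.1 hy).2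
        · exact hS y hy
      · rw [List.mem_filter]
        exact ⟨hx, by simpa using hc⟩

theorem sameFace_symm {V : Type} [DecidableEq V] {𝓕 G : Finset (Finset V)} {A F F' : Finset V}
    (h : SameFace 𝓕 G A F F') : SameFace 𝓕 G A F' F := by
  induction h with
  | refl => exact Relation.ReflTransGen.refl
  | tail _ h2 ih =>
    obtain ⟨h1, h2, R, h3, h4, h5, h6⟩ := h2
    exact Relation.ReflTransGen.head ⟨h2, h1, R, h3, h4, h6, h5⟩ ih

/-- the facets containing `A` are connected through glued faces containing `A` -/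
def connB (l : List ℕ) (G A : ℕ) : Bool :=
  bfs G A 20 ((l.filter (fun x => (A &&& x) == A)).take 1)
    ((l.filter (fun x => (A &&& x) == A)).drop 1)

theorem connB_sound {n : ℕ} {l G : List ℕ} {A : ℕ} (h : connB l (bitset G) A = true)
    {x y : ℕ} (hx : x ∈ l) (hy : y ∈ l) (hAx : A &&& x = A) (hAy : A &&& y = A) :
    SameFace (FF n l) (FF n G) (decF n A) (decF n x) (decF n y) := by
  have hx' : x ∈ l.filter (fun x => (A &&& x) == A) := List.mem_filter.2 ⟨hx, by simpa using hAx⟩
  have hy' : y ∈ l.filter (fun x => (A &&& x) == A) := List.mem_filter.2 ⟨hy, by simpa using hAy⟩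
  have hall : ∀ z ∈ l.filter (fun x => (A &&& x) == A), z ∈ l ∧ A &&& z = A := by
    intro z hz
    rw [List.mem_filter] at hz
    exact ⟨hz.1, by simpa using hz.2⟩
  unfold connB at h
  cases hfl : l.filter (fun x => (A &&& x) == A) with
  | nil => rw [hfl] at hx'; simp at hx'
  | cons X0 rest =>
    rw [hfl] at hx' hy' hall h
    rw [List.take_succ_cons, List.take_zero, List.drop_succ_cons, List.drop_zero] at h
    have h0 : ∀ z ∈ X0 :: rest, SameFace (FF n l) (FF n G) (decF n A) (decF n X0) (decF n z) := by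
      intro z hz
      rcases List.mem_cons.1 hz with rfl | hz
      · exact Relation.ReflTransGen.refl
      · refine bfs_sound 20 [X0] rest ?_ ?_ ?_ h z hz
        · intro w hw
          rw [List.mem_singleton] at hw
          rw [hw]
          exact hall X0 (List.mem_cons_self)
        · intro w hw
          exact hall w (List.mem_cons_of_mem _ hw)
        · intro w hw
          rw [List.mem_singleton] at hw
          rw [hw]
          exact Relation.ReflTransGen.refl
    exact (sameFace_symm (h0 x hx')).trans (h0 y hy')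

/-- the local construction -/
def stepsB : List Step := [
  (23, 4117, 21, 0, []),
  (4117, 6149, 4101, 0, []),
  (6149, 6180, 6148, 0, []),
  (6180, 6177, 6176, 0, []),
  (6180, 4388, 4132, 0, []),
  (6177, 2209, 2081, 0, []),
  (4388, 1316, 292, 0, []),
  (2209, 2216, 2208, 0, []),
  (2209, 2433, 2177, 0, []),
  (1316, 1376, 1312, 0, []),
  (1316, 1286, 1284, 0, []),
  (2216, 2200, 2184, 0, []),
  (1376, 1345, 1344, 0, []),
  (1286, 1410, 1282, 0, []),
  (2200, 2256, 2192, 0, []),
  (2200, 2328, 2072, 0, []),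
  (1345, 329, 321, 0, []),
  (1345, 1601, 1089, 0, []),
  (1345, 1409, 1281, 0, []),
  (2256, 2242, 2240, 0, []),
  (2328, 4376, 280, 0, []),
  (329, 2313, 265, 0, []),
  (329, 4424, 328, 0, []),
  (1601, 1553, 1537, 0, []),
  (1601, 579, 577, 0, []),
  (1409, 1185, 1153, 0, []),
  (4376, 4372, 4368, 0, []),
  (2313, 2061, 2057, 0, []),
  (4424, 4170, 4168, 0, []),
  (579, 2626, 578, 0, []),
  (579, 531, 515, 0, []),
  (2061, 2092, 2060, 0, []),
  (4170, 4290, 4162, 0, []),
  (4170, 75, 74, 0, []),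
  (531, 2578, 530, 0, []),
  (2092, 1068, 44, 0, []),
  (2578, 2322, 2066, 0, []),
  (2578, 3600, 2576, 0, []),
  (1068, 1038, 1036, 0, []),
  (1068, 1192, 1064, 0, []),
  (2322, 278, 274, 0, []),
  (2322, 2434, 2306, 0, []),
  (3600, 3152, 3088, 0, []),
  (1038, 5130, 1034, 0, []),
  (1192, 5256, 1160, 0, []),
  (3152, 1136, 1104, 0, []),
  (3152, 3648, 3136, 0, []),
  (5130, 5250, 5122, 0, []),
  (5256, 4248, 4232, 0, []),
  (1136, 4208, 112, 0, []),
  (1136, 1073, 1072, 0, []),
  (4248, 4304, 4240, 0, []),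
  (4208, 4448, 4192, 0, []),
  (1073, 4145, 49, 0, []),
  (6149, 6177, 6145, 6144, [6180, 6177]),
  (3600, 3648, 3584, 3072, [3152, 3648]),
  (4145, 4208, 4144, 48, [1073, 1136, 4208]),
  (5130, 5256, 5128, 1032, [1038, 1068, 1192, 5256]),
  (5250, 5256, 5248, 5120, [5130, 5256]),
  (1409, 1410, 1408, 1280, [1345, 1376, 1316, 1286, 1410]),
  (531, 1553, 529, 513, [579, 1601, 1553]),
  (1553, 3600, 1552, 528, [531, 2578, 3600]),
  (1601, 3648, 1600, 1536, [1553, 3600, 3648]),
  (1136, 1376, 1120, 1088, [3152, 3648, 1601, 1345, 1376]),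
  (1376, 4448, 352, 96, [1136, 4208, 4448]),
  (4424, 4448, 4416, 320, [329, 1345, 1376, 4448]),
  (4388, 4448, 4384, 288, [1316, 1376, 4448]),
  (4145, 6177, 4129, 4128, [4208, 4448, 4388, 6180, 6177]),
  (4117, 4145, 4113, 4097, [6149, 6177, 4145]),
  (2626, 3648, 2624, 576, [579, 1601, 3648]),
  (2578, 2626, 2562, 2560, [3600, 3648, 2626]),
  (1073, 1553, 1041, 1040, [1136, 3152, 3600, 1553]),
  (1073, 1185, 1057, 1025, [1553, 1601, 1345, 1409, 1185]),
  (1185, 2209, 161, 33, [1073, 4145, 6177, 2209]),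
  (1409, 2433, 385, 129, [1185, 2209, 2433]),
  (2313, 2433, 2305, 257, [329, 1345, 1409, 2433]),
  (2061, 6149, 2053, 2049, [2313, 2433, 2209, 6177, 6149]),
  (2092, 6180, 2084, 2052, [2061, 6149, 6180]),
  (2092, 2216, 2088, 2080, [6180, 6177, 2209, 2216]),
  (2313, 2328, 2312, 2056, [2061, 2092, 2216, 2200, 2328]),
  (4376, 4424, 4360, 264, [2328, 2313, 329, 4424]),
  (4372, 4388, 4356, 4352, [4376, 4424, 4448, 4388]),
  (4117, 4372, 4116, 4100, [6149, 6180, 4388, 4372]),
  (1192, 2216, 168, 40, [1068, 2092, 2216]),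
  (1185, 1192, 1184, 160, [2209, 2216, 1192]),
  (1410, 5250, 1154, 1152, [1409, 1185, 1192, 5256, 5250]),
  (1038, 1286, 1030, 1026, [5130, 5250, 1410, 1286]),
  (1068, 1316, 1060, 1028, [1038, 1286, 1316]),
  (2200, 4248, 152, 136, [2216, 1192, 5256, 4248]),
  (2256, 4304, 208, 144, [2200, 4248, 4304]),
  (4248, 4376, 4120, 24, [2200, 2328, 4376]),
  (4208, 4304, 4176, 4112, [4145, 4117, 4372, 4376, 4248, 4304]),
  (4290, 4304, 4288, 4160, [4170, 4424, 4448, 4208, 4304]),
  (4290, 5250, 4226, 4224, [4304, 4248, 5256, 5250]),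
  (4170, 5130, 4106, 4098, [4290, 5250, 5130]),
  (2242, 4290, 194, 192, [2256, 4304, 4290]),
  (2256, 3152, 2128, 80, [4304, 4208, 1136, 3152]),
  (2242, 2626, 2114, 2112, [2256, 3152, 3648, 2626]),
  (2242, 2434, 2178, 2050, [2626, 2578, 2322, 2434]),
  (2433, 2434, 2432, 2176, [2209, 2216, 2200, 2256, 2242, 2434]),
  (2322, 2328, 2320, 2304, [2434, 2433, 2313, 2328]),
  (278, 4372, 276, 272, [2322, 2328, 4376, 4372]),
  (278, 1286, 262, 260, [4372, 4388, 1316, 1286]),
  (1410, 2434, 386, 258, [1286, 278, 2322, 2434]),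
  (23, 278, 22, 20, [4117, 4372, 278]),
  (23, 531, 19, 18, [278, 2322, 2578, 531]),
  (75, 579, 67, 66, [4170, 4290, 2242, 2626, 579]),
  (75, 329, 73, 65, [579, 1601, 1345, 329])]

/-- the masks of all faces -/
def facesB : List ℕ := [
  0, 1, 2, 3, 4, 5, 6, 7, 8, 9, 10, 11, 12, 13, 14, 16, 17, 18, 19, 20, 21, 22, 23, 24, 32, 33,
  36, 40, 44, 48, 49, 64, 65, 66, 67, 72, 73, 74, 75, 80, 96, 112, 128, 129, 130, 136, 144, 152,
  160, 161, 168, 192, 194, 208, 256, 257, 258, 260, 262, 264, 265, 272, 274, 276, 278, 280, 288,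
  292, 320, 321, 328, 329, 352, 384, 385, 386, 512, 513, 514, 515, 528, 529, 530, 531, 576, 577,
  578, 579, 1024, 1025, 1026, 1028, 1030, 1032, 1034, 1036, 1038, 1040, 1041, 1056, 1057, 1060,
  1064, 1068, 1072, 1073, 1088, 1089, 1104, 1120, 1136, 1152, 1153, 1154, 1160, 1184, 1185, 1192,
  1280, 1281, 1282, 1284, 1286, 1312, 1316, 1344, 1345, 1376, 1408, 1409, 1410, 1536, 1537, 1552,
  1553, 1600, 1601, 2048, 2049, 2050, 2052, 2053, 2056, 2057, 2060, 2061, 2064, 2066, 2072, 2080,
  2081, 2084, 2088, 2092, 2112, 2114, 2128, 2176, 2177, 2178, 2184, 2192, 2200, 2208, 2209, 2216,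
  2240, 2242, 2256, 2304, 2305, 2306, 2312, 2313, 2320, 2322, 2328, 2432, 2433, 2434, 2560, 2562,
  2576, 2578, 2624, 2626, 3072, 3088, 3136, 3152, 3584, 3600, 3648, 4096, 4097, 4098, 4100, 4101,
  4104, 4106, 4112, 4113, 4116, 4117, 4120, 4128, 4129, 4132, 4144, 4145, 4160, 4162, 4168, 4170,
  4176, 4192, 4208, 4224, 4226, 4232, 4240, 4248, 4288, 4290, 4304, 4352, 4356, 4360, 4368, 4372,
  4376, 4384, 4388, 4416, 4424, 4448, 5120, 5122, 5128, 5130, 5248, 5250, 5256, 6144, 6145, 6148,
  6149, 6176, 6177, 6180]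

/-- facets and glued faces at the end -/
def endB : List ℕ × List ℕ := (run 3 13 Bm [23] [] stepsB).getD ([], [])

theorem run_ok : run 3 13 Bm [23] [] stepsB = some endB := by decide +kernel

theorem end_facets : Bm.all (fun m => endB.1.contains m) = true ∧
    endB.1.all (fun m => Bm.contains m) = true := by decide +kernel

theorem conn_ok : facesB.all (fun A => connB endB.1 (bitset endB.2) A) = true := by decide +kernel

theorem faces_ok : (faceMasks 13 Bm).all (fun m => (bitset facesB).testBit m) = true := by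
  decide +kernel

theorem card_Bm : ∀ m ∈ Bm, (decF 13 m).card = 4 := by decide +kernel

theorem small_Bm : ∀ m ∈ Bm, m < 2 ^ 13 := by decide +kernel

/-- the facets of the ball -/
theorem facet_iff {F : Finset (Fin 13)} : IsFacet (cx 13 Bm) F ↔ ∃ m ∈ Bm, decF 13 m = F := by
  constructor
  · rintro ⟨h1, h2⟩
    obtain ⟨m, hm, h3⟩ := mem_cx.1 h1
    exact ⟨m, hm, h2 _ (mem_cx.2 ⟨m, hm, Subset.refl _⟩) h3⟩
  · rintro ⟨m, hm, rfl⟩
    refine ⟨mem_cx.2 ⟨m, hm, Subset.refl _⟩, ?_⟩
    intro G hG hmG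
    obtain ⟨m', hm', h3⟩ := mem_cx.1 hG
    refine Subset.antisymm ?_ hmG
    have h4 : decF 13 m = decF 13 m' :=
      eq_of_subset_of_card_le (hmG.trans h3) (by rw [card_Bm m hm, card_Bm m' hm'])
    rw [h4]
    exact h3

theorem two_ok : Bm.all (fun a => Bm.all (fun b => (a == b) || !(decide ((decF 13 (a &&& b)).card = 3)) ||
    Bm.all (fun c => (c == a) || (c == b) || !((a &&& b &&& c) == (a &&& b))))) = true := by
  decide +kernel

theorem decF_land (n a b : ℕ) : decF n (a &&& b) = decF n a ∩ decF n b := by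
  ext i
  rw [mem_inter, mem_decF, mem_decF, mem_decF, Nat.testBit_land, Bool.and_eq_true]

theorem atMostTwo : AtMostTwo 3 (cx 13 Bm) := by
  intro R hR X Y Z hX hY hZ h1 h2 h3
  obtain ⟨a, ha, rfl⟩ := facet_iff.1 hX
  obtain ⟨b, hb, rfl⟩ := facet_iff.1 hY
  obtain ⟨c, hc, rfl⟩ := facet_iff.1 hZ
  by_contra hcon
  push Not at hcon
  obtain ⟨n1, n2, n3⟩ := hcon
  have hinter : ∀ x ∈ Bm, ∀ y ∈ Bm, decF 13 x ≠ decF 13 y → R ⊆ decF 13 x → R ⊆ decF 13 y →
      decF 13 (x &&& y) = R := by
    intro x hx y hy hxy hRx hRy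
    rw [decF_land]
    refine (eq_of_subset_of_card_le (subset_inter hRx hRy) ?_).symm
    rw [hR]
    have h4 : (decF 13 x ∩ decF 13 y).card < (decF 13 x).card := by
      refine card_lt_card ⟨inter_subset_left, fun h => hxy ?_⟩
      exact eq_of_subset_of_card_le (h.trans inter_subset_right)
        (by rw [card_Bm x hx, card_Bm y hy])
    rw [card_Bm x hx] at h4
    omega
  have h4 := two_ok
  rw [List.all_eq_true] at h4
  have h5 := h4 a ha
  rw [List.all_eq_true] at h5
  have h6 := h5 b hb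
  have e1 := hinter a ha b hb n1 h1 h2
  have e2 := hinter a ha c hc n2 h1 h3
  simp only [Bool.or_eq_true, beq_iff_eq, Bool.not_eq_true', decide_eq_false_iff_not,
    List.all_eq_true, beq_eq_false_iff_ne] at h6
  rcases h6 with (h6 | h6) | h6
  · exact n1 (by rw [h6])
  · rw [e1] at h6
    exact h6 hR
  · rcases h6 c hc with (h7 | h7) | h7
    · exact n2 (by rw [h7])
    · exact n3 (by rw [h7])
    · apply h7
      have hlt : ∀ x y : ℕ, x < 2 ^ 13 → x &&& y < 2 ^ 13 := fun x y hx =>
        lt_of_le_of_lt Nat.and_le_left hx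
      refine decF_inj (n := 13) (hlt _ _ (hlt _ _ (small_Bm a ha))) (hlt _ _ (small_Bm a ha)) ?_
      rw [decF_land, e1]
      exact inter_eq_left.2 h3

/-- the ball is locally constructible -/
theorem isLC_B : IsLC 3 (cx 13 Bm) := by
  obtain ⟨⟨l, G⟩, hrun, h0, h0', hconn⟩ : ∃ lG : List ℕ × List ℕ,
      run 3 13 Bm [23] [] stepsB = some lG ∧ Bm.all (fun m => lG.1.contains m) = true ∧
      lG.1.all (fun m => Bm.contains m) = true ∧
      facesB.all (fun A => connB lG.1 (bitset lG.2) A) = true :=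
    ⟨endB, run_ok, end_facets.1, end_facets.2, conn_ok⟩
  rw [List.all_eq_true] at h0 h0'
  have hin : ∀ m ∈ Bm, m ∈ l := fun m hm => List.contains_iff_mem.1 (h0 m hm)
  have hout : ∀ m ∈ l, m ∈ Bm := fun m hm => List.contains_iff_mem.1 (h0' m hm)
  refine ⟨?_, atMostTwo, FF 13 l, FF 13 G, ?_, ?_, ?_⟩
  · intro F hF
    obtain ⟨m, hm, rfl⟩ := facet_iff.1 hF
    exact card_Bm m hm
  · refine run_sound (fun m hm => facet_iff.2 ⟨m, hm, rfl⟩) stepsB [23] [] l G
      (by decide) (by simp) ?_ hrun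
    have h1 : FF 13 [23] = {decF 13 23} := by
      rw [FF_cons]; rfl
    have h2 : FF 13 [] = ∅ := by rfl
    rw [h1, h2]
    exact LCStage.start _ (facet_iff.2 ⟨23, by decide, rfl⟩)
  · intro F hF
    obtain ⟨m, hm, rfl⟩ := facet_iff.1 hF
    exact decF_mem_FF (hin m hm)
  · intro A hA F hF F' hF' h1 h2
    obtain ⟨x, hx, rfl⟩ := mem_FF.1 hF
    obtain ⟨y, hy, rfl⟩ := mem_FF.1 hF'
    have e : decF 13 (enc A) = A := decF_enc A
    have hAx : enc A &&& x = enc A := (subset_decF A x).1 h1
    have hAy : enc A &&& y = enc A := (subset_decF A y).1 h2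
    have hmem : enc A ∈ facesB := by
      rw [← testBit_bitset]
      have h3 := faces_ok
      rw [List.all_eq_true] at h3
      apply h3
      rw [faceMasks, List.mem_flatMap]
      exact ⟨x, hout x hx, (mem_subs _ _ _).2 ⟨enc_lt A, hAx⟩⟩
    rw [List.all_eq_true] at hconn
    have h5 := connB_sound (n := 13) (hconn _ hmem) hx hy hAx hAy
    rwa [e] at h5

end Pool.Agent.W296.LCB
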