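import Mathlib

set_option autoImplicit false

/-!
# Local h-polynomials of subdivisions of a simplex: definitions

Complexes are given by their finite set of faces, which contains the empty face.  A subdivision
`Γ` (with vertices in `U`) of the simplex with vertex set `V` comes with the carrier map `σ`.
-/

namespace Pool.Agent.W296.LocH

open Finset

variable {U V : Type} [Fintype U] [DecidableEq U] [Fintype V] [DecidableEq V]

/-- finite abstract simplicial complex (the empty set is a face) -/
def IsCx (Γ : Finset (Finset U)) : Prop := ∅ ∈ Γ ∧ ∀ G ∈ Γ, ∀ H : Finset U, H ⊆ G → H ∈ Γ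

/-- The polynomial `∑_{i ≤ e} f_{i-1} x^i (1-x)^{e-i}`, where `f_{i-1}` is the number of faces
with `i` vertices; for a complex of dimension `e - 1` this is the h-polynomial. -/
noncomputable def hPoly (e : ℕ) (Δ : Finset (Finset U)) : Polynomial ℤ :=
  ∑ i ∈ range (e + 1), Polynomial.C ((Δ.filter fun F => F.card = i).card : ℤ) *
    Polynomial.X ^ i * (1 - Polynomial.X) ^ (e - i)

/-- The restriction `Γ_W`: the faces whose carrier is contained in `W`. -/
def restr (Γ : Finset (Finset U)) (σ : Finset U → Finset V) (W : Finset V) :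
    Finset (Finset U) := Γ.filter fun G => σ G ⊆ W

/-- The local h-polynomial `∑_W (-1)^{d-#W} h(Γ_W, x)`, where `d = #V`. -/
noncomputable def localH (Γ : Finset (Finset U)) (σ : Finset U → Finset V) : Polynomial ℤ :=
  ∑ W : Finset V, (-1) ^ (Fintype.card V - W.card) * hPoly W.card (restr Γ σ W)

/-- The geometric realization, in barycentric coordinates. -/
def body (Δ : Finset (Finset U)) : Set (U → ℝ) :=
  {x | (∀ u, 0 ≤ x u) ∧ ∑ u, x u = 1 ∧ ∃ G ∈ Δ, ∀ u, x u ≠ 0 → u ∈ G}

/-- `(Γ, σ)` is a topological subdivision of the simplex with vertex set `V`. -/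
structure IsTopSubdivision (Γ : Finset (Finset U)) (σ : Finset U → Finset V) : Prop where
  isCx : IsCx Γ
  /-- the restrictions are subcomplexes -/
  subcomplex : ∀ W : Finset V, ∀ G ∈ Γ, σ G ⊆ W → ∀ H, H ⊆ G → σ H ⊆ W
  /-- the case `W = ∅`: `Γ_∅` is the ball `{∅}` of dimension `-1` -/
  empty_face : ∀ G ∈ Γ, (σ G = ∅ ↔ G = ∅)
  /-- `Γ_W` is a ball of dimension `#W - 1`, and `σ⁻¹(W)` is the set of its interior faces: the
  relative interior of `G` lies in the interior of the ball if `σ G = W` and on its boundary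
  sphere otherwise -/
  ball : ∀ W : Finset V, W.Nonempty →
    ∃ φ : body (restr Γ σ W) ≃ₜ Metric.closedBall (0 : EuclideanSpace ℝ (Fin (W.card - 1))) 1,
      ∀ G ∈ Γ, G.Nonempty → σ G ⊆ W → ∀ y : body (restr Γ σ W),
        (∀ u, 0 < (y : U → ℝ) u ↔ u ∈ G) →
          (σ G = W ↔ ‖(φ y : EuclideanSpace ℝ (Fin (W.card - 1)))‖ < 1)

/-- `Γ` is quasi-geometric: no face `G` and no `W` with `#W < #G` are such that the carriers of
all vertices of `G` are contained in `W`. -/
def QuasiGeometric (Γ : Finset (Finset U)) (σ : Finset U → Finset V) : Prop :=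
  ∀ G ∈ Γ, ∀ W : Finset V, (∀ u ∈ G, σ {u} ⊆ W) → G.card ≤ W.card

end Pool.Agent.W296.LocH
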