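import Mathlib
import Pool.Agent.H904R2.Ball

set_option autoImplicit false

/-!
# A simplex is a ball, with control of the interior
-/

namespace Pool.Agent.W296.SimplexBall

open Finset Pool.Agent.H904R2.BallAux

/-- The face with vertex set `W` of the standard simplex on `V`. -/
def Face {V : Type} [Fintype V] (W : Finset V) : Set (V → ℝ) :=
  {z | (∀ v, 0 ≤ z v) ∧ ∑ v, z v = 1 ∧ ∀ v, v ∉ W → z v = 0}

/-- The corner simplex in Euclidean space. -/
def Corner (n : ℕ) : Set (EuclideanSpace ℝ (Fin n)) := (EuclideanSpace.equiv (Fin n) ℝ) ⁻¹' (S n)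

theorem corner_interior (n : ℕ) : interior (Corner n) =
    (EuclideanSpace.equiv (Fin n) ℝ) ⁻¹' interior (S n) :=
  ((EuclideanSpace.equiv (Fin n) ℝ).toHomeomorph.preimage_interior (S n)).symm

theorem corner_ball (n : ℕ) : ∃ φ : Corner n ≃ₜ Metric.closedBall (0 : EuclideanSpace ℝ (Fin n)) 1,
    ∀ x : Corner n, (x : EuclideanSpace ℝ (Fin n)) ∈ interior (Corner n) ↔
      ‖(φ x : EuclideanSpace ℝ (Fin n))‖ < 1 := by
  have hc : Convex ℝ (Corner n) :=
    (S_convex n).linear_preimage (EuclideanSpace.equiv (Fin n) ℝ).toLinearMap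
  have hcl : IsClosed (Corner n) := (S_closed n).preimage (EuclideanSpace.equiv (Fin n) ℝ).continuous
  have hint : (interior (Corner n)).Nonempty := by
    rw [corner_interior]
    obtain ⟨x, hx⟩ := S_interior_nonempty n
    refine ⟨(EuclideanSpace.equiv (Fin n) ℝ).symm x, ?_⟩
    show EuclideanSpace.equiv (Fin n) ℝ ((EuclideanSpace.equiv (Fin n) ℝ).symm x) ∈ interior (S n)
    rw [ContinuousLinearEquiv.apply_symm_apply]
    exact hx
  have hb : Bornology.IsBounded (Corner n) := by
    have h1 : Corner n = (EuclideanSpace.equiv (Fin n) ℝ).symm '' (S n) := by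
      ext x
      constructor
      · intro hx
        exact ⟨EuclideanSpace.equiv (Fin n) ℝ x, hx, by simp⟩
      · rintro ⟨y, hy, rfl⟩
        show EuclideanSpace.equiv (Fin n) ℝ ((EuclideanSpace.equiv (Fin n) ℝ).symm y) ∈ S n
        rw [ContinuousLinearEquiv.apply_symm_apply]
        exact hy
    rw [h1]
    exact (EuclideanSpace.equiv (Fin n) ℝ).symm.lipschitz.isBounded_image (S_bounded n)
  obtain ⟨h, h1, h2, -⟩ := exists_homeomorph_image_interior_closure_frontier_eq_unitBall hc hint hb
  rw [hcl.closure_eq] at h2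
  refine ⟨(h.image (Corner n)).trans (Homeomorph.setCongr h2), ?_⟩
  intro x
  show _ ↔ ‖h x.1‖ < 1
  rw [← mem_ball_zero_iff, ← h1]
  constructor
  · intro hx
    exact ⟨x.1, hx, rfl⟩
  · rintro ⟨y, hy, hyx⟩
    rw [← h.injective hyx]
    exact hy

theorem face_corner {V : Type} [Fintype V] [DecidableEq V] (W : Finset V) (n : ℕ)
    (hW : W.card = n + 1) : ∃ φ : Face W ≃ₜ Corner n, ∀ z : Face W,
      (∀ v ∈ W, 0 < (z : V → ℝ) v) ↔ (φ z : EuclideanSpace ℝ (Fin n)) ∈ interior (Corner n) := by
  let e : Fin (n + 1) ≃ W := (W.equivFinOfCardEq hW).symm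
  let a : (V → ℝ) → EuclideanSpace ℝ (Fin n) := fun z =>
    (EuclideanSpace.equiv (Fin n) ℝ).symm (fun j => z (e j.succ))
  let b : EuclideanSpace ℝ (Fin n) → (V → ℝ) := fun y v =>
    if h : v ∈ W then
      (Fin.cons (1 - ∑ j, (EuclideanSpace.equiv (Fin n) ℝ y) j)
        (EuclideanSpace.equiv (Fin n) ℝ y) : Fin (n + 1) → ℝ) (e.symm ⟨v, h⟩) else 0
  have hsum : ∀ z ∈ Face W, z (e 0) + ∑ j : Fin n, z (e j.succ) = 1 := by
    intro z hz
    rw [← hz.2.1, ← Fin.sum_univ_succ (fun i => z (e i))]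
    have h1 : ∑ v, z v = ∑ v ∈ W, z v :=
      (sum_subset (subset_univ W) (fun v _ hv => hz.2.2 v hv)).symm
    rw [h1, ← Finset.sum_coe_sort W z]
    exact Equiv.sum_comp e (fun w : W => z w)
  have ha : ∀ z ∈ Face W, a z ∈ Corner n := by
    intro z hz
    show EuclideanSpace.equiv (Fin n) ℝ ((EuclideanSpace.equiv (Fin n) ℝ).symm _) ∈ S n
    rw [ContinuousLinearEquiv.apply_symm_apply]
    refine ⟨fun j => hz.1 _, ?_⟩
    have h1 := hsum z hz
    have := hz.1 (e 0)
    linarith
  have hbW : ∀ (y : EuclideanSpace ℝ (Fin n)) (i : Fin (n + 1)), b y (e i) =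
      (Fin.cons (1 - ∑ j, (EuclideanSpace.equiv (Fin n) ℝ y) j)
        (EuclideanSpace.equiv (Fin n) ℝ y) : Fin (n + 1) → ℝ) i := by
    intro y i
    show (if h : (e i : V) ∈ W then _ else _) = _
    rw [dif_pos (e i).2]
    congr 1
    exact e.symm_apply_apply i
  have hbnW : ∀ (y : EuclideanSpace ℝ (Fin n)) (v : V), v ∉ W → b y v = 0 := by
    intro y v hv
    show (if h : v ∈ W then _ else _) = _
    rw [dif_neg hv]
  have hb : ∀ y ∈ Corner n, b y ∈ Face W := by
    intro y hy
    obtain ⟨h0, h1⟩ := (hy : EuclideanSpace.equiv (Fin n) ℝ y ∈ S n)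
    have hnn : ∀ i, 0 ≤ b y (e i) := by
      intro i
      rw [hbW]
      refine Fin.cases ?_ (fun j => ?_) i
      · rw [Fin.cons_zero]; linarith
      · rw [Fin.cons_succ]; exact h0 j
    refine ⟨?_, ?_, hbnW y⟩
    · intro v
      by_cases hv : v ∈ W
      · have := hnn (e.symm ⟨v, hv⟩)
        rwa [e.apply_symm_apply] at this
      · rw [hbnW y v hv]
    · have h1 : ∑ v, b y v = ∑ v ∈ W, b y v :=
        (sum_subset (subset_univ W) (fun v _ hv => hbnW y v hv)).symm
      rw [h1, ← Finset.sum_coe_sort W (b y), ← Equiv.sum_comp e (fun w : W => b y w)]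
      rw [Finset.sum_congr rfl (fun i _ => hbW y i), Fin.sum_univ_succ]
      simp only [Fin.cons_zero, Fin.cons_succ]
      ring
  refine ⟨{ toFun := fun x => ⟨a x.1, ha x.1 x.2⟩
            invFun := fun y => ⟨b y.1, hb y.1 y.2⟩
            left_inv := ?_
            right_inv := ?_
            continuous_toFun := ?_
            continuous_invFun := ?_ }, ?_⟩
  · rintro ⟨x, hx⟩
    apply Subtype.ext
    funext v
    by_cases hv : v ∈ W
    · obtain ⟨i, hi⟩ : ∃ i, (e i : V) = v := ⟨e.symm ⟨v, hv⟩, by rw [e.apply_symm_apply]⟩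
      show b (a x) v = x v
      rw [← hi, hbW]
      refine Fin.cases ?_ (fun j => ?_) i
      · rw [Fin.cons_zero]
        simp only [a, ContinuousLinearEquiv.apply_symm_apply]
        have := hsum x hx
        linarith
      · rw [Fin.cons_succ]
        simp only [a, ContinuousLinearEquiv.apply_symm_apply]
    · show b (a x) v = x v
      rw [hbnW _ v hv, hx.2.2 v hv]
  · rintro ⟨y, hy⟩
    apply Subtype.ext
    show (EuclideanSpace.equiv (Fin n) ℝ).symm (fun j : Fin n => b y (e j.succ)) = y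
    have : (fun j : Fin n => b y (e j.succ)) = EuclideanSpace.equiv (Fin n) ℝ y := by
      funext j
      rw [hbW, Fin.cons_succ]
    rw [this, ContinuousLinearEquiv.symm_apply_apply]
  · apply Continuous.subtype_mk
    exact (EuclideanSpace.equiv (Fin n) ℝ).symm.continuous.comp
      (continuous_pi fun j => (continuous_apply _).comp continuous_subtype_val)
  · apply Continuous.subtype_mk
    apply continuous_pi
    intro v
    have hc : ∀ j, Continuous fun y : Corner n => (EuclideanSpace.equiv (Fin n) ℝ y.1) j := fun j =>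
      (continuous_apply j).comp ((EuclideanSpace.equiv (Fin n) ℝ).continuous.comp
        continuous_subtype_val)
    by_cases hv : v ∈ W
    · obtain ⟨i, hi⟩ : ∃ i, (e i : V) = v := ⟨e.symm ⟨v, hv⟩, by rw [e.apply_symm_apply]⟩
      rw [← hi]
      simp only [hbW]
      refine Fin.cases ?_ (fun j => ?_) i
      · simp only [Fin.cons_zero]
        exact continuous_const.sub (continuous_finsetSum _ fun j _ => hc j)
      · simp only [Fin.cons_succ]
        exact hc j
    · simp only [hbnW _ v hv]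
      exact continuous_const
  · rintro ⟨z, hz⟩
    show (∀ v ∈ W, 0 < z v) ↔ a z ∈ interior (Corner n)
    rw [corner_interior, Set.mem_preimage]
    simp only [a, ContinuousLinearEquiv.apply_symm_apply]
    rw [S_interior]
    have h1 := hsum z hz
    constructor
    · intro h
      refine ⟨fun j => h _ (e j.succ).2, ?_⟩
      have := h _ (e 0).2
      linarith
    · rintro ⟨h2, h3⟩ v hv
      obtain ⟨i, hi⟩ : ∃ i, (e i : V) = v := ⟨e.symm ⟨v, hv⟩, by rw [e.apply_symm_apply]⟩
      rw [← hi]
      refine Fin.cases ?_ (fun j => ?_) i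
      · linarith
      · exact h2 j

/-- a face of the standard simplex is a ball whose interior consists of the points with full
support -/
theorem face_ball {V : Type} [Fintype V] [DecidableEq V] (W : Finset V) (n : ℕ)
    (hW : W.card = n + 1) : ∃ φ : Face W ≃ₜ Metric.closedBall (0 : EuclideanSpace ℝ (Fin n)) 1,
      ∀ z : Face W, (∀ v ∈ W, 0 < (z : V → ℝ) v) ↔ ‖(φ z : EuclideanSpace ℝ (Fin n))‖ < 1 := by
  obtain ⟨φ, hφ⟩ := face_corner W n hW
  obtain ⟨ψ, hψ⟩ := corner_ball n
  exact ⟨φ.trans ψ, fun z => (hφ z).trans (hψ (φ z))⟩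

end Pool.Agent.W296.SimplexBall
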