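import Mathlib
import Pool.Agent.W296.LocHDefs
import Pool.Agent.W296.SimplexBall

set_option autoImplicit false

/-!
# A criterion for topological subdivisions of a simplex
-/

namespace Pool.Agent.W296.LocH

open Finset Pool.Agent.W296.SimplexBall

variable {U V : Type} [Fintype U] [DecidableEq U] [Fintype V] [DecidableEq V]

open Classical in
/-- support -/
noncomputable def supp (x : U → ℝ) : Finset U := univ.filter fun u => 0 < x u

theorem mem_supp {x : U → ℝ} {u : U} : u ∈ supp x ↔ 0 < x u := by simp [supp]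

theorem mem_body {Γ : Finset (Finset U)} (hΓ : IsCx Γ) {x : U → ℝ} :
    x ∈ body Γ ↔ (∀ u, 0 ≤ x u) ∧ ∑ u, x u = 1 ∧ supp x ∈ Γ := by
  constructor
  · rintro ⟨h0, h1, G, hG, h2⟩
    exact ⟨h0, h1, hΓ.2 G hG _ fun u hu => h2 u (ne_of_gt (mem_supp.1 hu))⟩
  · rintro ⟨h0, h1, h2⟩
    exact ⟨h0, h1, supp x, h2, fun u hu => mem_supp.2 (lt_of_le_of_ne (h0 u) (Ne.symm hu))⟩

theorem restr_isCx {Γ : Finset (Finset U)} (hΓ : IsCx Γ) {σ : Finset U → Finset V}
    (h0 : σ ∅ = ∅) (hmono : ∀ G ∈ Γ, ∀ H, H ⊆ G → σ H ⊆ σ G) (W : Finset V) :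
    IsCx (restr Γ σ W) := by
  constructor
  · rw [restr, mem_filter, h0]
    exact ⟨hΓ.1, empty_subset _⟩
  · intro G hG H hH
    rw [restr, mem_filter] at hG ⊢
    exact ⟨hΓ.2 G hG.1 H hH, (hmono G hG.1 H hH).trans hG.2⟩

theorem isTopSubdivision_of_homeo {Γ : Finset (Finset U)} (hΓ : IsCx Γ)
    {σ : Finset U → Finset V} (h0 : ∀ G ∈ Γ, σ G = ∅ ↔ G = ∅)
    (hmono : ∀ G ∈ Γ, ∀ H, H ⊆ G → σ H ⊆ σ G)
    (Φ : body Γ ≃ₜ Face (univ : Finset V))
    (hΦ : ∀ x : body Γ, ∀ v, 0 < (Φ x : V → ℝ) v ↔ v ∈ σ (supp (x : U → ℝ))) :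
    IsTopSubdivision Γ σ := by
  have he : σ ∅ = ∅ := (h0 ∅ hΓ.1).2 rfl
  refine ⟨hΓ, fun W G hG hGW H hH => (hmono G hG H hH).trans hGW, h0, ?_⟩
  intro W hW
  have hR := restr_isCx hΓ he hmono W
  have hsub : ∀ x : U → ℝ, x ∈ body (restr Γ σ W) ↔
      ∃ h : x ∈ body Γ, (Φ ⟨x, h⟩ : V → ℝ) ∈ Face W := by
    intro x
    rw [mem_body hR]
    constructor
    · rintro ⟨h1, h2, h3⟩
      rw [restr, mem_filter] at h3
      have hx : x ∈ body Γ := (mem_body hΓ).2 ⟨h1, h2, h3.1⟩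
      refine ⟨hx, (Φ ⟨x, hx⟩).2.1, (Φ ⟨x, hx⟩).2.2.1, ?_⟩
      intro v hv
      have h4 : ¬ 0 < (Φ ⟨x, hx⟩ : V → ℝ) v := by
        rw [hΦ]
        exact fun h => hv (h3.2 h)
      exact le_antisymm (not_lt.1 h4) ((Φ ⟨x, hx⟩).2.1 v)
    · rintro ⟨hx, h1⟩
      have h2 := (mem_body hΓ).1 hx
      refine ⟨h2.1, h2.2.1, ?_⟩
      rw [restr, mem_filter]
      refine ⟨h2.2.2, ?_⟩
      intro v hv
      by_contra hvW
      rw [← hΦ ⟨x, hx⟩ v, h1.2.2 v hvW] at hv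
      exact lt_irrefl _ hv
  -- the restricted homeomorphism
  let Ψ : body (restr Γ σ W) ≃ₜ Face W :=
    { toFun := fun x => ⟨Φ ⟨x.1, ((hsub x.1).1 x.2).1⟩, ((hsub x.1).1 x.2).2⟩
      invFun := fun z => ⟨(Φ.symm ⟨z.1, z.2.1, z.2.2.1, fun v hv => absurd (mem_univ v) hv⟩).1, by
        rw [hsub]
        refine ⟨(Φ.symm _).2, ?_⟩
        rw [show (⟨(Φ.symm ⟨z.1, z.2.1, z.2.2.1, fun v hv => absurd (mem_univ v) hv⟩).1,
          (Φ.symm ⟨z.1, z.2.1, z.2.2.1, fun v hv => absurd (mem_univ v) hv⟩).2⟩ : body Γ) =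
          Φ.symm ⟨z.1, z.2.1, z.2.2.1, fun v hv => absurd (mem_univ v) hv⟩ from rfl,
          Φ.apply_symm_apply]
        exact z.2⟩
      left_inv := by
        rintro ⟨x, hx⟩
        apply Subtype.ext
        show (Φ.symm (Φ ⟨x, ((hsub x).1 hx).1⟩)).1 = x
        rw [Φ.symm_apply_apply]
      right_inv := by
        rintro ⟨z, hz⟩
        apply Subtype.ext
        show (Φ (Φ.symm ⟨z, hz.1, hz.2.1, fun v hv => absurd (mem_univ v) hv⟩)).1 = z
        rw [Φ.apply_symm_apply]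
      continuous_toFun := by
        apply Continuous.subtype_mk
        exact continuous_subtype_val.comp (Φ.continuous.comp
          (Continuous.subtype_mk continuous_subtype_val _))
      continuous_invFun := by
        apply Continuous.subtype_mk
        exact continuous_subtype_val.comp (Φ.symm.continuous.comp
          (Continuous.subtype_mk continuous_subtype_val _)) }
  have hcard : W.card = (W.card - 1) + 1 := by
    have := hW.card_pos
    omega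
  obtain ⟨ψ, hψ⟩ := face_ball W (W.card - 1) hcard
  refine ⟨Ψ.trans ψ, ?_⟩
  intro G hG _ hGW y hy
  have hs : supp (y : U → ℝ) = G := by
    ext u
    rw [mem_supp, hy u]
  show _ ↔ ‖(ψ (Ψ y) : EuclideanSpace ℝ (Fin (W.card - 1)))‖ < 1
  rw [← hψ (Ψ y)]
  have hval : ∀ v, 0 < (Ψ y : V → ℝ) v ↔ v ∈ σ G := by
    intro v
    rw [← hs]
    exact hΦ ⟨y.1, ((hsub y.1).1 y.2).1⟩ v
  constructor
  · intro h v hv
    rw [hval, h]
    exact hv
  · intro h
    refine Subset.antisymm hGW ?_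
    intro v hv
    rw [← hval]
    exact h v hv

end Pool.Agent.W296.LocH
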