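import Mathlib
import Pool.Agent.W296.LocH

set_option autoImplicit false

/-!
# A quasi-geometric subdivision of the 3-simplex with local h-polynomial `x + x^3`

The simplex has the vertices `0, 1, 2, 3`; vertex `4` lies in the face `{0, 1, 2}` and vertex `5`
is interior.  The facets are `0123`, `5012`, `5014`, `5024`, `5124`.
-/

namespace Pool.Agent.W296.QG

open Finset Pool.Agent.W296.SimplexBall Pool.Agent.W296.LocH

/-- the facets -/
def facets : Finset (Finset (Fin 6)) :=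
  {{0, 1, 2, 3}, {5, 0, 1, 2}, {5, 0, 1, 4}, {5, 0, 2, 4}, {5, 1, 2, 4}}

/-- the complex -/
def Gam : Finset (Finset (Fin 6)) := facets.biUnion Finset.powerset

/-- the carrier map -/
def sig (G : Finset (Fin 6)) : Finset (Fin 4) :=
  univ.filter fun v => Fin.castLE (by norm_num) v ∈ G ∨ 5 ∈ G ∨ ({0, 1, 2} : Finset (Fin 6)) ⊆ G ∨
    (4 ∈ G ∧ v ≠ 3)

theorem mem_Gam {G : Finset (Fin 6)} : G ∈ Gam ↔ G ⊆ {0, 1, 2, 3} ∨ G ⊆ {5, 0, 1, 2} ∨
    G ⊆ {5, 0, 1, 4} ∨ G ⊆ {5, 0, 2, 4} ∨ G ⊆ {5, 1, 2, 4} := by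
  simp [Gam, facets]

theorem gam_isCx : IsCx Gam := by
  constructor
  · rw [mem_Gam]; left; exact empty_subset _
  · intro G hG H hH
    rw [mem_Gam] at hG ⊢
    rcases hG with h | h | h | h | h
    · exact Or.inl (hH.trans h)
    · exact Or.inr (Or.inl (hH.trans h))
    · exact Or.inr (Or.inr (Or.inl (hH.trans h)))
    · exact Or.inr (Or.inr (Or.inr (Or.inl (hH.trans h))))
    · exact Or.inr (Or.inr (Or.inr (Or.inr (hH.trans h))))

theorem sig_empty : ∀ G ∈ Gam, (sig G = ∅ ↔ G = ∅) := by decide +kernel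

theorem sig_mono : ∀ G ∈ Gam, ∀ H, H ⊆ G → sig H ⊆ sig G := by decide +kernel

theorem quasi : QuasiGeometric Gam sig := by
  unfold QuasiGeometric
  decide +kernel

/-! ### The homeomorphism -/

/-- minimum of three numbers -/
noncomputable def m3 (a b c : ℝ) : ℝ := min a (min b c)

theorem m3_le (a b c : ℝ) : m3 a b c ≤ a ∧ m3 a b c ≤ b ∧ m3 a b c ≤ c :=
  ⟨min_le_left _ _, (min_le_right _ _).trans (min_le_left _ _),
    (min_le_right _ _).trans (min_le_right _ _)⟩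

theorem m3_mem (a b c : ℝ) : m3 a b c = a ∨ m3 a b c = b ∨ m3 a b c = c := by
  unfold m3
  rcases min_choice a (min b c) with h | h
  · exact Or.inl h
  · rcases min_choice b c with h' | h' <;> rw [h, h'] <;> simp

theorem m3_eq {a b c t : ℝ} (h1 : t ≤ a) (h2 : t ≤ b) (h3 : t ≤ c)
    (h : t = a ∨ t = b ∨ t = c) : m3 a b c = t := by
  obtain ⟨k1, k2, k3⟩ := m3_le a b c
  refine le_antisymm ?_ (le_min h1 (le_min h2 h3))
  rcases h with h | h | h <;> rw [h] <;> assumption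

theorem m3_cont {X : Type} [TopologicalSpace X] {f g h : X → ℝ} (hf : Continuous f)
    (hg : Continuous g) (hh : Continuous h) : Continuous fun x => m3 (f x) (g x) (h x) :=
  hf.min (hg.min hh)

/-- the map to the simplex -/
noncomputable def phi (x : Fin 6 → ℝ) : Fin 4 → ℝ :=
  ![x 0 + x 5 / 4 - m3 (x 0 + x 5 / 4) (x 1 + x 5 / 4) (x 2 + x 5 / 4) / 2 + (x 4 + x 5 / 4) / 3,
    x 1 + x 5 / 4 - m3 (x 0 + x 5 / 4) (x 1 + x 5 / 4) (x 2 + x 5 / 4) / 2 + (x 4 + x 5 / 4) / 3,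
    x 2 + x 5 / 4 - m3 (x 0 + x 5 / 4) (x 1 + x 5 / 4) (x 2 + x 5 / 4) / 2 + (x 4 + x 5 / 4) / 3,
    x 3 + 3 * m3 (x 0 + x 5 / 4) (x 1 + x 5 / 4) (x 2 + x 5 / 4) / 2]

/-- auxiliary functions of the inverse -/
noncomputable def mu (z : Fin 4 → ℝ) : ℝ := m3 (z 0) (z 1) (z 2)

noncomputable def aa (z : Fin 4 → ℝ) : ℝ := min (3 * mu z) (z 3)

noncomputable def yy (z : Fin 4 → ℝ) (i : Fin 4) : ℝ := z i - mu z + 2 * aa z / 3

noncomputable def nn (z : Fin 4 → ℝ) : ℝ :=
  min (m3 (yy z 0) (yy z 1) (yy z 2)) (3 * mu z - aa z)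

/-- the inverse map -/
noncomputable def psi (z : Fin 4 → ℝ) : Fin 6 → ℝ :=
  ![yy z 0 - nn z, yy z 1 - nn z, yy z 2 - nn z, z 3 - aa z, 3 * mu z - aa z - nn z, 4 * nn z]

theorem body_iff {x : Fin 6 → ℝ} : x ∈ body Gam ↔ (∀ u, 0 ≤ x u) ∧
    x 0 + x 1 + x 2 + x 3 + x 4 + x 5 = 1 ∧
    ((x 4 = 0 ∧ x 5 = 0) ∨ (x 3 = 0 ∧ (x 4 = 0 ∨ x 0 = 0 ∨ x 1 = 0 ∨ x 2 = 0))) := by
  rw [mem_body gam_isCx, mem_Gam]
  have hsum : ∑ u, x u = x 0 + x 1 + x 2 + x 3 + x 4 + x 5 := by
    rw [Fin.sum_univ_six]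
  rw [hsum]
  refine and_congr_right fun h0 => and_congr_right fun h1 => ?_
  have hz : ∀ u, u ∉ supp x ↔ x u = 0 := by
    intro u
    rw [mem_supp, not_lt]
    exact ⟨fun h => le_antisymm h (h0 u), fun h => h.le⟩
  constructor
  · rintro (h | h | h | h | h)
    · left
      exact ⟨(hz 4).1 fun h' => absurd (h h') (by decide),
        (hz 5).1 fun h' => absurd (h h') (by decide)⟩
    · right
      exact ⟨(hz 3).1 fun h' => absurd (h h') (by decide),
        Or.inl ((hz 4).1 fun h' => absurd (h h') (by decide))⟩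
    · right
      exact ⟨(hz 3).1 fun h' => absurd (h h') (by decide),
        Or.inr (Or.inr (Or.inr ((hz 2).1 fun h' => absurd (h h') (by decide))))⟩
    · right
      exact ⟨(hz 3).1 fun h' => absurd (h h') (by decide),
        Or.inr (Or.inr (Or.inl ((hz 1).1 fun h' => absurd (h h') (by decide))))⟩
    · right
      exact ⟨(hz 3).1 fun h' => absurd (h h') (by decide),
        Or.inr (Or.inl ((hz 0).1 fun h' => absurd (h h') (by decide)))⟩
  · have key : ∀ A : Finset (Fin 6), (∀ u, u ∉ A → x u = 0) → supp x ⊆ A :=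
      fun A h u hu => by_contra fun h' => ((hz u).2 (h u h')) hu
    rintro (⟨h4, h5⟩ | ⟨h3, h4 | h4 | h4 | h4⟩)
    · left
      refine key _ fun u hu => ?_
      fin_cases u <;> first | assumption | exact absurd (by decide) hu
    · right; left
      refine key _ fun u hu => ?_
      fin_cases u <;> first | assumption | exact absurd (by decide) hu
    · right; right; right; right
      refine key _ fun u hu => ?_
      fin_cases u <;> first | assumption | exact absurd (by decide) hu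
    · right; right; right; left
      refine key _ fun u hu => ?_
      fin_cases u <;> first | assumption | exact absurd (by decide) hu
    · right; right; left
      refine key _ fun u hu => ?_
      fin_cases u <;> first | assumption | exact absurd (by decide) hu

theorem face_iff {z : Fin 4 → ℝ} : z ∈ Face (univ : Finset (Fin 4)) ↔ (∀ u, 0 ≤ z u) ∧
    z 0 + z 1 + z 2 + z 3 = 1 := by
  constructor
  · rintro ⟨h0, h1, -⟩
    rw [Fin.sum_univ_four] at h1
    exact ⟨h0, h1⟩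
  · rintro ⟨h0, h1⟩
    exact ⟨h0, by rw [Fin.sum_univ_four]; exact h1, fun v hv => absurd (mem_univ v) hv⟩

theorem phi_mem {x : Fin 6 → ℝ} (hx : x ∈ body Gam) : phi x ∈ Face (univ : Finset (Fin 4)) := by
  rw [body_iff] at hx
  obtain ⟨h0, h1, -⟩ := hx
  rw [face_iff]
  have a0 := h0 0
  have a1 := h0 1
  have a2 := h0 2
  have a3 := h0 3
  have a4 := h0 4
  have a5 := h0 5
  obtain ⟨k1, k2, k3⟩ := m3_le (x 0 + x 5 / 4) (x 1 + x 5 / 4) (x 2 + x 5 / 4)
  have k4 : 0 ≤ m3 (x 0 + x 5 / 4) (x 1 + x 5 / 4) (x 2 + x 5 / 4) := by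
    rcases m3_mem (x 0 + x 5 / 4) (x 1 + x 5 / 4) (x 2 + x 5 / 4) with h | h | h <;> rw [h] <;>
      positivity
  constructor
  · intro u
    fin_cases u <;> simp [phi] <;> linarith
  · simp [phi]
    linarith

theorem aa_nonneg {z : Fin 4 → ℝ} (h0 : ∀ u, 0 ≤ z u) : 0 ≤ mu z ∧ 0 ≤ aa z ∧ aa z ≤ z 3 ∧
    aa z ≤ 3 * mu z ∧ mu z ≤ z 0 ∧ mu z ≤ z 1 ∧ mu z ≤ z 2 := by
  obtain ⟨k1, k2, k3⟩ := m3_le (z 0) (z 1) (z 2)
  have hmu : 0 ≤ mu z := by
    unfold mu
    rcases m3_mem (z 0) (z 1) (z 2) with h | h | h <;> rw [h] <;> exact h0 _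
  refine ⟨hmu, le_min (by linarith) (h0 3), min_le_right _ _, min_le_left _ _, k1, k2, k3⟩

theorem psi_mem {z : Fin 4 → ℝ} (hz : z ∈ Face (univ : Finset (Fin 4))) : psi z ∈ body Gam := by
  rw [face_iff] at hz
  obtain ⟨h0, h1⟩ := hz
  obtain ⟨b1, b2, b3, b4, b5, b6, b7⟩ := aa_nonneg h0
  rw [body_iff]
  have y0 : 0 ≤ yy z 0 := by unfold yy; linarith
  have y1 : 0 ≤ yy z 1 := by unfold yy; linarith
  have y2 : 0 ≤ yy z 2 := by unfold yy; linarith
  obtain ⟨k1, k2, k3⟩ := m3_le (yy z 0) (yy z 1) (yy z 2)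
  have k4 : 0 ≤ m3 (yy z 0) (yy z 1) (yy z 2) := by
    rcases m3_mem (yy z 0) (yy z 1) (yy z 2) with h | h | h <;> rw [h] <;> assumption
  have n0 : 0 ≤ nn z := le_min k4 (by linarith)
  have n1 : nn z ≤ m3 (yy z 0) (yy z 1) (yy z 2) := min_le_left _ _
  have n2 : nn z ≤ 3 * mu z - aa z := min_le_right _ _
  refine ⟨?_, ?_, ?_⟩
  · intro u
    fin_cases u <;> simp [psi] <;> linarith
  · simp [psi]
    unfold yy
    linarith
  · rcases min_choice (3 * mu z) (z 3) with h | h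
    · -- `aa z = 3 * mu z`
      left
      have h' : aa z = 3 * mu z := h
      have h'' : nn z = 0 := le_antisymm (by linarith) n0
      simp [psi, h', h'']
    · right
      have h' : aa z = z 3 := h
      refine ⟨by simp [psi, h'], ?_⟩
      rcases min_choice (m3 (yy z 0) (yy z 1) (yy z 2)) (3 * mu z - aa z) with g | g
      · have g' : nn z = m3 (yy z 0) (yy z 1) (yy z 2) := g
        right
        rcases m3_mem (yy z 0) (yy z 1) (yy z 2) with e | e | e
        · left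
          simp [psi, g', e]
        · right; left
          simp [psi, g', e]
        · right; right
          simp [psi, g', e]
      · left
        have g' : nn z = 3 * mu z - aa z := g
        simp [psi, g']

theorem psi_phi {x : Fin 6 → ℝ} (hx : x ∈ body Gam) : psi (phi x) = x := by
  rw [body_iff] at hx
  obtain ⟨h0, h1, h2⟩ := hx
  have a0 := h0 0
  have a1 := h0 1
  have a2 := h0 2
  have a3 := h0 3
  have a4 := h0 4
  have a5 := h0 5
  obtain ⟨m, hm⟩ : ∃ m, m3 (x 0 + x 5 / 4) (x 1 + x 5 / 4) (x 2 + x 5 / 4) = m := ⟨_, rfl⟩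
  obtain ⟨k1, k2, k3⟩ := m3_le (x 0 + x 5 / 4) (x 1 + x 5 / 4) (x 2 + x 5 / 4)
  have k5 := m3_mem (x 0 + x 5 / 4) (x 1 + x 5 / 4) (x 2 + x 5 / 4)
  have k4 : 0 ≤ m3 (x 0 + x 5 / 4) (x 1 + x 5 / 4) (x 2 + x 5 / 4) := by
    rcases m3_mem (x 0 + x 5 / 4) (x 1 + x 5 / 4) (x 2 + x 5 / 4) with h | h | h <;> rw [h] <;>
      positivity
  rw [hm] at k1 k2 k3 k4 k5
  have p0 : phi x 0 = x 0 + x 5 / 4 - m / 2 + (x 4 + x 5 / 4) / 3 := by simp [phi, hm]
  have p1 : phi x 1 = x 1 + x 5 / 4 - m / 2 + (x 4 + x 5 / 4) / 3 := by simp [phi, hm]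
  have p2 : phi x 2 = x 2 + x 5 / 4 - m / 2 + (x 4 + x 5 / 4) / 3 := by simp [phi, hm]
  have p3 : phi x 3 = x 3 + 3 * m / 2 := by simp [phi, hm]
  have hmu : mu (phi x) = m / 2 + (x 4 + x 5 / 4) / 3 := by
    unfold mu
    apply m3_eq
    · rw [p0]; linarith
    · rw [p1]; linarith
    · rw [p2]; linarith
    · rw [p0, p1, p2]
      rcases k5 with h | h | h
      · left; linarith
      · right; left; linarith
      · right; right; linarith
  have haa : aa (phi x) = 3 * m / 2 := by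
    unfold aa
    rw [hmu, p3]
    rcases h2 with ⟨h4, h5⟩ | ⟨h3, -⟩
    · rw [h4, h5, min_eq_left (by linarith)]
      ring
    · rw [h3, min_eq_right (by linarith)]
      ring
  have q0 : yy (phi x) 0 = x 0 + x 5 / 4 := by unfold yy; rw [p0, hmu, haa]; ring
  have q1 : yy (phi x) 1 = x 1 + x 5 / 4 := by unfold yy; rw [p1, hmu, haa]; ring
  have q2 : yy (phi x) 2 = x 2 + x 5 / 4 := by unfold yy; rw [p2, hmu, haa]; ring
  have q4 : 3 * mu (phi x) - aa (phi x) = x 4 + x 5 / 4 := by rw [hmu, haa]; ring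
  have hnn : nn (phi x) = x 5 / 4 := by
    unfold nn
    rw [q0, q1, q2, q4, hm]
    rcases h2 with ⟨h4, h5⟩ | ⟨h3, h | h | h | h⟩
    · rw [h4, h5, min_eq_right (by linarith)]
      ring
    · rw [h, min_eq_right (by rcases k5 with e | e | e <;> linarith)]
      ring
    · rw [min_eq_left (by linarith)]
      rcases k5 with e | e | e <;> linarith
    · rw [min_eq_left (by linarith)]
      rcases k5 with e | e | e <;> linarith
    · rw [min_eq_left (by linarith)]
      rcases k5 with e | e | e <;> linarith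
  funext u
  fin_cases u
  · show yy (phi x) 0 - nn (phi x) = x 0
    rw [q0, hnn]; ring
  · show yy (phi x) 1 - nn (phi x) = x 1
    rw [q1, hnn]; ring
  · show yy (phi x) 2 - nn (phi x) = x 2
    rw [q2, hnn]; ring
  · show phi x 3 - aa (phi x) = x 3
    rw [p3, haa]; ring
  · show 3 * mu (phi x) - aa (phi x) - nn (phi x) = x 4
    rw [q4, hnn]; ring
  · show 4 * nn (phi x) = x 5
    rw [hnn]; ring

theorem phi_psi {z : Fin 4 → ℝ} (hz : z ∈ Face (univ : Finset (Fin 4))) : phi (psi z) = z := by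
  rw [face_iff] at hz
  obtain ⟨h0, h1⟩ := hz
  have e0 : psi z 0 + psi z 5 / 4 = yy z 0 := by simp [psi]
  have e1 : psi z 1 + psi z 5 / 4 = yy z 1 := by simp [psi]
  have e2 : psi z 2 + psi z 5 / 4 = yy z 2 := by simp [psi]
  have e4 : psi z 4 + psi z 5 / 4 = 3 * mu z - aa z := by simp [psi]
  obtain ⟨k1, k2, k3⟩ := m3_le (z 0) (z 1) (z 2)
  have k5 := m3_mem (z 0) (z 1) (z 2)
  have hm : m3 (yy z 0) (yy z 1) (yy z 2) = 2 * aa z / 3 := by
    apply m3_eq
    · unfold yy mu; linarith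
    · unfold yy mu; linarith
    · unfold yy mu; linarith
    · unfold yy mu
      rcases k5 with h | h | h
      · left; linarith
      · right; left; linarith
      · right; right; linarith
  funext u
  fin_cases u
  · show psi z 0 + psi z 5 / 4 - m3 (psi z 0 + psi z 5 / 4) (psi z 1 + psi z 5 / 4)
      (psi z 2 + psi z 5 / 4) / 2 + (psi z 4 + psi z 5 / 4) / 3 = z 0
    rw [e0, e1, e2, e4, hm]
    unfold yy
    ring
  · show psi z 1 + psi z 5 / 4 - m3 (psi z 0 + psi z 5 / 4) (psi z 1 + psi z 5 / 4)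
      (psi z 2 + psi z 5 / 4) / 2 + (psi z 4 + psi z 5 / 4) / 3 = z 1
    rw [e0, e1, e2, e4, hm]
    unfold yy
    ring
  · show psi z 2 + psi z 5 / 4 - m3 (psi z 0 + psi z 5 / 4) (psi z 1 + psi z 5 / 4)
      (psi z 2 + psi z 5 / 4) / 2 + (psi z 4 + psi z 5 / 4) / 3 = z 2
    rw [e0, e1, e2, e4, hm]
    unfold yy
    ring
  · show psi z 3 + 3 * m3 (psi z 0 + psi z 5 / 4) (psi z 1 + psi z 5 / 4)
      (psi z 2 + psi z 5 / 4) / 2 = z 3
    rw [e0, e1, e2, hm]
    show z 3 - aa z + 3 * (2 * aa z / 3) / 2 = z 3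
    ring

theorem phi_cont : Continuous phi := by
  have c : ∀ i j : Fin 6, Continuous fun x : Fin 6 → ℝ => x i + x j / 4 := fun i j =>
    (continuous_apply i).add ((continuous_apply j).div_const 4)
  have hm := m3_cont (c 0 5) (c 1 5) (c 2 5)
  apply continuous_pi
  intro u
  fin_cases u
  · exact ((c 0 5).sub (hm.div_const 2)).add ((c 4 5).div_const 3)
  · exact ((c 1 5).sub (hm.div_const 2)).add ((c 4 5).div_const 3)
  · exact ((c 2 5).sub (hm.div_const 2)).add ((c 4 5).div_const 3)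
  · exact (continuous_apply 3).add ((hm.const_mul 3).div_const 2)

theorem psi_cont : Continuous psi := by
  have cmu : Continuous mu := m3_cont (continuous_apply 0) (continuous_apply 1) (continuous_apply 2)
  have caa : Continuous aa := (cmu.const_mul 3).min (continuous_apply 3)
  have cyy : ∀ i, Continuous fun z => yy z i := fun i =>
    ((continuous_apply i).sub cmu).add ((caa.const_mul 2).div_const 3)
  have cnn : Continuous nn := (m3_cont (cyy 0) (cyy 1) (cyy 2)).min ((cmu.const_mul 3).sub caa)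
  apply continuous_pi
  intro u
  fin_cases u
  · exact (cyy 0).sub cnn
  · exact (cyy 1).sub cnn
  · exact (cyy 2).sub cnn
  · exact (continuous_apply 3).sub caa
  · exact ((cmu.const_mul 3).sub caa).sub cnn
  · exact cnn.const_mul 4

/-- the homeomorphism -/
noncomputable def Phi : body Gam ≃ₜ Face (univ : Finset (Fin 4)) where
  toFun x := ⟨phi x.1, phi_mem x.2⟩
  invFun z := ⟨psi z.1, psi_mem z.2⟩
  left_inv x := Subtype.ext (psi_phi x.2)
  right_inv z := Subtype.ext (phi_psi z.2)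
  continuous_toFun := Continuous.subtype_mk (phi_cont.comp continuous_subtype_val) _
  continuous_invFun := Continuous.subtype_mk (psi_cont.comp continuous_subtype_val) _

theorem Phi_supp (x : body Gam) (v : Fin 4) :
    0 < (Phi x : Fin 4 → ℝ) v ↔ v ∈ sig (supp (x : Fin 6 → ℝ)) := by
  obtain ⟨x, hx⟩ := x
  rw [body_iff] at hx
  obtain ⟨h0, -, -⟩ := hx
  show 0 < phi x v ↔ v ∈ sig (supp x)
  have a0 := h0 0
  have a1 := h0 1
  have a2 := h0 2
  have a3 := h0 3
  have a4 := h0 4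
  have a5 := h0 5
  obtain ⟨m, hm⟩ : ∃ m, m3 (x 0 + x 5 / 4) (x 1 + x 5 / 4) (x 2 + x 5 / 4) = m := ⟨_, rfl⟩
  obtain ⟨k1, k2, k3⟩ := m3_le (x 0 + x 5 / 4) (x 1 + x 5 / 4) (x 2 + x 5 / 4)
  have k5 := m3_mem (x 0 + x 5 / 4) (x 1 + x 5 / 4) (x 2 + x 5 / 4)
  rw [hm] at k1 k2 k3 k5
  have k4 : 0 ≤ m := by rcases k5 with h | h | h <;> rw [h] <;> positivity
  have p0 : phi x 0 = x 0 + x 5 / 4 - m / 2 + (x 4 + x 5 / 4) / 3 := by simp [phi, hm]
  have p1 : phi x 1 = x 1 + x 5 / 4 - m / 2 + (x 4 + x 5 / 4) / 3 := by simp [phi, hm]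
  have p2 : phi x 2 = x 2 + x 5 / 4 - m / 2 + (x 4 + x 5 / 4) / 3 := by simp [phi, hm]
  have p3 : phi x 3 = x 3 + 3 * m / 2 := by simp [phi, hm]
  have hsub : ({0, 1, 2} : Finset (Fin 6)) ⊆ supp x ↔ 0 < x 0 ∧ 0 < x 1 ∧ 0 < x 2 := by
    rw [insert_subset_iff, insert_subset_iff, singleton_subset_iff, mem_supp, mem_supp, mem_supp]
  have hsig : v ∈ sig (supp x) ↔ (0 < x (Fin.castLE (by norm_num) v) ∨ 0 < x 5 ∨
      (0 < x 0 ∧ 0 < x 1 ∧ 0 < x 2) ∨ (0 < x 4 ∧ v ≠ 3)) := by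
    rw [sig, mem_filter, hsub, mem_supp, mem_supp, mem_supp]
    simp
  rw [hsig]
  have hzero : ∀ t : ℝ, 0 ≤ t → ¬ 0 < t → t = 0 := fun t h1 h2 => le_antisymm (not_lt.1 h2) h1
  fin_cases v
  · show 0 < phi x 0 ↔ (0 < x 0 ∨ 0 < x 5 ∨ (0 < x 0 ∧ 0 < x 1 ∧ 0 < x 2) ∨
      (0 < x 4 ∧ (0 : Fin 4) ≠ 3))
    rw [p0]
    constructor
    · intro h
      by_contra hcon
      simp only [not_or, not_and] at hcon
      obtain ⟨g1, g2, -, g3⟩ := hcon
      have e1 := hzero _ a0 g1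
      have e2 := hzero _ a5 g2
      have e3 := hzero _ a4 (fun h => g3 h (by decide))
      rw [e1, e2, e3] at h
      linarith
    · rintro (h | h | ⟨h, -, -⟩ | ⟨h, -⟩) <;> linarith
  · show 0 < phi x 1 ↔ (0 < x 1 ∨ 0 < x 5 ∨ (0 < x 0 ∧ 0 < x 1 ∧ 0 < x 2) ∨
      (0 < x 4 ∧ (1 : Fin 4) ≠ 3))
    rw [p1]
    constructor
    · intro h
      by_contra hcon
      simp only [not_or, not_and] at hcon
      obtain ⟨g1, g2, -, g3⟩ := hcon
      have e1 := hzero _ a1 g1
      have e2 := hzero _ a5 g2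
      have e3 := hzero _ a4 (fun h => g3 h (by decide))
      rw [e1, e2, e3] at h
      linarith
    · rintro (h | h | ⟨-, h, -⟩ | ⟨h, -⟩) <;> linarith
  · show 0 < phi x 2 ↔ (0 < x 2 ∨ 0 < x 5 ∨ (0 < x 0 ∧ 0 < x 1 ∧ 0 < x 2) ∨
      (0 < x 4 ∧ (2 : Fin 4) ≠ 3))
    rw [p2]
    constructor
    · intro h
      by_contra hcon
      simp only [not_or, not_and] at hcon
      obtain ⟨g1, g2, -, g3⟩ := hcon
      have e1 := hzero _ a2 g1
      have e2 := hzero _ a5 g2
      have e3 := hzero _ a4 (fun h => g3 h (by decide))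
      rw [e1, e2, e3] at h
      linarith
    · rintro (h | h | ⟨-, -, h⟩ | ⟨h, -⟩) <;> linarith
  · show 0 < phi x 3 ↔ (0 < x 3 ∨ 0 < x 5 ∨ (0 < x 0 ∧ 0 < x 1 ∧ 0 < x 2) ∨
      (0 < x 4 ∧ (3 : Fin 4) ≠ 3))
    rw [p3]
    constructor
    · intro h
      by_contra hcon
      simp only [not_or] at hcon
      obtain ⟨g1, g2, g3, -⟩ := hcon
      have e1 := hzero _ a3 g1
      have e2 := hzero _ a5 g2
      rw [e2] at k1 k2 k3 k5
      have hmpos : 0 < m := by rw [e1] at h; linarith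
      exact g3 ⟨by linarith, by linarith, by linarith⟩
    · rintro (h | h | ⟨h, h', h''⟩ | ⟨-, h⟩)
      · linarith
      · rcases k5 with e | e | e <;> rw [e] <;> linarith
      · rcases k5 with e | e | e <;> rw [e] <;> linarith
      · exact absurd rfl h

theorem isSub : IsTopSubdivision Gam sig :=
  isTopSubdivision_of_homeo gam_isCx sig_empty sig_mono Phi Phi_supp

end Pool.Agent.W296.QG
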