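import Mathlib
import Pool.Agent.H933R3.Defs

set_option autoImplicit false

/-!
# Locally constructible complexes and flat sections

Let `K` be locally constructible of dimension `d` and let `T` be a face with `d - 1` vertices whose
link is a cycle.  A local system on `K` minus `T` that has a flat section near `T` has a global
flat section.
-/

namespace Pool.Agent.W296.LCSec

open Finset Pool.Agent.H933R3

variable {V : Type} [DecidableEq V]

/-- a local system on the facets of `K` minus `T`, with a flat section near `T` -/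
structure LSys {α : Type} (K : Finset (Finset V)) (T : Finset V) (ψ : V → V → α → α)
    (col : V → α) : Prop where
  refl : ∀ F, IsFacet K F → ∀ x ∈ F, x ∉ T → ∀ a, ψ x x a = a
  comp : ∀ F, IsFacet K F → ∀ x ∈ F, x ∉ T → ∀ y ∈ F, y ∉ T → ∀ z ∈ F, z ∉ T → ∀ a,
    ψ y z (ψ x y a) = ψ x z a
  near : ∀ F, IsFacet K F → T ⊆ F → ∀ x ∈ F, x ∉ T → ∀ y ∈ F, y ∉ T → ψ x y (col x) = col y

/-- a consistent family of flat sections on the simplices of `𝓕` glued along `G` -/
structure Fam {α : Type} (𝓕 G : Finset (Finset V)) (T : Finset V) (ψ : V → V → α → α)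
    (g : Finset V → V → α) : Prop where
  flat : ∀ F ∈ 𝓕, ∀ x ∈ F, x ∉ T → ∀ y ∈ F, y ∉ T → g F y = ψ x y (g F x)
  glue : ∀ R ∈ G, ∀ X ∈ 𝓕, ∀ Y ∈ 𝓕, R ⊆ X → R ⊆ Y → ∀ x ∈ R, x ∉ T → g X x = g Y x

theorem fam_chain {α : Type} {𝓕 G : Finset (Finset V)} {T A F F' : Finset V}
    {ψ : V → V → α → α} {g : Finset V → V → α} (h : Fam 𝓕 G T ψ g) (hs : SameFace 𝓕 G A F F')
    {w : V} (hw : w ∈ A) (hwT : w ∉ T) : g F w = g F' w := by
  induction hs with
  | refl => rfl
  | tail _ h2 ih =>
    obtain ⟨h3, h4, R, h5, h6, h7, h8⟩ := h2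
    rw [ih]
    exact h.glue R h5 _ h3 _ h4 h7 h8 w (h6 hw) hwT

/-- the properties of the stages that we need -/
structure Stage (d : ℕ) (K 𝓕 G : Finset (Finset V)) : Prop where
  facet : ∀ F ∈ 𝓕, IsFacet K F
  card : ∀ R ∈ G, R.card = d
  closed : ∀ R ∈ G, ∀ X, IsFacet K X → R ⊆ X → X ∈ 𝓕

theorem stage_of {d : ℕ} {K 𝓕 G : Finset (Finset V)} (hK : AtMostTwo d K)
    (h : LCStage d K 𝓕 G) : Stage d K 𝓕 G := by
  induction h with
  | start F hF =>
    refine ⟨?_, by simp, by simp⟩
    intro F' hF'
    rw [mem_singleton] at hF'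
    rwa [hF']
  | attach 𝓕 G F F' R _ hF hF' hn hR h1 h2 hG ih =>
    refine ⟨?_, ?_, ?_⟩
    · intro X hX
      rcases mem_insert.1 hX with rfl | hX
      · exact hF'
      · exact ih.facet X hX
    · intro X hX
      rcases mem_insert.1 hX with rfl | hX
      · exact hR
      · exact ih.card X hX
    · intro R' hR' X hX hRX
      rcases mem_insert.1 hR' with rfl | hR'
      · rcases hK R' hR F F' X (ih.facet F hF) hF' hX h1 h2 hRX with h | h | h
        · exact absurd (h ▸ hF) hn
        · rw [← h]
          exact mem_insert_of_mem hF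
        · rw [← h]
          exact mem_insert_self _ _
      · exact mem_insert_of_mem (ih.closed R' hR' X hX hRX)
  | glue 𝓕 G F F' R A _ hF hF' hne hR h1 h2 hG hA hAR hs ih =>
    refine ⟨ih.facet, ?_, ?_⟩
    · intro X hX
      rcases mem_insert.1 hX with rfl | hX
      · exact hR
      · exact ih.card X hX
    · intro R' hR' X hX hRX
      rcases mem_insert.1 hR' with rfl | hR'
      · rcases hK R' hR F F' X (ih.facet F hF) (ih.facet F' hF') hX h1 h2 hRX with h | h | h
        · exact absurd h hne
        · rw [← h]; exact hF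
        · rw [← h]; exact hF'
      · exact ih.closed R' hR' X hX hRX

/-- the link of `T` is a cycle with vertices `x 0, …, x (m - 1)` -/
structure CycleLink (K : Finset (Finset V)) (T : Finset V) (m : ℕ) (x : ZMod m → V) : Prop where
  inj : Function.Injective x
  notin : ∀ i, x i ∉ T
  facet : ∀ i, IsFacet K (insert (x i) (insert (x (i + 1)) T))
  all : ∀ F, IsFacet K F → T ⊆ F → ∃ i, F = insert (x i) (insert (x (i + 1)) T)

section main

variable {α : Type} {d : ℕ} {K : Finset (Finset V)} {T : Finset V} {ψ : V → V → α → α}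
  {col : V → α} {m : ℕ} {x : ZMod m → V}

/-- a set of `d` vertices between `T` and a facet around `T` -/
theorem between (hc : CycleLink K T m x) (hT : T.card + 1 = d) (i : ZMod m) {R : Finset V}
    (hR : R.card = d) (hTR : T ⊆ R) (h : R ⊆ insert (x i) (insert (x (i + 1)) T)) :
    R = insert (x i) T ∨ R = insert (x (i + 1)) T := by
  have h1 : (R \ T).card = 1 := by
    have := card_sdiff_add_card_eq_card hTR
    omega
  obtain ⟨v, hv⟩ := card_eq_one.1 h1
  have hvR : v ∈ R \ T := by rw [hv]; simp
  have hRv : R = insert v T := by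
    rw [← sdiff_union_of_subset hTR, hv]
    rfl
  rw [mem_sdiff] at hvR
  have h2 := h hvR.1
  rw [mem_insert, mem_insert] at h2
  rcases h2 with h2 | h2 | h2
  · left; rw [hRv, h2]
  · right; rw [hRv, h2]
  · exact absurd h2 hvR.2

theorem mem_facet (hc : CycleLink K T m x) {i k : ZMod m}
    (h : x k ∈ insert (x i) (insert (x (i + 1)) T)) : k = i ∨ k = i + 1 := by
  rw [mem_insert, mem_insert] at h
  rcases h with h | h | h
  · exact Or.inl (hc.inj h)
  · exact Or.inr (hc.inj h)
  · exact absurd h (hc.notin k)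

/-- If the two copies of `R` in the facets on both sides share the face `T` although `R` is not
glued, then all other faces around `T` are glued. -/
theorem glued_around (hc : CycleLink K T m x) (hT : T.card + 1 = d) (hm : 2 < m)
    {𝓕 G : Finset (Finset V)} (hst : Stage d K 𝓕 G) {j : ZMod m}
    (hR : insert (x j) T ∉ G)
    (hs : SameFace 𝓕 G T (insert (x j) (insert (x (j + 1)) T))
      (insert (x (j - 1)) (insert (x (j - 1 + 1)) T))) :
    ∀ i, i ≠ j → insert (x i) T ∈ G := by
  have : NeZero m := ⟨by omega⟩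
  have h2 : (2 : ZMod m) ≠ 0 := by
    intro h
    have h3 : ((2 : ℕ) : ZMod m) = 0 := by exact_mod_cast h
    rw [ZMod.natCast_eq_zero_iff] at h3
    have := Nat.le_of_dvd (by norm_num) h3
    omega
  have h1 : (1 : ZMod m) ≠ 0 := by
    intro h
    apply h2
    have : (2 : ZMod m) = 1 + 1 := by norm_num
    rw [this, h, add_zero]
  have hXinj : ∀ i k : ZMod m, insert (x i) (insert (x (i + 1)) T) =
      insert (x k) (insert (x (k + 1)) T) → i = k := by
    intro i k h
    have e1 : x i ∈ insert (x k) (insert (x (k + 1)) T) := by rw [← h]; simp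
    have e2 : x (i + 1) ∈ insert (x k) (insert (x (k + 1)) T) := by rw [← h]; simp
    rcases mem_facet hc e1 with e1 | e1
    · exact e1
    · rcases mem_facet hc e2 with e2 | e2
      · exfalso
        apply h2
        have : (k + 1) + 1 = k := by rw [← e1]; exact e2
        have h5 : (2 : ZMod m) = ((k + 1) + 1) - k := by ring
        rw [h5, this, sub_self]
      · exact add_right_cancel e2
  -- the facets reached so far
  have key : ∀ Y, SameFace 𝓕 G T (insert (x j) (insert (x (j + 1)) T)) Y →
      ∃ n : ℕ, Y = insert (x (j + n)) (insert (x (j + n + 1)) T) ∧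
        ∀ l : ℕ, 1 ≤ l → l ≤ n → insert (x (j + l)) T ∈ G := by
    intro Y hY
    induction hY with
    | refl => exact ⟨0, by simp, fun l h1 h2 => by omega⟩
    | @tail Y0 Y' _ h5 ih =>
      obtain ⟨n, rfl, hn⟩ := ih
      obtain ⟨_, hY𝓕, R', hR'G, hTR', hR'X, hR'Y⟩ := h5
      obtain ⟨k, hk⟩ := hc.all Y' (hst.facet _ hY𝓕) (hTR'.trans hR'Y)
      rw [hk] at hR'Y
      rcases between hc hT _ (hst.card _ hR'G) hTR' hR'X with h6 | h6
      · -- going back
        have h7 : x (j + n) ∈ insert (x k) (insert (x (k + 1)) T) :=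
          hR'Y (by rw [h6]; exact mem_insert_self _ _)
        rcases mem_facet hc h7 with h8 | h8
        · refine ⟨n, ?_, hn⟩
          rw [hk, ← h8]
        · rcases Nat.eq_zero_or_pos n with h0 | h0
          · exfalso
            rw [h6] at hR'G
            rw [h0] at hR'G
            simp only [Nat.cast_zero, add_zero] at hR'G
            exact hR hR'G
          · refine ⟨n - 1, ?_, fun l hl1 hl2 => hn l hl1 (by omega)⟩
            have h9 : (((n - 1 : ℕ)) : ZMod m) = (n : ZMod m) - 1 := by
              rw [Nat.cast_sub h0, Nat.cast_one]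
            have h10 : k = j + ((n - 1 : ℕ) : ZMod m) := by
              rw [h9, ← add_sub_assoc, h8, add_sub_cancel_right]
            rw [hk, ← h10]
      · have h7 : x (j + n + 1) ∈ insert (x k) (insert (x (k + 1)) T) :=
          hR'Y (by rw [h6]; exact mem_insert_self _ _)
        rcases mem_facet hc h7 with h8 | h8
        · refine ⟨n + 1, ?_, ?_⟩
          · rw [hk, ← h8]
            push_cast
            rw [add_assoc j]
          · intro l hl1 hl2
            rcases Nat.lt_or_ge l (n + 1) with h9 | h9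
            · exact hn l hl1 (by omega)
            · have : l = n + 1 := by omega
              subst this
              rw [h6] at hR'G
              push_cast
              rw [← add_assoc]
              exact hR'G
        · refine ⟨n, ?_, hn⟩
          have : k = j + n := (add_right_cancel h8).symm
          rw [hk, this]
  obtain ⟨n, hn, hG⟩ := key _ hs
  have h3 := hXinj _ _ hn
  -- `n ≥ m - 1`
  have h4 : ((n + 1 : ℕ) : ZMod m) = 0 := by
    push_cast
    have : (n : ZMod m) = -1 := by
      have h5 : j - 1 = j + n := h3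
      have h6 : (n : ZMod m) = (j + n) - j := by ring
      rw [h6, ← h5]
      ring
    rw [this]
    ring
  rw [ZMod.natCast_eq_zero_iff] at h4
  have h5 : m ≤ n + 1 := Nat.le_of_dvd (by omega) h4
  intro i hi
  have h6 : ((i - j).val : ZMod m) = i - j := ZMod.natCast_zmod_val _
  have h7 : (i - j).val < m := ZMod.val_lt _
  have h8 : (i - j).val ≠ 0 := by
    intro h
    rw [ZMod.val_eq_zero, sub_eq_zero] at h
    exact hi h
  have h9 := hG (i - j).val (by omega) (by omega)
  rw [h6] at h9
  rwa [show j + (i - j) = i by ring] at h9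

theorem sameFace_symm {𝓕 G : Finset (Finset V)} {A F F' : Finset V}
    (h : SameFace 𝓕 G A F F') : SameFace 𝓕 G A F' F := by
  induction h with
  | refl => exact Relation.ReflTransGen.refl
  | tail _ h2 ih =>
    obtain ⟨h1, h2, R, h3, h4, h5, h6⟩ := h2
    exact Relation.ReflTransGen.head ⟨h2, h1, R, h3, h4, h6, h5⟩ ih

/-- extension of a family to a new simplex -/
theorem fam_attach (hL : LSys K T ψ col) (hT : T.card + 1 = d) {𝓕 G : Finset (Finset V)}
    (hK : AtMostTwo d K) (hst : Stage d K 𝓕 G) {F F' R : Finset V} (hF : F ∈ 𝓕)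
    (hF' : IsFacet K F') (hn : F' ∉ 𝓕) (hR : R.card = d) (h1 : R ⊆ F) (h2 : R ⊆ F')
    {g : Finset V → V → α} (hg : Fam 𝓕 G T ψ g) {z : V} (hz : z ∈ R) (hzT : z ∉ T) :
    Fam (insert F' 𝓕) (insert R G) T ψ
      (fun X y => if X = F' then ψ z y (g F z) else g X y) := by
  have hne : ∀ X ∈ 𝓕, X ≠ F' := fun X hX h => hn (h ▸ hX)
  refine ⟨?_, ?_⟩
  · intro X hX u hu huT v hv hvT
    rcases mem_insert.1 hX with rfl | hX
    · simp only [if_true]
      exact (hL.comp X hF' z (h2 hz) hzT u hu huT v hv hvT _).symm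
    · simp only [if_neg (hne X hX)]
      exact hg.flat X hX u hu huT v hv hvT
  · intro R' hR' X hX Y hY hRX hRY u hu huT
    have hFF : ∀ u ∈ R, u ∉ T → ψ z u (g F z) = g F u := fun u hu huT =>
      (hg.flat F hF z (h1 hz) hzT u (h1 hu) huT).symm
    rcases mem_insert.1 hR' with rfl | hR'
    · have hcase : ∀ X ∈ insert F' 𝓕, R' ⊆ X →
          (if X = F' then ψ z u (g F z) else g X u) = g F u := by
        intro X hX hRX
        by_cases hXF' : X = F'
        · rw [if_pos hXF']
          exact hFF u hu huT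
        · rw [if_neg hXF']
          have hX' : X ∈ 𝓕 := (mem_insert.1 hX).resolve_left hXF'
          rcases hK R' hR F F' X (hst.facet F hF) hF' (hst.facet X hX') h1 h2 hRX with h | h | h
          · exact absurd h (hne F hF)
          · rw [← h]
          · exact absurd h.symm hXF'
      show (if X = F' then ψ z u (g F z) else g X u) = (if Y = F' then ψ z u (g F z) else g Y u)
      rw [hcase X hX hRX, hcase Y hY hRY]
    · have hX' : X ∈ 𝓕 := by
        rcases mem_insert.1 hX with rfl | hX
        · exact hst.closed R' hR' X hF' hRX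
        · exact hX
      have hY' : Y ∈ 𝓕 := by
        rcases mem_insert.1 hY with rfl | hY
        · exact hst.closed R' hR' Y hF' hRY
        · exact hY
      simp only [if_neg (hne X hX'), if_neg (hne Y hY')]
      exact hg.glue R' hR' X hX' Y hY' hRX hRY u hu huT

/-- gluing when the values agree -/
theorem fam_glue {𝓕 G : Finset (Finset V)} (hK : AtMostTwo d K) (hst : Stage d K 𝓕 G)
    {F F' R : Finset V} (hF : F ∈ 𝓕) (hF' : F' ∈ 𝓕) (hne : F ≠ F') (hR : R.card = d)
    (h1 : R ⊆ F) (h2 : R ⊆ F') {g : Finset V → V → α} (hg : Fam 𝓕 G T ψ g) {w : V}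
    (hw : w ∈ R) (hwT : w ∉ T) (hval : g F w = g F' w) : Fam 𝓕 (insert R G) T ψ g := by
  have hFF : ∀ u ∈ R, u ∉ T → g F u = g F' u := by
    intro u hu huT
    rw [hg.flat F hF w (h1 hw) hwT u (h1 hu) huT, hg.flat F' hF' w (h2 hw) hwT u (h2 hu) huT, hval]
  refine ⟨hg.flat, ?_⟩
  intro R' hR' X hX Y hY hRX hRY u hu huT
  rcases mem_insert.1 hR' with rfl | hR'
  · have hcase : ∀ X ∈ 𝓕, R' ⊆ X → g X u = g F u := by
      intro X hX hRX
      rcases hK R' hR F F' X (hst.facet F hF) (hst.facet F' hF') (hst.facet X hX) h1 h2 hRX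
        with h | h | h
      · exact absurd h hne
      · rw [← h]
      · rw [← h]
        exact (hFF u hu huT).symm
    rw [hcase X hX hRX, hcase Y hY hRY]
  · exact hg.glue R' hR' X hX Y hY hRX hRY u hu huT

theorem exists_notin {A B : Finset V} (h : A.card ≤ B.card) (hne : B ≠ A) :
    ∃ z ∈ B, z ∉ A := by
  by_contra hcon
  push Not at hcon
  exact hne (eq_of_subset_of_card_le hcon h)

/-- the main induction -/
theorem lc_invariant (hK : AtMostTwo d K) (hpure : ∀ F, IsFacet K F → F.card = d + 1)
    (hL : LSys K T ψ col) (hc : CycleLink K T m x) (hT : T.card + 1 = d) (hm : 2 < m)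
    {𝓕 G : Finset (Finset V)} (h : LCStage d K 𝓕 G) :
    (∀ F0 ∈ 𝓕, ∀ x0 ∈ F0, x0 ∉ T → ∀ a : α, ∃ g, Fam 𝓕 G T ψ g ∧ g F0 x0 = a) ∨
    ((∀ i, insert (x i) T ∈ G) ∧ ∃ g, Fam 𝓕 G T ψ g) := by
  induction h with
  | start F hF =>
    left
    intro F0 hF0 x0 hx0 hx0T a
    rw [mem_singleton] at hF0
    subst hF0
    refine ⟨fun _ y => ψ x0 y a, ⟨?_, by simp⟩, hL.refl _ hF x0 hx0 hx0T a⟩
    intro X hX u hu huT v hv hvT
    rw [mem_singleton] at hX
    subst hX
    exact (hL.comp X hF x0 hx0 hx0T u hu huT v hv hvT a).symm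
  | attach 𝓕 G F F' R hst' hF hF' hn hR h1 h2 hG ih =>
    have hst := stage_of hK hst'
    obtain ⟨z, hz, hzT⟩ : ∃ z ∈ R, z ∉ T :=
      exists_notin (by omega) (fun h => by rw [h] at hR; omega)
    rcases ih with ih | ⟨ih1, g, hg⟩
    · left
      intro F0 hF0 x0 hx0 hx0T a
      by_cases h0 : F0 = F'
      · subst h0
        obtain ⟨g, hg, hga⟩ := ih F hF z (h1 hz) hzT (ψ x0 z a)
        refine ⟨_, fam_attach hL hT hK hst hF hF' hn hR h1 h2 hg hz hzT, ?_⟩
        simp only [if_true]
        rw [hga, hL.comp F0 hF' x0 hx0 hx0T z (h2 hz) hzT x0 hx0 hx0T, hL.refl F0 hF' x0 hx0 hx0T]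
      · have hF0' : F0 ∈ 𝓕 := (mem_insert.1 hF0).resolve_left h0
        obtain ⟨g, hg, hga⟩ := ih F0 hF0' x0 hx0 hx0T a
        refine ⟨_, fam_attach hL hT hK hst hF hF' hn hR h1 h2 hg hz hzT, ?_⟩
        simp only [if_neg h0]
        exact hga
    · right
      exact ⟨fun i => mem_insert_of_mem (ih1 i), _,
        fam_attach hL hT hK hst hF hF' hn hR h1 h2 hg hz hzT⟩
  | glue 𝓕 G F F' R A hst' hF hF' hne hR h1 h2 hG hA hAR hs ih =>
    have hst := stage_of hK hst'
    by_cases hAT : A = T
    · subst hAT
      rcases ih with ih | ⟨ih1, g, hg⟩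
      · right
        obtain ⟨i, hi⟩ := hc.all F (hst.facet F hF) (hAR.trans h1)
        obtain ⟨k, hk⟩ := hc.all F' (hst.facet F' hF') (hAR.trans h2)
        have hik : i ≠ k := by
          rintro rfl
          exact hne (by rw [hi, hk])
        -- the common face
        have hcommon : (R = insert (x i) A ∧ k + 1 = i) ∨ (R = insert (x k) A ∧ i + 1 = k) := by
          rcases between hc hT i hR hAR (by rw [← hi]; exact h1) with e | e
          · left
            refine ⟨e, ?_⟩
            have : x i ∈ insert (x k) (insert (x (k + 1)) A) := by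
              rw [← hk]; apply h2; rw [e]; exact mem_insert_self _ _
            rcases mem_facet hc this with h | h
            · exact absurd h hik
            · exact h.symm
          · right
            have : x (i + 1) ∈ insert (x k) (insert (x (k + 1)) A) := by
              rw [← hk]; apply h2; rw [e]; exact mem_insert_self _ _
            rcases mem_facet hc this with h | h
            · exact ⟨by rw [e, h], h⟩
            · exact absurd (add_right_cancel h) hik
        have hall : ∀ l, insert (x l) A ∈ insert R G := by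
          intro l
          rcases hcommon with ⟨e, hki⟩ | ⟨e, hki⟩
          · by_cases hl : l = i
            · rw [hl, ← e]; exact mem_insert_self _ _
            · refine mem_insert_of_mem (glued_around hc hT hm hst (j := i) ?_ ?_ l hl)
              · rw [← e]; exact hG
              · have h3 : i - 1 = k := by rw [← hki, add_sub_cancel_right]
                rw [h3, ← hi, ← hk]
                exact hs
          · by_cases hl : l = k
            · rw [hl, ← e]; exact mem_insert_self _ _
            · refine mem_insert_of_mem (glued_around hc hT hm hst (j := k) ?_ ?_ l hl)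
              · rw [← e]; exact hG
              · have h3 : k - 1 = i := by rw [← hki, add_sub_cancel_right]
                rw [h3, ← hi, ← hk]
                exact sameFace_symm hs
        refine ⟨hall, ?_⟩
        -- the section near `A`
        obtain ⟨w, hw, hwA⟩ : ∃ w ∈ R, w ∉ A :=
          exists_notin (by omega) (fun h => by rw [h] at hR; omega)
        obtain ⟨g, hg, hga⟩ := ih F hF w (h1 hw) hwA (col w)
        refine ⟨g, fam_glue hK hst hF hF' hne hR h1 h2 hg hw hwA ?_⟩
        -- the chain around `A`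
        have key : ∀ Y, SameFace 𝓕 G A F Y → Y ∈ 𝓕 ∧ A ⊆ Y ∧ ∀ u ∈ Y, u ∉ A → g Y u = col u := by
          intro Y hY
          induction hY with
          | refl =>
            refine ⟨hF, hAR.trans h1, ?_⟩
            intro u hu huA
            rw [hg.flat F hF w (h1 hw) hwA u hu huA, hga]
            exact hL.near F (hst.facet F hF) (hAR.trans h1) w (h1 hw) hwA u hu huA
          | tail _ h5 ih5 =>
            obtain ⟨h6, h7, R', h8, h9, h10, h11⟩ := h5
            refine ⟨h7, h9.trans h11, ?_⟩
            obtain ⟨v, hv, hvA⟩ : ∃ v ∈ R', v ∉ A :=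
              exists_notin (by have := hst.card R' h8; omega)
                (fun h => by have := hst.card R' h8; rw [h] at this; omega)
            intro u hu huA
            rw [hg.flat _ h7 v (h11 hv) hvA u hu huA, ← hg.glue R' h8 _ h6 _ h7 h10 h11 v hv hvA,
              ih5.2.2 v (h10 hv) hvA]
            exact hL.near _ (hst.facet _ h7) (h9.trans h11) v (h11 hv) hvA u hu huA
        rw [hga, (key F' hs).2.2 w (h2 hw) hwA]
      · exfalso
        obtain ⟨i, hi⟩ := hc.all F (hst.facet F hF) (hAR.trans h1)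
        rcases between hc hT i hR hAR (by rw [← hi]; exact h1) with e | e
        · exact hG (e ▸ ih1 i)
        · exact hG (e ▸ ih1 (i + 1))
    · -- the face `A` is not contained in `T`
      obtain ⟨w, hw, hwT⟩ : ∃ w ∈ A, w ∉ T := exists_notin (by omega) hAT
      rcases ih with ih | ⟨ih1, g, hg⟩
      · left
        intro F0 hF0 x0 hx0 hx0T a
        obtain ⟨g, hg, hga⟩ := ih F0 hF0 x0 hx0 hx0T a
        exact ⟨g, fam_glue hK hst hF hF' hne hR h1 h2 hg (hAR hw) hwT (fam_chain hg hs hw hwT),
          hga⟩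
      · right
        exact ⟨fun i => mem_insert_of_mem (ih1 i), g,
          fam_glue hK hst hF hF' hne hR h1 h2 hg (hAR hw) hwT (fam_chain hg hs hw hwT)⟩

/-- a locally constructible complex has global flat sections -/
theorem lc_section [Nonempty α] (hKc : IsCx K) (hLC : IsLC d K) (hL : LSys K T ψ col) (hc : CycleLink K T m x)
    (hT : T.card + 1 = d) (hm : 2 < m) :
    ∃ g : V → α, ∀ F, IsFacet K F → ∀ u ∈ F, u ∉ T → ∀ v ∈ F, v ∉ T → g v = ψ u v (g u) := by
  classical
  obtain ⟨hpure, hK, 𝓕, G, hst, hall, hsame⟩ := hLC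
  have hstage := stage_of hK hst
  obtain ⟨g, hg⟩ : ∃ g, Fam 𝓕 G T ψ g := by
    rcases lc_invariant hK hpure hL hc hT hm hst with h | ⟨_, h⟩
    · have hF0 := hall _ (hc.facet 0)
      obtain ⟨g, hg, -⟩ := h _ hF0 (x 0) (mem_insert_self _ _) (hc.notin 0)
        (Classical.arbitrary α)
      exact ⟨g, hg⟩
    · exact h
  -- the values at the vertices
  let f : V → α := fun v => if h : ∃ F ∈ 𝓕, v ∈ F then g h.choose v else Classical.arbitrary α
  have hf : ∀ F ∈ 𝓕, ∀ v ∈ F, v ∉ T → f v = g F v := by
    intro F hF v hv hvT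
    have h : ∃ F ∈ 𝓕, v ∈ F := ⟨F, hF, hv⟩
    show (if h : ∃ F ∈ 𝓕, v ∈ F then g h.choose v else Classical.arbitrary α) = g F v
    rw [dif_pos h]
    refine fam_chain hg (A := {v}) ?_ (mem_singleton_self v) hvT
    exact hsame {v} (hKc.2 F (hstage.facet F hF).1 {v} (singleton_subset_iff.2 hv)) _
      h.choose_spec.1 F hF (by simpa using h.choose_spec.2) (by simpa using hv)
  refine ⟨f, ?_⟩
  intro F hF u hu huT v hv hvT
  have hF𝓕 := hall F hF
  rw [hf F hF𝓕 u hu huT, hf F hF𝓕 v hv hvT]
  exact hg.flat F hF𝓕 u hu huT v hv hvT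

end main

end Pool.Agent.W296.LCSec
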