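import Mathlib
import Pool.Agent.H933R3.Susp
import Pool.Agent.W296.LCSec

set_option autoImplicit false

/-!
# A cone over a 3-ball with a knotted spanning edge: a non-evasive 4-ball that is not LC

The base is the deletion of the vertex `10` from the 13-vertex sphere of
`Pool.Agent.Helper175.NS`; `10` is used again as the apex of the cone.
-/

namespace Pool.Agent.W296.NLC

open Finset Pool.Agent.H933R3 Pool.Agent.Helper175.NS Pool.Agent.W296.LCSec

/-- the masks of the facets of the cone -/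
def Kl : List ℕ := [1047, 1099, 1555, 1603, 3085, 5141, 7173, 1353, 3337, 5169, 3233, 7201, 3457, 1302, 5194, 3346,
  3602, 3266, 5314, 3650, 3458, 3116, 5396, 5412, 7204, 3224, 5272, 3352, 5400, 3240, 5448, 5232,
  3280, 5328, 5472, 1039]

/-- stellar exchanges that lead to a simplex -/
def mvs : List (ℕ × ℕ) := [(6144, 37), (40, 132), (2080, 133), (4097, 52), (192, 6144), (4128, 68), (6144, 192), (72,
  4097), (264, 6144), (24, 6272), (2052, 137), (2056, 4225), (144, 6208), (4112, 2052), (4100,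
  2368), (8, 4100), (132, 4128), (2052, 336), (68, 304), (4, 34), (4352, 2113), (6144, 193),
  (4160, 131), (192, 2051), (4096, 162), (2049, 192), (2176, 322), (2050, 768), (2048, 592), (192,
  259), (16, 544), (257, 192), (33, 640), (66, 257), (288, 66), (3, 896), (768, 3), (514, 33),
  (257, 194), (32, 514), (1, 704), (128, 768)]

/-- removal of repetitions -/
def nub (l : List ℕ) : List ℕ := l.foldr (fun a acc => if acc.contains a then acc else a :: acc) []

/-- stellar exchange -/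
def exchB (l : List ℕ) (ρ ρ' : ℕ) : List ℕ :=
  nub (l.flatMap fun m => if m &&& ρ = ρ then (bits ρ).map (fun z => (m ^^^ 2 ^ z) ||| ρ') else [m])

/-- one step of the chain -/
def okB (l l' : List ℕ) (ρ ρ' : ℕ) : Bool :=
  sameB (starB l ρ 13) (starB l' ρ' 13) && l'.all (fun m => decide (m < 8192)) &&
    decide (ρ < 8192) && decide (ρ' < 8192) && !(bits ρ).isEmpty && !(bits ρ').isEmpty

/-- the chain -/
def chainC : List ℕ → List (ℕ × ℕ) → List ℕ → Bool
  | l, [], t => sameB l t
  | l, r :: ms, t => okB l (exchB l r.1 r.2) r.1 r.2 && chainC (exchB l r.1 r.2) ms t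

theorem not_mem13 {l : List ℕ} (hl : ∀ m ∈ l, m < 8192) : ∀ β ∈ decL l, 13 ∉ β := by
  intro β hβ hmem
  obtain ⟨m, hm, rfl⟩ := mem_decL.1 hβ
  have := dec_lt (hl m hm) 13 hmem
  omega

theorem nonempty_of_bits {ρ : ℕ} (h : (bits ρ).isEmpty = false) : (dec ρ).Nonempty := by
  cases hb : bits ρ with
  | nil => rw [hb] at h; simp at h
  | cons a t => exact ⟨a, mem_bits.1 (by rw [hb]; simp)⟩

theorem chainC_homeo (ms : List (ℕ × ℕ)) : ∀ l t : List ℕ, (∀ m ∈ l, m < 8192) →
    chainC l ms t = true → Nonempty (Sp (decL l) ≃ₜ Sp (decL t)) := by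
  induction ms with
  | nil =>
    intro l t _ h
    rw [chainC] at h
    rw [decL_of_sameB h]
    exact ⟨Homeomorph.refl _⟩
  | cons r ms ih =>
    intro l t hl h
    rw [chainC, Bool.and_eq_true] at h
    obtain ⟨h1, h2⟩ := h
    simp only [okB, Bool.and_eq_true, decide_eq_true_eq, List.all_eq_true,
      Bool.not_eq_true'] at h1
    obtain ⟨⟨⟨⟨⟨h3, h4⟩, h5⟩, h6⟩, h7⟩, h8⟩ := h1
    obtain ⟨e1⟩ := ih (exchB l r.1 r.2) t h4 h2
    have hv : ∀ ρ, ρ < 8192 → 13 ∉ dec ρ := by
      intro ρ hρ hmem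
      have := dec_lt hρ 13 hmem
      omega
    obtain ⟨e2⟩ := star_homeo (decL l) (dec r.1) 13 (nonempty_of_bits h7) (not_mem13 hl)
      (hv _ h5)
    obtain ⟨e3⟩ := star_homeo (decL (exchB l r.1 r.2)) (dec r.2) 13 (nonempty_of_bits h8)
      (not_mem13 h4) (hv _ h6)
    have heq : star (decL l) (dec r.1) 13 = star (decL (exchB l r.1 r.2)) (dec r.2) 13 := by
      rw [← decL_starB l r.1 h5, ← decL_starB _ r.2 h6]
      exact decL_of_sameB h3
    rw [heq] at e2
    exact ⟨(e2.symm.trans e3).trans e1⟩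

theorem chain_ok : chainC Kl mvs [1858] = true := by decide +kernel

/-! ### The realization -/

section real

variable {l : List ℕ}

/-- the set of facets -/
def Gs (l : List ℕ) : Finset (Finset (Fin 13)) := (l.map (decF 13)).toFinset

theorem mem_Gs {F : Finset (Fin 13)} : F ∈ Gs l ↔ ∃ m ∈ l, decF 13 m = F := by
  rw [Gs, List.mem_toFinset, List.mem_map]

theorem image_val {m : ℕ} (hm : m < 8192) : (decF 13 m).image Fin.val = dec m := by
  ext k
  rw [mem_image]
  constructor
  · rintro ⟨i, hi, rfl⟩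
    rw [mem_decF] at hi
    rw [mem_dec]
    exact ⟨by have := i.2; omega, hi⟩
  · intro hk
    have h2 := dec_lt hm _ hk
    refine ⟨⟨k, h2⟩, ?_, rfl⟩
    rw [mem_decF]
    rw [mem_dec] at hk
    exact hk.2

theorem Gs_image (hl : ∀ m ∈ l, m < 8192) : (Gs l).image (fun F => F.image Fin.val) = decL l := by
  ext A
  rw [mem_image, mem_decL]
  constructor
  · rintro ⟨F, hF, rfl⟩
    obtain ⟨m, hm, rfl⟩ := mem_Gs.1 hF
    exact ⟨m, hm, (image_val (hl m hm)).symm⟩
  · rintro ⟨m, hm, rfl⟩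
    exact ⟨decF 13 m, mem_Gs.2 ⟨m, hm, rfl⟩, image_val (hl m hm)⟩

theorem realization_eq : realization (cx 13 l) = Sp (Gs l) := by
  ext x
  constructor
  · rintro ⟨h0, h1, σ, hσ, h2⟩
    obtain ⟨m, hm, h3⟩ := mem_cx.1 hσ
    refine ⟨h0, decF 13 m, mem_Gs.2 ⟨m, hm, rfl⟩, fun i hi => h2 i (fun h => hi (h3 h)), ?_⟩
    rw [← h1]
    exact sum_subset (subset_univ _) (fun i _ hi => h2 i (fun h => hi (h3 h)))
  · rintro ⟨h0, F, hF, h1, h2⟩
    obtain ⟨m, hm, rfl⟩ := mem_Gs.1 hF
    refine ⟨h0, ?_, decF 13 m, mem_cx.2 ⟨m, hm, Subset.refl _⟩, h1⟩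
    rw [← h2]
    exact (sum_subset (subset_univ _) (fun i _ hi => h1 i hi)).symm

theorem real_homeo (hl : ∀ m ∈ l, m < 8192) :
    Nonempty (realization (cx 13 l) ≃ₜ Sp (decL l)) := by
  obtain ⟨e1⟩ := relabel_homeo (Gs l) (Fin.val : Fin 13 → ℕ) univ (fun F _ => subset_univ F)
    (Fin.val_injective.injOn)
  rw [Gs_image hl] at e1
  rw [realization_eq]
  exact ⟨e1.symm⟩

end real

theorem small_Kl : ∀ m ∈ Kl, m < 8192 := by decide +kernel

/-- the cone is a 4-ball -/
theorem isBall_K : IsBall 4 (cx 13 Kl) := by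
  obtain ⟨e1⟩ := real_homeo small_Kl
  obtain ⟨e2⟩ := chainC_homeo mvs Kl [1858] small_Kl chain_ok
  have h1 : decL [1858] = {dec 1858} := rfl
  rw [h1] at e2
  obtain ⟨e3⟩ := simplex_ball (dec 1858) 4 (by decide)
  exact ⟨(e1.trans e2).trans e3⟩

/-! ### Cones are non-evasive -/

theorem nonEvasive_cone {V : Type} [DecidableEq V] {c : V} (n : ℕ) :
    ∀ L : Finset (Finset V), L.card ≤ n → IsCx L → (∀ σ ∈ L, c ∉ σ) →
      ∀ M : Finset (Finset V), (∀ σ, σ ∈ M ↔ σ.erase c ∈ L) → NonEvasive M := by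
  induction n with
  | zero =>
    intro L hLn hL _ M _
    have := card_pos.2 ⟨∅, hL.1⟩
    omega
  | succ n ih =>
    intro L hLn hL hc M hM
    have hMcx : IsCx M := by
      constructor
      · rw [hM]
        simpa using hL.1
      · intro σ hσ τ hτ
        rw [hM] at hσ ⊢
        exact hL.2 _ hσ _ (erase_subset_erase _ hτ)
    by_cases h0 : ∃ v, {v} ∈ L
    · obtain ⟨v, hv⟩ := h0
      have hvc : v ≠ c := by
        rintro rfl
        exact hc _ hv (mem_singleton_self _)
      have hvM : {v} ∈ M := by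
        rw [hM, erase_eq_of_notMem (by simpa using hvc.symm)]
        exact hv
      have hdl : ∀ τ : Finset V, v ∈ τ.erase c ↔ v ∈ τ := by
        intro τ
        rw [mem_erase]
        exact ⟨fun h => h.2, fun h => ⟨hvc, h⟩⟩
      refine NonEvasive.step M v hvM ?_ ?_
      · refine ih (del L v) ?_ (hL.del v) (fun σ hσ => hc σ (mem_del.1 hσ).1) _ ?_
        · have : (del L v).card < L.card := by
            refine card_lt_card ⟨filter_subset _ _, fun h => ?_⟩
            exact (mem_del.1 (h hv)).2 (mem_singleton_self _)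
          omega
        · intro σ
          rw [mem_del, mem_del, hM, hdl]
      · refine ih (link L v) ?_ (hL.link hv) ?_ _ ?_
        · have : (link L v).card < L.card := by
            refine card_lt_card ⟨filter_subset _ _, fun h => ?_⟩
            exact ((mem_link hL).1 (h hv)).1 (mem_singleton_self _)
          omega
        · intro σ hσ
          exact hc σ (mem_filter.1 hσ).1
        · intro σ
          rw [mem_link hMcx, mem_link hL, hM, hdl, erase_insert_of_ne hvc]
    · have hL0 : ∀ σ, σ ∈ L ↔ σ = ∅ := by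
        intro σ
        constructor
        · intro hσ
          by_contra hne
          obtain ⟨v, hv⟩ := nonempty_iff_ne_empty.2 hne
          exact h0 ⟨v, hL.2 _ hσ _ (singleton_subset_iff.2 hv)⟩
        · rintro rfl
          exact hL.1
      have : M = {∅, {c}} := by
        ext σ
        rw [hM, hL0, mem_insert, mem_singleton]
        constructor
        · intro h
          by_cases hcσ : c ∈ σ
          · right
            rw [← insert_erase hcσ, h]
            rfl
          · left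
            rwa [erase_eq_of_notMem hcσ] at h
        · rintro (rfl | rfl)
          · simp
          · simp
      rw [this]
      exact NonEvasive.point c

theorem apex_mem : ∀ m ∈ Kl, (10 : Fin 13) ∈ decF 13 m := by decide +kernel

theorem nonEvasive_K : NonEvasive (cx 13 Kl) := by
  have hcx : IsCx (cx 13 Kl) := isCx_cx (by decide)
  refine nonEvasive_cone (c := (10 : Fin 13)) _ (del (cx 13 Kl) 10) le_rfl (hcx.del 10)
    (fun σ hσ => (mem_del.1 hσ).2) _ ?_
  intro σ
  rw [mem_del]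
  constructor
  · intro hσ
    exact ⟨hcx.2 _ hσ _ (erase_subset _ _), by simp⟩
  · rintro ⟨h1, -⟩
    obtain ⟨m, hm, h2⟩ := mem_cx.1 h1
    refine mem_cx.2 ⟨m, hm, ?_⟩
    intro x hx
    by_cases hx10 : x = 10
    · rw [hx10]
      exact apex_mem m hm
    · exact h2 (mem_erase.2 ⟨hx10, hx⟩)

/-! ### The cone is not locally constructible -/

theorem card_Kl : ∀ m ∈ Kl, (decF 13 m).card = 5 := by decide +kernel

theorem facet_iff {F : Finset (Fin 13)} : IsFacet (cx 13 Kl) F ↔ ∃ m ∈ Kl, decF 13 m = F := by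
  constructor
  · rintro ⟨h1, h2⟩
    obtain ⟨m, hm, h3⟩ := mem_cx.1 h1
    exact ⟨m, hm, h2 _ (mem_cx.2 ⟨m, hm, Subset.refl _⟩) h3⟩
  · rintro ⟨m, hm, rfl⟩
    refine ⟨mem_cx.2 ⟨m, hm, Subset.refl _⟩, ?_⟩
    intro G hG hmG
    obtain ⟨m', hm', h3⟩ := mem_cx.1 hG
    refine Subset.antisymm ?_ hmG
    have h4 : decF 13 m = decF 13 m' :=
      eq_of_subset_of_card_le (hmG.trans h3) (by rw [card_Kl m hm, card_Kl m' hm'])
    rw [h4]
    exact h3

/-- apex and the two ends of the knotted edge -/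
def T3 : Finset (Fin 13) := {10, 11, 12}

theorem lsys_refl : ∀ m ∈ Kl, ∀ x ∈ decF 13 m, x ∉ T3 → ∀ a : Fin 3, psi x x a = a := by
  decide +kernel

theorem lsys_comp : ∀ m ∈ Kl, ∀ x ∈ decF 13 m, x ∉ T3 → ∀ y ∈ decF 13 m, y ∉ T3 →
    ∀ z ∈ decF 13 m, z ∉ T3 → ∀ a : Fin 3, psi y z (psi x y a) = psi x z a := by
  decide +kernel

theorem lsys_near : ∀ m ∈ Kl, T3 ⊆ decF 13 m → ∀ x ∈ decF 13 m, x ∉ T3 →
    ∀ y ∈ decF 13 m, y ∉ T3 → psi x y (col 11 x) = col 11 y := by
  decide +kernel

theorem lsys : LSys (cx 13 Kl) T3 (fun u v => psi (u : ℕ) (v : ℕ)) (fun u => col 11 (u : ℕ)) := by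
  refine ⟨?_, ?_, ?_⟩
  · intro F hF
    obtain ⟨m, hm, rfl⟩ := facet_iff.1 hF
    exact lsys_refl m hm
  · intro F hF
    obtain ⟨m, hm, rfl⟩ := facet_iff.1 hF
    exact lsys_comp m hm
  · intro F hF
    obtain ⟨m, hm, rfl⟩ := facet_iff.1 hF
    exact lsys_near m hm

/-- the link of the knotted edge -/
def xc : ZMod 3 → Fin 13 := ![0, 2, 5]

theorem cyc_all : ∀ m ∈ Kl, T3 ⊆ decF 13 m →
    ∃ i : ZMod 3, decF 13 m = insert (xc i) (insert (xc (i + 1)) T3) := by
  decide +kernel

theorem cyc_facet : ∀ i : ZMod 3, ∃ m ∈ Kl, decF 13 m = insert (xc i) (insert (xc (i + 1)) T3) := by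
  decide +kernel

theorem cyc : CycleLink (cx 13 Kl) T3 3 xc := by
  refine ⟨by decide, by decide, ?_, ?_⟩
  · intro i
    exact facet_iff.2 (cyc_facet i)
  · intro F hF hT
    obtain ⟨m, hm, rfl⟩ := facet_iff.1 hF
    exact cyc_all m hm hT

theorem not_LC : ¬ IsLC 4 (cx 13 Kl) := by
  intro h
  obtain ⟨g, hg⟩ := lc_section (α := Fin 3) (isCx_cx (by decide)) h lsys cyc (by decide)
    (by norm_num)
  have key : ∀ m ∈ Kl, ∀ u ∈ decF 13 m, ∀ v ∈ decF 13 m, u ∉ T3 → v ∉ T3 →
      g v = psi u v (g u) := fun m hm u hu v hv huT hvT =>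
    hg _ (facet_iff.2 ⟨m, hm, rfl⟩) u hu huT v hv hvT
  have h1 := key 1047 (by decide) 0 (by decide) 4 (by decide) (by decide) (by decide)
  have h2 := key 1353 (by decide) 0 (by decide) 8 (by decide) (by decide) (by decide)
  have h3 := key 1302 (by decide) 4 (by decide) 8 (by decide) (by decide) (by decide)
  generalize g 0 = a0 at *
  generalize g 4 = a4 at *
  generalize g 8 = a8 at *
  clear key hg h
  revert a0 a4 a8
  decide

end Pool.Agent.W296.NLC
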