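import Pool.Agent.W296.HL5

/-!
# `k`-edges and convex layers
-/

set_option autoImplicit false

namespace Pool.Agent.W296.HL

open Finset

open scoped Classical

/-- the ordered pair `(p, q)` is a `k`-edge: `k` points to the left of the line from `p` to `q` -/
def Ed (P : Finset (ℝ × ℝ)) (k : ℕ) (p q : ℝ × ℝ) : Prop :=
  p ≠ q ∧ #{x ∈ P | 0 < cr p q x} = k

/-- the `k`-edges -/
noncomputable def DD (P : Finset (ℝ × ℝ)) (k : ℕ) : Finset ((ℝ × ℝ) × (ℝ × ℝ)) :=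
  {z ∈ P ×ˢ P | Ed P k z.1 z.2}

lemma mem_DD {P : Finset (ℝ × ℝ)} {k : ℕ} {z : (ℝ × ℝ) × (ℝ × ℝ)} :
    z ∈ DD P k ↔ z.1 ∈ P ∧ z.2 ∈ P ∧ Ed P k z.1 z.2 := by
  unfold DD
  rw [mem_filter, mem_product, and_assoc]

lemma neg_card (P : Finset (ℝ × ℝ)) (p q : ℝ × ℝ) :
    #{x ∈ P | cr p q x < 0} = #{x ∈ P | 0 < cr q p x} := by
  congr 1; ext x; simp [cr_swap p q x]

section point

variable {P : Finset (ℝ × ℝ)} {p : ℝ × ℝ} {α β : ℝ}

lemma alt_h (hP : Gen P) (hp : p ∈ P) (hN : 0 < α ^ 2 + β ^ 2) (h : ℕ) :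
    #{x ∈ P | 0 < ph α β p x ∧ G P α β p (sl α β p x) = h} ≤
      #{x ∈ P | ph α β p x < 0 ∧ G P α β p (sl α β p x) = h} + 1 := by
  set L : Finset (ℝ × ℝ) := {x ∈ P | ph α β p x ≠ 0} with hL
  set t : ℤ := (h : ℤ) - #{x ∈ P | 0 < ph α β p x} -
    #{x ∈ P | ph α β p x = 0 ∧ 0 < ps α β p x} with ht
  have h0 := walk_card (sl α β p) (Bk α β p) t L (sl_inj hP hp hN)
  have h1 : ({x ∈ P | 0 < ph α β p x ∧ G P α β p (sl α β p x) = h} : Finset (ℝ × ℝ)) ⊆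
      {x ∈ L | ¬ Bk α β p x ∧ wlk (sl α β p) (Bk α β p) L x = t + 1} := by
    intro x hx
    rw [mem_filter] at hx
    obtain ⟨hx1, hx2, hx3⟩ := hx
    have hne : ph α β p x ≠ 0 := hx2.ne'
    rw [mem_filter, hL, mem_filter]
    refine ⟨⟨hx1, hne⟩, not_lt.mpr hx2.le, ?_⟩
    have h3 := G_eq hP hp hN hx1 hne
    rw [if_pos hx2, hx3] at h3
    rw [← hL] at h3 ⊢
    linarith
  have h2 : ({x ∈ L | Bk α β p x ∧ wlk (sl α β p) (Bk α β p) L x = t} : Finset (ℝ × ℝ)) ⊆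
      {x ∈ P | ph α β p x < 0 ∧ G P α β p (sl α β p x) = h} := by
    intro x hx
    rw [mem_filter, hL, mem_filter] at hx
    obtain ⟨⟨hx1, hne⟩, hx2, hx3⟩ := hx
    rw [mem_filter]
    refine ⟨hx1, hx2, ?_⟩
    have h3 := G_eq hP hp hN hx1 hne
    rw [if_neg (not_lt.mpr (le_of_lt hx2))] at h3
    have : (G P α β p (sl α β p x) : ℤ) = (h : ℤ) := by
      rw [h3, hx3]; linarith
    exact_mod_cast this
  exact (card_le_card h1).trans (h0.trans (Nat.add_le_add_right (card_le_card h2) 1))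

lemma G_pos (hN : 0 < α ^ 2 + β ^ 2) {q : ℝ × ℝ} (hq : 0 < ph α β p q) :
    G P α β p (sl α β p q) = #{x ∈ P | 0 < cr p q x} := by
  unfold G; congr 1; ext x
  simp only [mem_filter, (cr_pos_iff hN hq.ne' x).1 hq]

lemma G_neg (hN : 0 < α ^ 2 + β ^ 2) {q : ℝ × ℝ} (hq : ph α β p q < 0) :
    G P α β p (sl α β p q) = #{x ∈ P | 0 < cr q p x} := by
  rw [← neg_card]
  unfold G; congr 1; ext x
  simp only [mem_filter, (cr_pos_iff hN hq.ne x).2 hq]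

lemma ph_ne {q : ℝ × ℝ} (hq : ph α β p q ≠ 0) : p ≠ q := by
  rintro rfl; apply hq; unfold ph; ring

/-- the alternation for `k`-edges -/
lemma alternate_k (hP : Gen P) (hp : p ∈ P) (hN : 0 < α ^ 2 + β ^ 2) (k : ℕ) :
    #{x ∈ P | 0 < ph α β p x ∧ Ed P k p x} ≤ #{x ∈ P | ph α β p x < 0 ∧ Ed P k x p} + 1 ∧
    #{x ∈ P | 0 < ph α β p x ∧ Ed P k x p} ≤ #{x ∈ P | ph α β p x < 0 ∧ Ed P k p x} + 1 := by
  constructor
  · refine le_trans (card_le_card ?_) ((alt_h hP hp hN k).trans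
      (Nat.add_le_add_right (card_le_card ?_) 1))
    · intro x hx
      rw [mem_filter] at hx ⊢
      exact ⟨hx.1, hx.2.1, by rw [G_pos hN hx.2.1]; exact hx.2.2.2⟩
    · intro x hx
      rw [mem_filter] at hx ⊢
      refine ⟨hx.1, hx.2.1, (ph_ne hx.2.1.ne).symm, ?_⟩
      rw [← G_neg hN hx.2.1]; exact hx.2.2
  · by_cases hk : k + 2 ≤ #P
    · refine le_trans (card_le_card ?_) ((alt_h hP hp hN (#P - 2 - k)).trans
        (Nat.add_le_add_right (card_le_card ?_) 1))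
      · intro x hx
        rw [mem_filter] at hx ⊢
        refine ⟨hx.1, hx.2.1, ?_⟩
        rw [G_pos hN hx.2.1]
        have h3 := card3 hP hp hx.1 (ph_ne hx.2.1.ne')
        have h4 := hx.2.2.2
        rw [neg_card, h4] at h3
        omega
      · intro x hx
        rw [mem_filter] at hx ⊢
        refine ⟨hx.1, hx.2.1, ph_ne hx.2.1.ne, ?_⟩
        have h3 := card3 hP hp hx.1 (ph_ne hx.2.1.ne)
        have h4 := hx.2.2
        rw [G_neg hN hx.2.1] at h4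
        rw [neg_card, h4] at h3
        omega
    · have : ({x ∈ P | 0 < ph α β p x ∧ Ed P k x p} : Finset (ℝ × ℝ)) = ∅ := by
        rw [filter_eq_empty_iff]
        rintro x hx ⟨h1, h2⟩
        have h3 := card3 hP hp hx (ph_ne h1.ne')
        rw [neg_card, h2.2] at h3
        omega
      rw [this, card_empty]
      exact Nat.zero_le _

end point

section deg

variable {P : Finset (ℝ × ℝ)}

lemma deg_ineq_k (hP : Gen P) (k : ℕ) (r : ℝ × ℝ → ℕ) {p : ℝ × ℝ} (hp : p ∈ P)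
    (hr : p ∉ convexHull ℝ {q : ℝ × ℝ | q ∈ P ∧ r p ≤ r q ∧ q ≠ p}) :
    #{q ∈ P | r p ≤ r q ∧ Ed P k p q} + #{q ∈ P | r p ≤ r q ∧ Ed P k q p} ≤
      #{q ∈ P | ¬ r p ≤ r q ∧ Ed P k p q} + #{q ∈ P | ¬ r p ≤ r q ∧ Ed P k q p} + 2 := by
  have hfin : {q : ℝ × ℝ | q ∈ P ∧ r p ≤ r q ∧ q ≠ p}.Finite :=
    P.finite_toSet.subset fun q hq => hq.1
  obtain ⟨f, u, hu1, hu2⟩ := geometric_hahn_banach_point_closed (convex_convexHull ℝ _)
    (hfin.isClosed_convexHull ℝ) hr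
  set α := f (1, 0) with hα
  set β := f (0, 1) with hβ
  have hf : ∀ x : ℝ × ℝ, f x = α * x.1 + β * x.2 := by
    intro x
    have : x = x.1 • ((1 : ℝ), (0 : ℝ)) + x.2 • ((0 : ℝ), (1 : ℝ)) := by
      ext <;> simp
    conv_lhs => rw [this]
    rw [map_add, map_smul, map_smul, smul_eq_mul, smul_eq_mul]; ring
  have hpos : ∀ q ∈ P, r p ≤ r q → q ≠ p → 0 < ph α β p q := by
    intro q hq h1 h2
    have h3 := hu2 q (subset_convexHull ℝ _ ⟨hq, h1, h2⟩)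
    rw [hf] at h3 hu1
    unfold ph
    linarith
  by_cases hne : ∃ q ∈ P, r p ≤ r q ∧ q ≠ p
  · obtain ⟨q, hq, h1, h2⟩ := hne
    have hN : 0 < α ^ 2 + β ^ 2 := by
      by_contra h
      have h3 : α = 0 := by nlinarith [sq_nonneg α, sq_nonneg β]
      have h4 : β = 0 := by nlinarith [sq_nonneg α, sq_nonneg β]
      have := hpos q hq h1 h2
      unfold ph at this
      rw [h3, h4] at this
      linarith
    obtain ⟨ha, hb⟩ := alternate_k hP hp hN k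
    have a1 : #{q ∈ P | r p ≤ r q ∧ Ed P k p q} ≤ #{x ∈ P | 0 < ph α β p x ∧ Ed P k p x} := by
      refine card_le_card fun x hx => ?_
      rw [mem_filter] at hx ⊢
      exact ⟨hx.1, hpos x hx.1 hx.2.1 hx.2.2.1.symm, hx.2.2⟩
    have a2 : #{q ∈ P | r p ≤ r q ∧ Ed P k q p} ≤ #{x ∈ P | 0 < ph α β p x ∧ Ed P k x p} := by
      refine card_le_card fun x hx => ?_
      rw [mem_filter] at hx ⊢
      exact ⟨hx.1, hpos x hx.1 hx.2.1 hx.2.2.1, hx.2.2⟩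
    have a3 : #{x ∈ P | ph α β p x < 0 ∧ Ed P k x p} ≤ #{q ∈ P | ¬ r p ≤ r q ∧ Ed P k q p} := by
      refine card_le_card fun x hx => ?_
      rw [mem_filter] at hx ⊢
      refine ⟨hx.1, ?_, hx.2.2⟩
      intro h3
      linarith [hpos x hx.1 h3 hx.2.2.1, hx.2.1]
    have a4 : #{x ∈ P | ph α β p x < 0 ∧ Ed P k p x} ≤ #{q ∈ P | ¬ r p ≤ r q ∧ Ed P k p q} := by
      refine card_le_card fun x hx => ?_
      rw [mem_filter] at hx ⊢
      refine ⟨hx.1, ?_, hx.2.2⟩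
      intro h3
      linarith [hpos x hx.1 h3 hx.2.2.1.symm, hx.2.1]
    omega
  · have b1 : ({q ∈ P | r p ≤ r q ∧ Ed P k p q} : Finset (ℝ × ℝ)) = ∅ := by
      apply filter_eq_empty_iff.mpr
      rintro q hq ⟨h, h'⟩
      exact hne ⟨q, hq, h, h'.1.symm⟩
    have b2 : ({q ∈ P | r p ≤ r q ∧ Ed P k q p} : Finset (ℝ × ℝ)) = ∅ := by
      apply filter_eq_empty_iff.mpr
      rintro q hq ⟨h, h'⟩
      exact hne ⟨q, hq, h, h'.1⟩
    rw [b1, b2, card_empty]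
    omega

lemma weighted_k (hP : Gen P) (k : ℕ) (r : ℝ × ℝ → ℕ) (y : ℝ × ℝ → ℤ)
    (hy : ∀ p ∈ P, 0 ≤ y p)
    (hr : ∀ p ∈ P, y p ≠ 0 → p ∉ convexHull ℝ {q : ℝ × ℝ | q ∈ P ∧ r p ≤ r q ∧ q ≠ p}) :
    ∑ z ∈ DD P k, (y z.1 * eps r z.1 z.2 + y z.2 * eps r z.2 z.1) ≤ 2 * ∑ p ∈ P, y p := by
  have e1 : ∑ z ∈ DD P k, y z.1 * eps r z.1 z.2 =
      ∑ p ∈ P, y p * ((#{q ∈ P | r p ≤ r q ∧ Ed P k p q} : ℤ) -
        #{q ∈ P | ¬ r p ≤ r q ∧ Ed P k p q}) := by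
    unfold DD
    rw [sum_filter, sum_product]
    refine sum_congr rfl fun p _ => ?_
    rw [card_filter, card_filter]
    push_cast
    rw [← sum_sub_distrib, mul_sum]
    refine sum_congr rfl fun q _ => ?_
    unfold eps
    by_cases h1 : Ed P k p q <;> by_cases h2 : r p ≤ r q <;> simp [h1, h2]
  have e2 : ∑ z ∈ DD P k, y z.2 * eps r z.2 z.1 =
      ∑ p ∈ P, y p * ((#{q ∈ P | r p ≤ r q ∧ Ed P k q p} : ℤ) -
        #{q ∈ P | ¬ r p ≤ r q ∧ Ed P k q p}) := by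
    unfold DD
    rw [sum_filter, sum_product_right]
    refine sum_congr rfl fun p _ => ?_
    rw [card_filter, card_filter]
    push_cast
    rw [← sum_sub_distrib, mul_sum]
    refine sum_congr rfl fun q _ => ?_
    unfold eps
    by_cases h1 : Ed P k q p <;> by_cases h2 : r p ≤ r q <;> simp [h1, h2]
  rw [sum_add_distrib, e1, e2, ← sum_add_distrib, mul_sum]
  refine sum_le_sum fun p hp => ?_
  by_cases h0 : y p = 0
  · rw [h0]; simp
  · have h1 := deg_ineq_k hP k r hp (hr p hp h0)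
    have h2 : ((#{q ∈ P | r p ≤ r q ∧ Ed P k p q} : ℤ) - #{q ∈ P | ¬ r p ≤ r q ∧ Ed P k p q}) +
        ((#{q ∈ P | r p ≤ r q ∧ Ed P k q p} : ℤ) - #{q ∈ P | ¬ r p ≤ r q ∧ Ed P k q p}) ≤ 2 := by
      omega
    have h3 := mul_le_mul_of_nonneg_left h2 (hy p hp)
    linarith

/-- **the ranking theorem for `k`-edges** -/
theorem ranking_k (hP : Gen P) (k m : ℕ) (r : ℝ × ℝ → ℕ) (hrm : ∀ p ∈ P, r p ≤ m)
    (hr : ∀ p ∈ P, p ∉ convexHull ℝ {q : ℝ × ℝ | q ∈ P ∧ r p ≤ r q ∧ q ≠ p}) :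
    #(DD P k) ≤ ∑ p ∈ P, (2 * (m - r p) + 1) := by
  have h1 := weighted_k hP k r (fun p => 2 * ((m : ℤ) - r p) + 1)
    (fun p hp => by have := hrm p hp; omega) (fun p hp _ => hr p hp)
  have h2 : (2 * #(DD P k) : ℤ) ≤ ∑ z ∈ DD P k, ((2 * ((m : ℤ) - r z.1) + 1) * eps r z.1 z.2 +
      (2 * ((m : ℤ) - r z.2) + 1) * eps r z.2 z.1) := by
    rw [mul_comm, ← nsmul_eq_mul, ← sum_const]
    refine sum_le_sum fun z hz => ?_
    rw [mem_DD] at hz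
    have h3 := hrm _ hz.1
    have h4 := hrm _ hz.2.1
    unfold eps
    split_ifs <;> omega
  have h4 : ((∑ p ∈ P, (2 * (m - r p) + 1) : ℕ) : ℤ) = ∑ p ∈ P, (2 * ((m : ℤ) - r p) + 1) := by
    push_cast
    refine sum_congr rfl fun p hp => ?_
    rw [Nat.cast_sub (hrm p hp)]
  have h5 : (#(DD P k) : ℤ) ≤ ((∑ p ∈ P, (2 * (m - r p) + 1) : ℕ) : ℤ) := by
    rw [h4]; linarith
  exact_mod_cast h5

end deg

end Pool.Agent.W296.HL
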