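import Pool.Agent.W296.HK1

/-!
# `k`-edges, `k`-sets and convex layers
-/

set_option autoImplicit false

namespace Pool.Agent.W296.HL

open Finset

open scoped Classical in
/-- the ranking by convex layers -/
lemma layer_rank (P : Finset (ℝ × ℝ)) : ∃ r : ℝ × ℝ → ℕ, (∀ p ∈ P, 1 ≤ r p) ∧
    (∀ p ∈ P, r p ≤ layers P) ∧
    (∀ p ∈ P, p ∉ convexHull ℝ {q : ℝ × ℝ | q ∈ P ∧ r p ≤ r q ∧ q ≠ p}) ∧
    ∑ p ∈ P, (2 * (layers P - r p) + 1) =
      #P + 2 * ∑ j ∈ range (layers P), (#P - #(peel^[j] P)) := by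
  set m := layers P with hm
  set r : ℝ × ℝ → ℕ := fun p => #{j ∈ range m | p ∈ peel^[j] P} with hr
  have hmem : ∀ p j, j < m → (p ∈ peel^[j] P ↔ j < r p) := by
    intro p j hj
    constructor
    · intro h
      have : range (j + 1) ⊆ {i ∈ range m | p ∈ peel^[i] P} := by
        intro i hi
        rw [mem_range] at hi
        rw [mem_filter, mem_range]
        exact ⟨by omega, peel_anti P (by omega) h⟩
      have := card_le_card this
      rw [card_range] at this
      exact this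
    · intro h
      by_contra hcon
      have : ({i ∈ range m | p ∈ peel^[i] P} : Finset ℕ) ⊆ range j := by
        intro i hi
        rw [mem_filter, mem_range] at hi
        rw [mem_range]
        by_contra hij
        exact hcon (peel_anti P (not_lt.mp hij) hi.2)
      have := card_le_card this
      rw [card_range] at this
      simp only [hr] at h
      omega
  have hrm : ∀ p, r p ≤ m := by
    intro p
    have := card_filter_le (range m) (fun j => p ∈ peel^[j] P)
    rw [card_range] at this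
    exact this
  have hr1 : ∀ p ∈ P, 1 ≤ r p := by
    intro p hp
    have hm0 : 0 < m := by
      rcases Nat.eq_zero_or_pos m with h0 | h0
      · have := peel_layers P
        rw [← hm, h0] at this
        simp only [Function.iterate_zero, id_eq] at this
        rw [this] at hp
        exact absurd hp (notMem_empty p)
      · exact h0
    exact (hmem p 0 hm0).mp hp
  refine ⟨r, hr1, fun p _ => hrm p, ?_, ?_⟩
  · intro p hp hcon
    have h1 := hr1 p hp
    have h2 := hrm p
    set i := r p - 1 with hi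
    have him : i < m := by omega
    have hpi : p ∈ peel^[i] P := (hmem p i him).mpr (by omega)
    have hsub : {q : ℝ × ℝ | q ∈ P ∧ r p ≤ r q ∧ q ≠ p} ⊆
        ((peel^[i] P : Finset (ℝ × ℝ)) : Set (ℝ × ℝ)) \ {p} := by
      rintro q ⟨-, hq2, hq3⟩
      exact ⟨mem_coe.mpr ((hmem q i him).mpr (by omega)), hq3⟩
    have h3 : p ∈ peel^[i + 1] P := by
      rw [Function.iterate_succ_apply']
      unfold peel
      rw [mem_filter]
      exact ⟨hpi, convexHull_mono hsub hcon⟩
    by_cases him2 : i + 1 < m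
    · have := (hmem p (i + 1) him2).mp h3
      omega
    · have he : i + 1 = m := by omega
      rw [he, hm, peel_layers P] at h3
      exact absurd h3 (notMem_empty p)
  rw [sum_add_distrib, sum_const, smul_eq_mul, mul_one, ← mul_sum, add_comm]
  congr 2
  have e1 : ∀ p, m - r p = ∑ j ∈ range m, if p ∈ peel^[j] P then 0 else 1 := by
    intro p
    have h4 := card_filter_add_card_filter_not (s := range m) (fun j => p ∈ peel^[j] P)
    rw [card_range] at h4
    have h5 : #{j ∈ range m | ¬ p ∈ peel^[j] P} = ∑ j ∈ range m, if p ∈ peel^[j] P then 0 else 1 := by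
      rw [card_filter]
      refine sum_congr rfl fun j _ => ?_
      by_cases h6 : p ∈ peel^[j] P <;> simp [h6]
    rw [← h5]
    simp only [hr]
    omega
  rw [sum_congr rfl fun p _ => e1 p, sum_comm]
  refine sum_congr rfl fun j _ => ?_
  have h7 : #(P \ peel^[j] P) = #P - #(peel^[j] P) :=
    card_sdiff_of_subset (peel_anti P (Nat.zero_le j))
  rw [← h7, ← filter_notMem_eq_sdiff, card_filter]
  refine sum_congr rfl fun p _ => ?_
  by_cases h6 : p ∈ peel^[j] P <;> simp [h6]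


lemma layers_pos {P : Finset (ℝ × ℝ)} (h : P.Nonempty) : 1 ≤ layers P := by
  rcases Nat.eq_zero_or_pos (layers P) with h0 | h0
  · have := peel_layers P
    rw [h0] at this
    simp only [Function.iterate_zero, id_eq] at this
    rw [this] at h
    exact absurd h not_nonempty_empty
  · exact h0

/-- **`k`-edges and convex layers** -/
theorem layer_bound_k {P : Finset (ℝ × ℝ)} (hP : Gen P) (k : ℕ) :
    #(DD P k) ≤ #P + 2 * ∑ j ∈ range (layers P), (#P - #(peel^[j] P)) ∧
    #(DD P k) + #P ≤ 2 * layers P * #P := by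
  obtain ⟨r, h1, h2, h3, h4⟩ := layer_rank P
  have h := ranking_k hP k (layers P) r h2 h3
  refine ⟨h4 ▸ h, ?_⟩
  have h5 : ∑ p ∈ P, (2 * (layers P - r p) + 1) + #P ≤ 2 * layers P * #P := by
    have : ∀ p ∈ P, (2 * (layers P - r p) + 1) + 1 ≤ 2 * layers P := by
      intro p hp
      have := h1 p hp
      have := h2 p hp
      omega
    calc ∑ p ∈ P, (2 * (layers P - r p) + 1) + #P
        = ∑ p ∈ P, ((2 * (layers P - r p) + 1) + 1) := by
          rw [sum_add_distrib (f := fun p => 2 * (layers P - r p) + 1)]; simp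
      _ ≤ ∑ p ∈ P, 2 * layers P := sum_le_sum this
      _ = 2 * layers P * #P := by rw [sum_const, smul_eq_mul, mul_comm]
  omega

open scoped Classical in
/-- `S` is a `k`-set of `P`: `k` points, cut off by an open half-plane -/
def IsKSet (P : Finset (ℝ × ℝ)) (k : ℕ) (S : Finset (ℝ × ℝ)) : Prop :=
  #S = k ∧ ∃ a b c : ℝ, (a ≠ 0 ∨ b ≠ 0) ∧ S = P.filter (fun x => a * x.1 + b * x.2 < c)

open scoped Classical in
/-- a `k`-set and its complement have a common inner tangent -/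
lemma tangent {P : Finset (ℝ × ℝ)} (hP : Gen P) {k : ℕ} (hk : 1 ≤ k) (hk2 : k < #P)
    {S : Finset (ℝ × ℝ)} (hS : IsKSet P k S) :
    ∃ z ∈ DD P (k - 1), S = insert z.1 ({x ∈ P | 0 < cr z.1 z.2 x}) := by
  obtain ⟨hSk, a, b, c, hab, hSe⟩ := hS
  have hSP : S ⊆ P := by rw [hSe]; exact filter_subset _ _
  have hSne : S.Nonempty := by rw [← card_pos]; omega
  have hTne : (P \ S).Nonempty := by
    rw [← card_pos, card_sdiff_of_subset hSP]; omega
  have hsep : ∀ s ∈ S, ∀ t ∈ P \ S, 0 < a * (t.1 - s.1) + b * (t.2 - s.2) := by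
    intro s hs t ht
    rw [hSe, mem_filter] at hs
    rw [mem_sdiff, hSe, mem_filter] at ht
    have : ¬ a * t.1 + b * t.2 < c := fun h => ht.2 ⟨ht.1, h⟩
    linarith [hs.2, not_lt.mp this]
  -- the slope of `t - s`
  set g : (ℝ × ℝ) × (ℝ × ℝ) → ℝ := fun z =>
    (-b * (z.2.1 - z.1.1) + a * (z.2.2 - z.1.2)) / (a * (z.2.1 - z.1.1) + b * (z.2.2 - z.1.2))
    with hg
  obtain ⟨⟨p, q⟩, hz, hmax⟩ := exists_max_image (S ×ˢ (P \ S)) g (hSne.product hTne)
  rw [mem_product] at hz
  obtain ⟨hpS, hqT⟩ := hz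
  simp only at hpS hqT
  have hqP : q ∈ P := (mem_sdiff.mp hqT).1
  have hqS : q ∉ S := (mem_sdiff.mp hqT).2
  have hpP := hSP hpS
  have hpq : p ≠ q := by rintro rfl; exact hqS hpS
  have hN : 0 < a ^ 2 + b ^ 2 := by
    rcases hab with h | h <;> positivity
  have hle : ∀ s ∈ S, ∀ t ∈ P \ S,
      (q.1 - p.1) * (t.2 - s.2) - (q.2 - p.2) * (t.1 - s.1) ≤ 0 := by
    intro s hs t ht
    have h1 := hmax (s, t) (mem_product.mpr ⟨hs, ht⟩)
    simp only [hg] at h1
    have h2 := hsep s hs t ht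
    have h3 := hsep p hpS q hqT
    rw [div_le_div_iff₀ h2 h3] at h1
    have h4 : (a ^ 2 + b ^ 2) * ((q.1 - p.1) * (t.2 - s.2) - (q.2 - p.2) * (t.1 - s.1)) ≤ 0 := by
      nlinarith
    by_contra h5
    have := mul_pos hN (not_le.mp h5)
    linarith
  have hleft : ∀ s ∈ S, s ≠ p → 0 < cr p q s := by
    intro s hs hsp
    have h1 := hle s hs q hqT
    have h2 : s ≠ q := by rintro rfl; exact hqS hs
    have h3 := hP p hpP q hqP s (hSP hs) hpq hsp.symm h2.symm
    have h4 : cr p q s = -((q.1 - p.1) * (q.2 - s.2) - (q.2 - p.2) * (q.1 - s.1)) := by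
      unfold cr; ring
    have h5 : 0 ≤ cr p q s := by rw [h4]; linarith
    exact lt_of_le_of_ne h5 h3.symm
  have hright : ∀ t ∈ P \ S, ¬ 0 < cr p q t := by
    intro t ht
    have h1 := hle p hpS t ht
    unfold cr
    linarith
  have hins : S = insert p ({x ∈ P | 0 < cr p q x}) := by
    ext x
    rw [mem_insert, mem_filter]
    constructor
    · intro hx
      by_cases hxp : x = p
      · left; exact hxp
      · right; exact ⟨hSP hx, hleft x hx hxp⟩
    · rintro (rfl | ⟨hxP, hx⟩)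
      · exact hpS
      · by_contra hxS
        exact hright x (mem_sdiff.mpr ⟨hxP, hxS⟩) hx
  refine ⟨(p, q), ?_, hins⟩
  rw [mem_DD]
  refine ⟨hpP, hqP, hpq, ?_⟩
  have h6 : p ∉ ({x ∈ P | 0 < cr p q x} : Finset (ℝ × ℝ)) := by
    rw [mem_filter]
    rintro ⟨-, h⟩
    unfold cr at h
    have : (q.1 - p.1) * (p.2 - p.2) - (q.2 - p.2) * (p.1 - p.1) = 0 := by ring
    linarith
  have h7 : #S = #({x ∈ P | 0 < cr p q x} : Finset (ℝ × ℝ)) + 1 := by
    conv_lhs => rw [hins]
    rw [card_insert_of_notMem h6]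
  show #{x ∈ P | 0 < cr p q x} = k - 1
  omega

/-- there are at most as many `k`-sets as `(k-1)`-edges -/
theorem kset_le {P : Finset (ℝ × ℝ)} (hP : Gen P) {k : ℕ} (hk : 1 ≤ k) (hk2 : k < #P) :
    {S | IsKSet P k S}.ncard ≤ #(DD P (k - 1)) := by
  classical
  have hsub : {S | IsKSet P k S} ⊆
      (fun z : (ℝ × ℝ) × (ℝ × ℝ) => insert z.1 ({x ∈ P | 0 < cr z.1 z.2 x})) ''
        (DD P (k - 1) : Set _) := by
    intro S hS
    obtain ⟨z, hz, hSe⟩ := tangent hP hk hk2 hS
    exact ⟨z, mem_coe.mpr hz, by rw [hSe]⟩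
  refine (Set.ncard_le_ncard hsub ((DD P (k - 1)).finite_toSet.image _)).trans ?_
  refine (Set.ncard_image_le (DD P (k - 1)).finite_toSet).trans ?_
  rw [Set.ncard_coe_finset]

/-- **`k`-sets and convex layers** -/
theorem kset_layers {P : Finset (ℝ × ℝ)} (hP : Gen P) {k : ℕ} (hk : 1 ≤ k) (hk2 : k < #P) :
    {S | IsKSet P k S}.ncard ≤ #P + 2 * ∑ j ∈ range (layers P), (#P - #(peel^[j] P)) ∧
    {S | IsKSet P k S}.ncard + #P ≤ 2 * layers P * #P := by
  obtain ⟨h1, h2⟩ := layer_bound_k hP (k - 1)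
  have h := kset_le hP hk hk2
  exact ⟨h.trans h1, by omega⟩

theorem kset_ranking {P : Finset (ℝ × ℝ)} (hP : Gen P) {k : ℕ} (hk : 1 ≤ k) (hk2 : k < #P)
    (m : ℕ) (r : ℝ × ℝ → ℕ) (hrm : ∀ p ∈ P, r p ≤ m)
    (hr : ∀ p ∈ P, p ∉ convexHull ℝ {q : ℝ × ℝ | q ∈ P ∧ r p ≤ r q ∧ q ≠ p}) :
    {S | IsKSet P k S}.ncard ≤ ∑ p ∈ P, (2 * (m - r p) + 1) :=
  (kset_le hP hk hk2).trans (ranking_k hP (k - 1) m r hrm hr)

/-- **`k`-edges: all but `j` points in convex position** -/
theorem almost_convex_k {A B : Finset (ℝ × ℝ)} (k : ℕ) (hP : Gen (A ∪ B))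
    (hd : Disjoint A B) (hA : ∀ p ∈ A, p ∉ convexHull ℝ ((A : Set (ℝ × ℝ)) \ {p})) :
    #(DD (A ∪ B) k) ≤ (2 * #B + 1) * #(A ∪ B) := by
  obtain ⟨r, h1, h2⟩ := rank_almost A hA #B B hd rfl
  have h := ranking_k hP k #B r h1 h2
  refine h.trans ?_
  calc ∑ p ∈ A ∪ B, (2 * (#B - r p) + 1) ≤ ∑ p ∈ A ∪ B, (2 * #B + 1) :=
        sum_le_sum fun p _ => by omega
    _ = (2 * #B + 1) * #(A ∪ B) := by rw [sum_const, smul_eq_mul, mul_comm]

open scoped Classical in
/-- **`k`-edges crossing the boundary of a convex set** -/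
theorem cut_k {P : Finset (ℝ × ℝ)} (hP : Gen P) (k : ℕ) {K : Set (ℝ × ℝ)}
    (hK : Convex ℝ K) :
    #{z ∈ DD P k | ¬ (z.1 ∈ K ↔ z.2 ∈ K)} ≤ 2 * #{p ∈ P | p ∉ K} := by
  obtain ⟨r, h1, h2, h3⟩ := exists_rank hK #{p ∈ P | p ∉ K} P rfl
  set n := #{p ∈ P | p ∉ K} with hn
  have hw := weighted_k hP k r (fun p => if p ∈ K then 0 else 1)
    (fun p _ => by split_ifs <;> norm_num)
    (fun p hp hy => h3 p hp (by
      intro hpK
      apply hy
      simp [hpK]))
  have hsum : (∑ p ∈ P, (if p ∈ K then (0 : ℤ) else 1)) = n := by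
    rw [hn, card_filter]
    push_cast
    refine sum_congr rfl fun p _ => ?_
    by_cases h : p ∈ K <;> simp [h]
  rw [hsum] at hw
  have hlow : (#{z ∈ DD P k | ¬ (z.1 ∈ K ↔ z.2 ∈ K)} : ℤ) ≤ 2 * n := by
    refine le_trans ?_ hw
    rw [card_filter]
    push_cast
    refine sum_le_sum fun z hz => ?_
    rw [mem_DD] at hz
    obtain ⟨hz1, hz2, hz3⟩ := hz
    by_cases hk1 : z.1 ∈ K <;> by_cases hk2 : z.2 ∈ K
    · simp [hk1, hk2]
    · have e1 := h1 z.1 hz1 hk1
      have e2 := h2 z.2 hz2 hk2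
      have e3 : r z.2 ≤ r z.1 := by omega
      simp [hk1, hk2, eps, e3]
    · have e1 := h2 z.1 hz1 hk1
      have e2 := h1 z.2 hz2 hk2
      have e3 : r z.1 ≤ r z.2 := by omega
      simp [hk1, hk2, eps, e3]
    · simp only [hk1, hk2, eps, if_false, not_true_eq_false, one_mul, iff_self]
      split_ifs <;> omega
  exact_mod_cast hlow

end Pool.Agent.W296.HL
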