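import Mathlib

/-!
# Bisectors and convex layers: the local inequality
-/

set_option autoImplicit false

namespace Pool.Agent.W296.HL

open Finset

/-! ### A walk with steps `±1` -/

section walk

variable {ι : Type*} [DecidableEq ι]

/-- the step of `y`: `+1` for the elements of colour `B`, `-1` for the others -/
def stp (B : ι → Prop) [DecidablePred B] (y : ι) : ℤ := if B y then 1 else -1

/-- the value of the walk before `x` -/
noncomputable def wlk (s : ι → ℝ) (B : ι → Prop) [DecidablePred B] (L : Finset ι) (x : ι) : ℤ :=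
  ∑ y ∈ L, if s y < s x then stp B y else 0

lemma walk (s : ι → ℝ) (B : ι → Prop) [DecidablePred B] (t : ℤ) (L : Finset ι)
    (hs : Set.InjOn s L) :
    (∑ x ∈ L, if B x then (if wlk s B L x = t then (-1 : ℤ) else 0)
      else (if wlk s B L x = t + 1 then 1 else 0)) =
      (if t + 1 ≤ 0 then 1 else 0) - (if t + 1 ≤ ∑ y ∈ L, stp B y then 1 else 0) := by
  induction L using Finset.induction_on_max_value s with
  | empty => simp
  | insert a L ha hmax ih =>
    have hs' : Set.InjOn s L := hs.mono (by simp)
    have hlt : ∀ x ∈ L, s x < s a := by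
      intro x hx
      refine lt_of_le_of_ne (hmax x hx) ?_
      intro h
      have := hs (by simp [hx]) (by simp) h
      subst this
      exact ha hx
    have ih' := ih hs'
    have hw : ∀ x ∈ L, wlk s B (insert a L) x = wlk s B L x := by
      intro x hx
      unfold wlk
      rw [Finset.sum_insert ha, if_neg (not_lt.mpr (hlt x hx).le), zero_add]
    have hwa : wlk s B (insert a L) a = ∑ y ∈ L, stp B y := by
      unfold wlk
      rw [Finset.sum_insert ha, if_neg (lt_irrefl _), zero_add]
      exact Finset.sum_congr rfl fun y hy => if_pos (hlt y hy)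
    rw [Finset.sum_insert ha, Finset.sum_insert ha, hwa]
    have e : (∑ x ∈ L, if B x then (if wlk s B (insert a L) x = t then (-1 : ℤ) else 0)
      else (if wlk s B (insert a L) x = t + 1 then 1 else 0)) =
      ∑ x ∈ L, if B x then (if wlk s B L x = t then (-1 : ℤ) else 0)
      else (if wlk s B L x = t + 1 then 1 else 0) :=
      Finset.sum_congr rfl fun x hx => by rw [hw x hx]
    rw [e, ih']
    set W := ∑ y ∈ L, stp B y with hW
    by_cases hB : B a
    · simp only [stp, hB, if_true]
      split_ifs <;> omega
    · simp only [stp, hB, if_false]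
      split_ifs <;> omega

lemma walk_card (s : ι → ℝ) (B : ι → Prop) [DecidablePred B] (t : ℤ) (L : Finset ι)
    (hs : Set.InjOn s L) :
    #{x ∈ L | ¬ B x ∧ wlk s B L x = t + 1} ≤ #{x ∈ L | B x ∧ wlk s B L x = t} + 1 := by
  have h := walk s B t L hs
  have h1 : (∑ x ∈ L, if B x then (if wlk s B L x = t then (-1 : ℤ) else 0)
      else (if wlk s B L x = t + 1 then 1 else 0)) =
      (#{x ∈ L | ¬ B x ∧ wlk s B L x = t + 1} : ℤ) - #{x ∈ L | B x ∧ wlk s B L x = t} := by
    rw [Finset.card_filter, Finset.card_filter]
    push_cast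
    rw [← Finset.sum_sub_distrib]
    refine Finset.sum_congr rfl fun x _ => ?_
    by_cases hB : B x
    · by_cases h1 : wlk s B L x = t <;> simp [hB, h1]
    · by_cases h1 : wlk s B L x = t + 1 <;> simp [hB, h1]
  rw [h1] at h
  have h2 : (if t + 1 ≤ 0 then (1 : ℤ) else 0) -
      (if t + 1 ≤ ∑ y ∈ L, stp B y then 1 else 0) ≤ 1 := by
    split_ifs <;> norm_num
  omega

end walk

end Pool.Agent.W296.HL
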