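import Pool.Agent.W296.HL1

/-!
# Bisectors and convex layers: the inequality at a point
-/

set_option autoImplicit false

namespace Pool.Agent.W296.HL

open Finset

/-- the cross product of `q - p` and `x - p` -/
def cr (p q x : ℝ × ℝ) : ℝ := (q.1 - p.1) * (x.2 - p.2) - (q.2 - p.2) * (x.1 - p.1)

lemma cr_swap (p q x : ℝ × ℝ) : cr q p x = - cr p q x := by unfold cr; ring

/-- no three points are collinear -/
def Gen (P : Finset (ℝ × ℝ)) : Prop :=
  ∀ p ∈ P, ∀ q ∈ P, ∀ x ∈ P, p ≠ q → p ≠ x → q ≠ x → cr p q x ≠ 0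

/-- `p` and `q` span a bisector -/
def Hv (P : Finset (ℝ × ℝ)) (p q : ℝ × ℝ) : Prop :=
  p ≠ q ∧ #{x ∈ P | 0 < cr p q x} = #P / 2 - 1 ∧ #{x ∈ P | cr p q x < 0} = #P / 2 - 1

lemma Hv.symm {P : Finset (ℝ × ℝ)} {p q : ℝ × ℝ} (h : Hv P p q) : Hv P q p := by
  refine ⟨h.1.symm, ?_, ?_⟩
  · rw [← h.2.2]; congr 1; ext x; simp [cr_swap p q x]
  · rw [← h.2.1]; congr 1; ext x; simp [cr_swap p q x]

section point

variable {P : Finset (ℝ × ℝ)} {p : ℝ × ℝ} {α β : ℝ}

/-- the coordinate `φ` -/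
def ph (α β : ℝ) (p x : ℝ × ℝ) : ℝ := α * (x.1 - p.1) + β * (x.2 - p.2)

/-- the coordinate `ψ` -/
def ps (α β : ℝ) (p x : ℝ × ℝ) : ℝ := -β * (x.1 - p.1) + α * (x.2 - p.2)

lemma cr_eq (α β : ℝ) (p q x : ℝ × ℝ) : (α ^ 2 + β ^ 2) * cr p q x =
    ph α β p q * ps α β p x - ps α β p q * ph α β p x := by
  unfold cr ph ps; ring

/-- the number of points above the line through `p` of slope `s` -/
noncomputable def G (P : Finset (ℝ × ℝ)) (α β : ℝ) (p : ℝ × ℝ) (s : ℝ) : ℕ :=
  #{x ∈ P | 0 < ps α β p x - s * ph α β p x}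

/-- the slope -/
noncomputable def sl (α β : ℝ) (p x : ℝ × ℝ) : ℝ := ps α β p x / ph α β p x

lemma cr_pos_iff (hN : 0 < α ^ 2 + β ^ 2) {q : ℝ × ℝ} (hq : ph α β p q ≠ 0) (x : ℝ × ℝ) :
    (0 < ph α β p q → (0 < cr p q x ↔ 0 < ps α β p x - sl α β p q * ph α β p x)) ∧
    (ph α β p q < 0 → (cr p q x < 0 ↔ 0 < ps α β p x - sl α β p q * ph α β p x)) := by
  have h := cr_eq α β p q x
  have e : ps α β p q = sl α β p q * ph α β p q := by unfold sl; field_simp
  have h2 : (α ^ 2 + β ^ 2) * cr p q x =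
      ph α β p q * (ps α β p x - sl α β p q * ph α β p x) := by
    rw [h, e]; ring
  constructor
  · intro h0
    constructor
    · intro h1
      have : 0 < ph α β p q * (ps α β p x - sl α β p q * ph α β p x) := by
        rw [← h2]; positivity
      exact (mul_pos_iff_of_pos_left h0).mp this
    · intro h1
      have : 0 < (α ^ 2 + β ^ 2) * cr p q x := by rw [h2]; positivity
      exact (mul_pos_iff_of_pos_left hN).mp this
  · intro h0
    constructor
    · intro h1
      have : ph α β p q * (ps α β p x - sl α β p q * ph α β p x) < 0 := by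
        rw [← h2]; exact mul_neg_of_pos_of_neg hN h1
      by_contra h3
      have := mul_nonneg_of_nonpos_of_nonpos h0.le (not_lt.mp h3)
      linarith
    · intro h1
      have : (α ^ 2 + β ^ 2) * cr p q x < 0 := by rw [h2]; exact mul_neg_of_neg_of_pos h0 h1
      by_contra h3
      have := mul_nonneg hN.le (not_lt.mp h3)
      linarith

lemma G_of_Hv (hN : 0 < α ^ 2 + β ^ 2) {q : ℝ × ℝ} (hq : ph α β p q ≠ 0) (h : Hv P p q) :
    G P α β p (sl α β p q) = #P / 2 - 1 := by
  rcases lt_or_gt_of_ne hq with h0 | h0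
  · rw [← h.2.2]; unfold G; congr 1; ext x
    simp only [mem_filter, (cr_pos_iff hN hq x).2 h0]
  · rw [← h.2.1]; unfold G; congr 1; ext x
    simp only [mem_filter, (cr_pos_iff hN hq x).1 h0]

lemma card3 (hP : Gen P) (hp : p ∈ P) {q : ℝ × ℝ} (hq : q ∈ P) (hpq : p ≠ q) :
    #{x ∈ P | 0 < cr p q x} + #{x ∈ P | cr p q x < 0} + 2 = #P := by
  classical
  have h1 : P = {x ∈ P | 0 < cr p q x} ∪ {x ∈ P | cr p q x < 0} ∪ {p, q} := by
    ext x
    simp only [mem_union, mem_filter, mem_insert, mem_singleton]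
    constructor
    · intro hx
      by_cases h1 : x = p
      · right; left; exact h1
      · by_cases h2 : x = q
        · right; right; exact h2
        · left
          rcases lt_or_gt_of_ne (hP p hp q hq x hx hpq (Ne.symm h1) (Ne.symm h2)) with h | h
          · right; exact ⟨hx, h⟩
          · left; exact ⟨hx, h⟩
    · rintro ((h | h) | (h | h))
      · exact h.1
      · exact h.1
      · rw [h]; exact hp
      · rw [h]; exact hq
  have e1 : cr p q p = 0 := by unfold cr; ring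
  have e2 : cr p q q = 0 := by unfold cr; ring
  have h2 : #P = #({x ∈ P | 0 < cr p q x} ∪ {x ∈ P | cr p q x < 0} ∪ {p, q}) := by
    rw [← h1]
  rw [Finset.card_union_of_disjoint, Finset.card_union_of_disjoint, Finset.card_pair hpq] at h2
  · exact h2.symm
  · rw [Finset.disjoint_left]
    intro x hx hx'
    simp only [mem_filter] at hx hx'
    linarith [hx.2, hx'.2]
  · rw [Finset.disjoint_left]
    intro x hx hx'
    simp only [mem_union, mem_filter, mem_insert, mem_singleton] at hx hx'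
    rcases hx' with rfl | rfl
    · rw [e1] at hx; rcases hx with hx | hx <;> linarith [hx.2]
    · rw [e2] at hx; rcases hx with hx | hx <;> linarith [hx.2]

lemma Hv_of_G (hP : Gen P) (hE : Even #P) (hp : p ∈ P) (hN : 0 < α ^ 2 + β ^ 2) {q : ℝ × ℝ}
    (hqP : q ∈ P) (hq : ph α β p q ≠ 0) (h : G P α β p (sl α β p q) = #P / 2 - 1) :
    Hv P p q := by
  have hpq : p ≠ q := by
    rintro rfl
    apply hq; unfold ph; ring
  have h3 := card3 hP hp hqP hpq
  obtain ⟨k, hk⟩ := hE
  rcases lt_or_gt_of_ne hq with h0 | h0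
  · have h1 : #{x ∈ P | cr p q x < 0} = #P / 2 - 1 := by
      rw [← h]; unfold G; congr 1; ext x
      simp only [mem_filter, (cr_pos_iff hN hq x).2 h0]
    exact ⟨hpq, by omega, h1⟩
  · have h1 : #{x ∈ P | 0 < cr p q x} = #P / 2 - 1 := by
      rw [← h]; unfold G; congr 1; ext x
      simp only [mem_filter, (cr_pos_iff hN hq x).1 h0]
    exact ⟨hpq, h1, by omega⟩

/-- `B`: the points with `φ < 0` -/
def Bk (α β : ℝ) (p x : ℝ × ℝ) : Prop := ph α β p x < 0

noncomputable instance : DecidablePred (Bk α β p) := fun _ => Classical.dec _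

lemma sl_inj (hP : Gen P) (hp : p ∈ P) (hN : 0 < α ^ 2 + β ^ 2) :
    Set.InjOn (sl α β p) ({x ∈ P | ph α β p x ≠ 0} : Finset (ℝ × ℝ)) := by
  intro x hx y hy h
  rw [mem_coe, mem_filter] at hx hy
  by_contra hxy
  have hpx : p ≠ x := by rintro rfl; apply hx.2; unfold ph; ring
  have hpy : p ≠ y := by rintro rfl; apply hy.2; unfold ph; ring
  apply hP p hp x hx.1 y hy.1 hpx hpy hxy
  have h2 := cr_eq α β p x y
  unfold sl at h
  rw [div_eq_div_iff hx.2 hy.2] at h
  have h3 : (α ^ 2 + β ^ 2) * cr p x y = 0 := by rw [h2]; linarith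
  exact (mul_eq_zero.mp h3).resolve_left hN.ne'

/-- `G` in terms of the walk -/
lemma G_eq (hP : Gen P) (hp : p ∈ P) (hN : 0 < α ^ 2 + β ^ 2) {q : ℝ × ℝ} (hqP : q ∈ P)
    (hq : ph α β p q ≠ 0) :
    (G P α β p (sl α β p q) : ℤ) =
      wlk (sl α β p) (Bk α β p) {x ∈ P | ph α β p x ≠ 0} q +
      #{x ∈ P | 0 < ph α β p x} + #{x ∈ P | ph α β p x = 0 ∧ 0 < ps α β p x} -
      (if 0 < ph α β p q then 1 else 0) := by
  classical
  have hinj := sl_inj (α := α) (β := β) hP hp hN
  unfold G wlk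
  rw [Finset.sum_filter, Finset.card_filter, Finset.card_filter, Finset.card_filter]
  have e : (if 0 < ph α β p q then (1 : ℤ) else 0) =
      ∑ x ∈ P, if x = q then (if 0 < ph α β p x then (1 : ℤ) else 0) else 0 := by
    rw [Finset.sum_ite_eq' P q]
    simp [hqP]
  rw [e]
  push_cast
  rw [← Finset.sum_add_distrib, ← Finset.sum_add_distrib, ← Finset.sum_sub_distrib]
  refine Finset.sum_congr rfl fun x hx => ?_
  by_cases h0 : ph α β p x = 0
  · by_cases hxq : x = q
    · subst hxq; exact absurd h0 hq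
    · by_cases h1 : 0 < ps α β p x <;> simp [h0, h1, hxq]
  · have hsx : ps α β p x = sl α β p x * ph α β p x := by unfold sl; field_simp
    have hkey : ps α β p x - sl α β p q * ph α β p x =
        (sl α β p x - sl α β p q) * ph α β p x := by rw [hsx]; ring
    rcases lt_or_gt_of_ne h0 with h1 | h1
    · -- `φ < 0`
      have h2 : ¬ 0 < ph α β p x := not_lt.mpr h1.le
      have h3 : (0 < ps α β p x - sl α β p q * ph α β p x) ↔ sl α β p x < sl α β p q := by
        rw [hkey]
        constructor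
        · intro h
          by_contra h4
          have := mul_nonpos_of_nonneg_of_nonpos (sub_nonneg.mpr (not_lt.mp h4)) h1.le
          linarith
        · intro h
          exact mul_pos_of_neg_of_neg (by linarith) h1
      have hB : Bk α β p x := h1
      by_cases h5 : sl α β p x < sl α β p q
      · simp [h0, h2, h3, stp, hB, h5]
      · simp [h0, h2, h3, stp, hB, h5]
    · -- `φ > 0`
      have h2 : ¬ Bk α β p x := not_lt.mpr h1.le
      have h3 : (0 < ps α β p x - sl α β p q * ph α β p x) ↔ sl α β p q < sl α β p x := by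
        rw [hkey, mul_pos_iff_of_pos_right h1, sub_pos]
      by_cases hxq : x = q
      · subst hxq
        simp [h0, h1, h3, stp, h2]
      · have hne : sl α β p x ≠ sl α β p q := by
          intro h
          apply hxq
          exact hinj (by simp [hx, h0]) (by simp [hqP, hq]) h
        by_cases h5 : sl α β p x < sl α β p q
        · have h6 : ¬ sl α β p q < sl α β p x := not_lt.mpr h5.le
          simp [h0, h1, h3, stp, h2, h5, h6, hxq]
        · have h6 : sl α β p q < sl α β p x := lt_of_le_of_ne (not_lt.mp h5) hne.symm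
          simp [h0, h1, h3, stp, h2, h5, h6, hxq]

/-- **the alternation at a point** -/
lemma alternate (hP : Gen P) (hE : Even #P) (hp : p ∈ P) (hN : 0 < α ^ 2 + β ^ 2)
    [DecidablePred (Hv P p)] :
    #{x ∈ P | 0 < ph α β p x ∧ Hv P p x} ≤ #{x ∈ P | ph α β p x < 0 ∧ Hv P p x} + 1 := by
  classical
  set L : Finset (ℝ × ℝ) := {x ∈ P | ph α β p x ≠ 0} with hL
  set t : ℤ := ((#P / 2 - 1 : ℕ) : ℤ) - #{x ∈ P | 0 < ph α β p x} -
    #{x ∈ P | ph α β p x = 0 ∧ 0 < ps α β p x} with ht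
  have h := walk_card (sl α β p) (Bk α β p) t L (sl_inj hP hp hN)
  have h1 : ({x ∈ P | 0 < ph α β p x ∧ Hv P p x} : Finset (ℝ × ℝ)) ⊆
      {x ∈ L | ¬ Bk α β p x ∧ wlk (sl α β p) (Bk α β p) L x = t + 1} := by
    intro x hx
    rw [mem_filter] at hx
    obtain ⟨hx1, hx2, hx3⟩ := hx
    have hne : ph α β p x ≠ 0 := hx2.ne'
    rw [mem_filter, hL, mem_filter]
    refine ⟨⟨hx1, hne⟩, not_lt.mpr hx2.le, ?_⟩
    have h2 := G_of_Hv hN hne hx3
    have h3 := G_eq hP hp hN hx1 hne
    rw [if_pos hx2, h2] at h3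
    rw [← hL] at h3 ⊢
    linarith
  have h2 : ({x ∈ L | Bk α β p x ∧ wlk (sl α β p) (Bk α β p) L x = t} : Finset (ℝ × ℝ)) ⊆
      {x ∈ P | ph α β p x < 0 ∧ Hv P p x} := by
    intro x hx
    rw [mem_filter, hL, mem_filter] at hx
    obtain ⟨⟨hx1, hne⟩, hx2, hx3⟩ := hx
    rw [mem_filter]
    refine ⟨hx1, hx2, Hv_of_G (α := α) (β := β) hP hE hp hN hx1 hne ?_⟩
    have h3 := G_eq hP hp hN hx1 hne
    rw [if_neg (not_lt.mpr (le_of_lt hx2))] at h3
    have : (G P α β p (sl α β p x) : ℤ) = ((#P / 2 - 1 : ℕ) : ℤ) := by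
      rw [h3, hx3]; linarith
    exact_mod_cast this
  exact (card_le_card h1).trans (h.trans (Nat.add_le_add_right (card_le_card h2) 1))

end point

end Pool.Agent.W296.HL
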