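import Pool.Agent.W296.HL2

/-!
# Bisectors and convex layers: summation over the points
-/

set_option autoImplicit false

namespace Pool.Agent.W296.HL

open Finset

/-- The set of points `(x, y)` of the plane with `a x + b y = c`. -/
def Line (a b c : ℝ) : Set (ℝ × ℝ) := {p | a * p.1 + b * p.2 = c}

/-- General position: no three distinct points of `P` lie on a common line. -/
def GeneralPosition (P : Finset (ℝ × ℝ)) : Prop :=
  ∀ a b c : ℝ, (a ≠ 0 ∨ b ≠ 0) → ∀ p ∈ P, ∀ q ∈ P, ∀ r ∈ P, p ≠ q → p ≠ r → q ≠ r →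
    ¬ (p ∈ Line a b c ∧ q ∈ Line a b c ∧ r ∈ Line a b c)

open scoped Classical in
/-- `L` is a bisector (halving line) of `P`: a line through two points of `P` such that each of
the two open half-planes bounded by it contains exactly `|P| / 2 - 1` points of `P`. -/
def IsBisector (P : Finset (ℝ × ℝ)) (L : Set (ℝ × ℝ)) : Prop :=
  ∃ a b c : ℝ, (a ≠ 0 ∨ b ≠ 0) ∧ L = Line a b c ∧
    (∃ p ∈ P, ∃ q ∈ P, p ≠ q ∧ p ∈ L ∧ q ∈ L) ∧
    (P.filter (fun p => a * p.1 + b * p.2 < c)).card = P.card / 2 - 1 ∧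
    (P.filter (fun p => c < a * p.1 + b * p.2)).card = P.card / 2 - 1

lemma gen_of_gp {P : Finset (ℝ × ℝ)} (h : GeneralPosition P) : Gen P := by
  intro p hp q hq x hx hpq hpx hqx h0
  have hv : q.2 - p.2 ≠ 0 ∨ p.1 - q.1 ≠ 0 := by
    by_contra h
    push Not at h
    apply hpq
    exact Prod.ext (by linarith [h.2]) (by linarith [h.1])
  apply h (q.2 - p.2) (p.1 - q.1) ((q.2 - p.2) * p.1 + (p.1 - q.1) * p.2) hv p hp q hq x hx
    hpq hpx hqx
  simp only [Line, Set.mem_ofPred_eq]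
  unfold cr at h0
  refine ⟨trivial, by ring, by linarith⟩

open scoped Classical in
lemma hv_of_line {P : Finset (ℝ × ℝ)} {L : Set (ℝ × ℝ)} (h : IsBisector P L) {p q : ℝ × ℝ}
    (hpq : p ≠ q) (hpL : p ∈ L) (hqL : q ∈ L) :
    Hv P p q ∧ L = {x | cr p q x = 0} := by
  obtain ⟨a, b, c, hab, rfl, -, h1, h2⟩ := h
  simp only [Line, Set.mem_ofPred_eq] at hpL hqL
  set d1 := q.1 - p.1 with hd1
  set d2 := q.2 - p.2 with hd2
  have hd : a * d1 + b * d2 = 0 := by rw [hd1, hd2]; linarith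
  have hN : 0 < d1 ^ 2 + d2 ^ 2 := by
    by_contra h
    have h3 : d1 = 0 := by nlinarith [sq_nonneg d1, sq_nonneg d2]
    have h4 : d2 = 0 := by nlinarith [sq_nonneg d1, sq_nonneg d2]
    apply hpq
    exact Prod.ext (by linarith) (by linarith)
  set lam := (b * d1 - a * d2) / (d1 ^ 2 + d2 ^ 2) with hlam
  have hl : lam * (d1 ^ 2 + d2 ^ 2) = b * d1 - a * d2 := by rw [hlam]; field_simp
  have hb : b = lam * d1 := by
    have : (b - lam * d1) * (d1 ^ 2 + d2 ^ 2) = 0 := by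
      linear_combination (-d1) * hl + d2 * hd
    have := (mul_eq_zero.mp this).resolve_right hN.ne'
    linarith
  have ha : a = - (lam * d2) := by
    have : (a + lam * d2) * (d1 ^ 2 + d2 ^ 2) = 0 := by
      linear_combination d2 * hl + d1 * hd
    have := (mul_eq_zero.mp this).resolve_right hN.ne'
    linarith
  have hlam0 : lam ≠ 0 := by
    intro h0
    rw [h0] at ha hb
    rcases hab with h | h
    · apply h; rw [ha]; ring
    · apply h; rw [hb]; ring
  have hkey : ∀ x : ℝ × ℝ, a * x.1 + b * x.2 - c = lam * cr p q x := by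
    intro x
    have : c = a * p.1 + b * p.2 := hpL.symm
    rw [this, ha, hb]
    unfold cr
    rw [← hd1, ← hd2]; ring
  have hset : Line a b c = {x | cr p q x = 0} := by
    ext x
    simp only [Line, Set.mem_ofPred_eq]
    have := hkey x
    constructor
    · intro h
      have h3 : lam * cr p q x = 0 := by rw [← this]; linarith
      exact (mul_eq_zero.mp h3).resolve_left hlam0
    · intro h
      rw [h, mul_zero] at this
      linarith
  refine ⟨⟨hpq, ?_⟩, hset⟩
  rcases lt_or_gt_of_ne hlam0 with hl0 | hl0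
  · refine ⟨?_, ?_⟩
    · rw [← h1]; congr 1; ext x
      simp only [mem_filter, and_congr_right_iff]
      intro _
      have := hkey x
      constructor
      · intro h; have := mul_neg_of_neg_of_pos hl0 h; linarith
      · intro h
        by_contra h3
        have := mul_nonneg_of_nonpos_of_nonpos hl0.le (not_lt.mp h3); linarith
    · rw [← h2]; congr 1; ext x
      simp only [mem_filter, and_congr_right_iff]
      intro _
      have := hkey x
      constructor
      · intro h; have := mul_pos_of_neg_of_neg hl0 h; linarith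
      · intro h
        by_contra h3
        have := mul_nonpos_of_nonpos_of_nonneg hl0.le (not_lt.mp h3); linarith
  · refine ⟨?_, ?_⟩
    · rw [← h2]; congr 1; ext x
      simp only [mem_filter, and_congr_right_iff]
      intro _
      have := hkey x
      constructor
      · intro h; have := mul_pos hl0 h; linarith
      · intro h
        by_contra h3
        have := mul_nonpos_of_nonneg_of_nonpos hl0.le (not_lt.mp h3); linarith
    · rw [← h1]; congr 1; ext x
      simp only [mem_filter, and_congr_right_iff]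
      intro _
      have := hkey x
      constructor
      · intro h; have := mul_neg_of_pos_of_neg hl0 h; linarith
      · intro h
        by_contra h3
        have := mul_nonneg hl0.le (not_lt.mp h3); linarith

open scoped Classical in
/-- the ordered pairs spanning bisectors -/
noncomputable def HH (P : Finset (ℝ × ℝ)) : Finset ((ℝ × ℝ) × (ℝ × ℝ)) :=
  {z ∈ P ×ˢ P | Hv P z.1 z.2}

lemma mem_HH {P : Finset (ℝ × ℝ)} {z : (ℝ × ℝ) × (ℝ × ℝ)} :
    z ∈ HH P ↔ z.1 ∈ P ∧ z.2 ∈ P ∧ Hv P z.1 z.2 := by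
  classical
  unfold HH
  rw [mem_filter, mem_product, and_assoc]

lemma bis_finite (P : Finset (ℝ × ℝ)) : {L | IsBisector P L}.Finite := by
  classical
  refine ((HH P).finite_toSet.image (fun z => {x | cr z.1 z.2 x = 0})).subset ?_
  intro L hL
  obtain ⟨a, b, c, hab, hL2, ⟨p, hp, q, hq, hpq, hpL, hqL⟩, h1, h2⟩ := id hL
  obtain ⟨h3, h4⟩ := hv_of_line hL hpq hpL hqL
  exact ⟨(p, q), mem_coe.mpr (mem_HH.mpr ⟨hp, hq, h3⟩), h4.symm⟩

lemma two_mul_ncard_le (P : Finset (ℝ × ℝ)) : 2 * {L | IsBisector P L}.ncard ≤ #(HH P) := by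
  classical
  set B := (bis_finite P).toFinset with hB
  have hc : {L | IsBisector P L}.ncard = #B := by
    rw [hB, Set.ncard_eq_toFinset_card _ (bis_finite P)]
  have hex : ∀ L : Set (ℝ × ℝ), ∃ z : (ℝ × ℝ) × (ℝ × ℝ), IsBisector P L →
      z.1 ∈ P ∧ z.2 ∈ P ∧ Hv P z.1 z.2 ∧ L = {x | cr z.1 z.2 x = 0} := by
    intro L
    by_cases hL : IsBisector P L
    · obtain ⟨a, b, c, hab, hL2, ⟨p, hp, q, hq, hpq, hpL, hqL⟩, h1, h2⟩ := id hL
      obtain ⟨h3, h4⟩ := hv_of_line hL hpq hpL hqL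
      exact ⟨(p, q), fun _ => ⟨hp, hq, h3, h4⟩⟩
    · exact ⟨((0, 0), (0, 0)), fun h => absurd h hL⟩
  choose z hz using hex
  have hBm : ∀ L ∈ B, IsBisector P L := by
    intro L hL
    rw [hB, Set.Finite.mem_toFinset] at hL
    exact hL
  rw [hc]
  have hcard : #(B ×ˢ (Finset.univ : Finset Bool)) = 2 * #B := by
    rw [card_product, Finset.card_univ, Fintype.card_bool, mul_comm]
  rw [← hcard]
  have hrev : ∀ p q : ℝ × ℝ, {x | cr p q x = 0} = {x | cr q p x = 0} := by
    intro p q; ext x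
    simp only [Set.mem_ofPred_eq, cr_swap p q x, neg_eq_zero]
  refine card_le_card_of_injOn (fun w => if w.2 then z w.1 else ((z w.1).2, (z w.1).1)) ?_ ?_
  · rintro ⟨L, b⟩ hw
    rw [mem_coe, mem_product] at hw
    obtain ⟨h1, h2, h3, h4⟩ := hz L (hBm L hw.1)
    rw [mem_coe, mem_HH]
    cases b
    · exact ⟨h2, h1, h3.symm⟩
    · exact ⟨h1, h2, h3⟩
  · rintro ⟨L, b⟩ hw ⟨L', b'⟩ hw' h
    rw [mem_coe, mem_product] at hw hw'
    obtain ⟨h1, h2, h3, h4⟩ := hz L (hBm L hw.1)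
    obtain ⟨h1', h2', h3', h4'⟩ := hz L' (hBm L' hw'.1)
    cases b <;> cases b' <;> simp only [Bool.false_eq_true, if_false, if_true] at h
    · have e1 := congrArg Prod.fst h
      have e2 := congrArg Prod.snd h
      simp only at e1 e2
      have : L = L' := by rw [h4, h4', e1, e2]
      rw [this]
    · exfalso
      have e1 : (z L).2 = (z L').1 := congrArg Prod.fst h
      have e2 : (z L).1 = (z L').2 := congrArg Prod.snd h
      have : L = L' := by rw [h4, h4', hrev, e1, e2]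
      subst this
      exact h3.1 e1.symm
    · exfalso
      have e1 : (z L).1 = (z L').2 := congrArg Prod.fst h
      have e2 : (z L).2 = (z L').1 := congrArg Prod.snd h
      have : L = L' := by rw [h4, h4', hrev, e1, e2]
      subst this
      exact h3.1 e1
    · have : L = L' := by rw [h4, h4', h]
      rw [this]

/-! ### The degree inequality -/

section deg

open scoped Classical

variable {P : Finset (ℝ × ℝ)}

lemma deg_ineq (hP : Gen P) (hE : Even #P) (r : ℝ × ℝ → ℕ) {p : ℝ × ℝ} (hp : p ∈ P)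
    (hr : p ∉ convexHull ℝ {q : ℝ × ℝ | q ∈ P ∧ r p ≤ r q ∧ q ≠ p}) :
    #{q ∈ P | r p ≤ r q ∧ Hv P p q} ≤ #{q ∈ P | ¬ r p ≤ r q ∧ Hv P p q} + 1 := by
  have hfin : {q : ℝ × ℝ | q ∈ P ∧ r p ≤ r q ∧ q ≠ p}.Finite :=
    P.finite_toSet.subset fun q hq => hq.1
  obtain ⟨f, u, hu1, hu2⟩ := geometric_hahn_banach_point_closed (convex_convexHull ℝ _)
    (hfin.isClosed_convexHull ℝ) hr
  set α := f (1, 0) with hα
  set β := f (0, 1) with hβ
  have hf : ∀ x : ℝ × ℝ, f x = α * x.1 + β * x.2 := by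
    intro x
    have : x = x.1 • ((1 : ℝ), (0 : ℝ)) + x.2 • ((0 : ℝ), (1 : ℝ)) := by
      ext <;> simp
    conv_lhs => rw [this]
    rw [map_add, map_smul, map_smul, smul_eq_mul, smul_eq_mul]; ring
  have hpos : ∀ q ∈ P, r p ≤ r q → q ≠ p → 0 < ph α β p q := by
    intro q hq h1 h2
    have h3 := hu2 q (subset_convexHull ℝ _ ⟨hq, h1, h2⟩)
    rw [hf] at h3 hu1
    unfold ph
    linarith
  by_cases hne : ∃ q ∈ P, r p ≤ r q ∧ Hv P p q
  · obtain ⟨q, hq, h1, h2⟩ := hne
    have hN : 0 < α ^ 2 + β ^ 2 := by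
      by_contra h
      have h3 : α = 0 := by nlinarith [sq_nonneg α, sq_nonneg β]
      have h4 : β = 0 := by nlinarith [sq_nonneg α, sq_nonneg β]
      have := hpos q hq h1 h2.1.symm
      unfold ph at this
      rw [h3, h4] at this
      linarith
    have h := alternate hP hE hp hN
    refine le_trans (card_le_card ?_) (h.trans (Nat.add_le_add_right (card_le_card ?_) 1))
    · intro x hx
      rw [mem_filter] at hx ⊢
      exact ⟨hx.1, hpos x hx.1 hx.2.1 hx.2.2.1.symm, hx.2.2⟩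
    · intro x hx
      rw [mem_filter] at hx ⊢
      refine ⟨hx.1, ?_, hx.2.2⟩
      intro h3
      linarith [hpos x hx.1 h3 hx.2.2.1.symm, hx.2.1]
  · have : ({q ∈ P | r p ≤ r q ∧ Hv P p q} : Finset (ℝ × ℝ)) = ∅ := by
      apply filter_eq_empty_iff.mpr
      intro q hq h
      exact hne ⟨q, hq, h⟩
    rw [this, card_empty]
    exact Nat.zero_le _

/-- the sign -/
noncomputable def eps (r : ℝ × ℝ → ℕ) (p q : ℝ × ℝ) : ℤ := if r p ≤ r q then 1 else -1

lemma weighted (hP : Gen P) (hE : Even #P) (r : ℝ × ℝ → ℕ) (y : ℝ × ℝ → ℤ)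
    (hy : ∀ p ∈ P, 0 ≤ y p)
    (hr : ∀ p ∈ P, y p ≠ 0 → p ∉ convexHull ℝ {q : ℝ × ℝ | q ∈ P ∧ r p ≤ r q ∧ q ≠ p}) :
    ∑ z ∈ HH P, (y z.1 * eps r z.1 z.2 + y z.2 * eps r z.2 z.1) ≤ 2 * ∑ p ∈ P, y p := by
  have hA : ∑ z ∈ HH P, y z.1 * eps r z.1 z.2 ≤ ∑ p ∈ P, y p := by
    have e : ∑ z ∈ HH P, y z.1 * eps r z.1 z.2 =
        ∑ p ∈ P, y p * ((#{q ∈ P | r p ≤ r q ∧ Hv P p q} : ℤ) -
          #{q ∈ P | ¬ r p ≤ r q ∧ Hv P p q}) := by
      unfold HH
      rw [sum_filter, sum_product]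
      refine sum_congr rfl fun p _ => ?_
      rw [card_filter, card_filter]
      push_cast
      rw [← sum_sub_distrib, mul_sum]
      refine sum_congr rfl fun q _ => ?_
      unfold eps
      by_cases h1 : Hv P p q <;> by_cases h2 : r p ≤ r q <;> simp [h1, h2]
    rw [e]
    refine sum_le_sum fun p hp => ?_
    by_cases h0 : y p = 0
    · rw [h0, zero_mul]
    · have h1 := deg_ineq hP hE r hp (hr p hp h0)
      have h2 : ((#{q ∈ P | r p ≤ r q ∧ Hv P p q} : ℤ) -
          #{q ∈ P | ¬ r p ≤ r q ∧ Hv P p q}) ≤ 1 := by omega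
      have h3 := mul_le_mul_of_nonneg_left h2 (hy p hp)
      rwa [mul_one] at h3
  have hB : ∑ z ∈ HH P, y z.2 * eps r z.2 z.1 = ∑ z ∈ HH P, y z.1 * eps r z.1 z.2 := by
    refine sum_nbij' (fun z => (z.2, z.1)) (fun z => (z.2, z.1)) ?_ ?_ ?_ ?_ ?_
    · intro z hz; rw [mem_HH] at hz ⊢; exact ⟨hz.2.1, hz.1, hz.2.2.symm⟩
    · intro z hz; rw [mem_HH] at hz ⊢; exact ⟨hz.2.1, hz.1, hz.2.2.symm⟩
    · intro z _; rfl
    · intro z _; rfl
    · intro z _; rfl
  rw [sum_add_distrib, hB]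
  linarith

/-- **the ranking theorem** -/
theorem ranking (hP : Gen P) (hE : Even #P) (m : ℕ) (r : ℝ × ℝ → ℕ)
    (hrm : ∀ p ∈ P, r p ≤ m)
    (hr : ∀ p ∈ P, p ∉ convexHull ℝ {q : ℝ × ℝ | q ∈ P ∧ r p ≤ r q ∧ q ≠ p}) :
    2 * {L | IsBisector P L}.ncard ≤ ∑ p ∈ P, (2 * (m - r p) + 1) := by
  have h1 := weighted hP hE r (fun p => 2 * ((m : ℤ) - r p) + 1)
    (fun p hp => by have := hrm p hp; omega) (fun p hp _ => hr p hp)
  have h2 : (2 * #(HH P) : ℤ) ≤ ∑ z ∈ HH P, ((2 * ((m : ℤ) - r z.1) + 1) * eps r z.1 z.2 +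
      (2 * ((m : ℤ) - r z.2) + 1) * eps r z.2 z.1) := by
    rw [mul_comm, ← nsmul_eq_mul, ← sum_const]
    refine sum_le_sum fun z hz => ?_
    rw [mem_HH] at hz
    have h3 := hrm _ hz.1
    have h4 := hrm _ hz.2.1
    unfold eps
    split_ifs <;> omega
  have h3 := two_mul_ncard_le P
  have h4 : ((∑ p ∈ P, (2 * (m - r p) + 1) : ℕ) : ℤ) = ∑ p ∈ P, (2 * ((m : ℤ) - r p) + 1) := by
    push_cast
    refine sum_congr rfl fun p hp => ?_
    rw [Nat.cast_sub (hrm p hp)]
  have h5 : (#(HH P) : ℤ) ≤ ((∑ p ∈ P, (2 * (m - r p) + 1) : ℕ) : ℤ) := by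
    rw [h4]; linarith
  exact h3.trans (by exact_mod_cast h5)

end deg

end Pool.Agent.W296.HL
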