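import Pool.Agent.W296.HL3

/-!
# Bisectors, convex sets and convex layers
-/

set_option autoImplicit false

namespace Pool.Agent.W296.HL

open Finset

/-- a finite set not contained in a convex set has a vertex outside of it -/
lemma exists_vertex (S : Finset (ℝ × ℝ)) {K : Set (ℝ × ℝ)} (hK : Convex ℝ K)
    (h : ¬ (S : Set (ℝ × ℝ)) ⊆ K) :
    ∃ p ∈ S, p ∉ K ∧ p ∉ convexHull ℝ ((S : Set (ℝ × ℝ)) \ {p}) := by
  by_contra hcon
  push Not at hcon
  apply h
  set C := convexHull ℝ (S : Set (ℝ × ℝ)) with hC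
  have hCc : IsCompact C := S.finite_toSet.isCompact_convexHull ℝ
  have hCv : Convex ℝ C := convex_convexHull ℝ _
  have hES : C.extremePoints ℝ ⊆ (S : Set (ℝ × ℝ)) := extremePoints_convexHull_subset
  have hEK : C.extremePoints ℝ ⊆ K := by
    intro e he
    by_contra heK
    have h1 := hcon e (hES he) heK
    have h2 := (hCv.mem_extremePoints_iff_convex_diff.mp he).2
    have h3 : (S : Set (ℝ × ℝ)) \ {e} ⊆ C \ {e} :=
      Set.diff_subset_diff_left (subset_convexHull ℝ _)
    exact (convexHull_min h3 h2 h1).2 rfl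
  have hcl : closure (convexHull ℝ (C.extremePoints ℝ)) = C :=
    closure_convexHull_extremePoints hCc hCv
  have hfin : (C.extremePoints ℝ).Finite := S.finite_toSet.subset hES
  rw [(hfin.isClosed_convexHull ℝ).closure_eq] at hcl
  refine (subset_convexHull ℝ (S : Set (ℝ × ℝ))).trans ?_
  rw [← hC, ← hcl]
  exact convexHull_min hEK hK

open scoped Classical in
/-- a ranking of the points outside `K` -/
lemma exists_rank {K : Set (ℝ × ℝ)} (hK : Convex ℝ K) (n : ℕ) :
    ∀ S : Finset (ℝ × ℝ), #{p ∈ S | p ∉ K} = n → ∃ r : ℝ × ℝ → ℕ,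
      (∀ p ∈ S, p ∈ K → r p = n) ∧ (∀ p ∈ S, p ∉ K → r p < n) ∧
      (∀ p ∈ S, p ∉ K → p ∉ convexHull ℝ {q : ℝ × ℝ | q ∈ S ∧ r p ≤ r q ∧ q ≠ p}) := by
  induction n with
  | zero =>
    intro S hS
    rw [card_eq_zero, filter_eq_empty_iff] at hS
    refine ⟨fun _ => 0, fun _ _ _ => rfl, ?_, ?_⟩
    · intro p hp hpK; exact absurd hpK (hS hp)
    · intro p hp hpK; exact absurd hpK (hS hp)
  | succ n ih =>
    intro S hS
    have hne : ¬ (S : Set (ℝ × ℝ)) ⊆ K := by
      intro h
      have : ({p ∈ S | p ∉ K} : Finset (ℝ × ℝ)) = ∅ := by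
        rw [filter_eq_empty_iff]
        intro p hp hpK
        exact hpK (h hp)
      rw [this, card_empty] at hS
      omega
    obtain ⟨p₀, hp₀, hp₀K, hp₀v⟩ := exists_vertex S hK hne
    have hc : #{p ∈ S.erase p₀ | p ∉ K} = n := by
      have : ({p ∈ S.erase p₀ | p ∉ K} : Finset (ℝ × ℝ)) =
          ({p ∈ S | p ∉ K} : Finset (ℝ × ℝ)).erase p₀ := by
        ext x; simp only [mem_filter, mem_erase]; tauto
      rw [this, card_erase_of_mem (by rw [mem_filter]; exact ⟨hp₀, hp₀K⟩), hS]
      rfl
    obtain ⟨r, h1, h2, h3⟩ := ih (S.erase p₀) hc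
    refine ⟨fun q => if q = p₀ then 0 else r q + 1, ?_, ?_, ?_⟩
    · intro p hp hpK
      have hne : p ≠ p₀ := by rintro rfl; exact hp₀K hpK
      simp only [hne, if_false]
      rw [h1 p (mem_erase.mpr ⟨hne, hp⟩) hpK]
    · intro p hp hpK
      by_cases hne : p = p₀
      · simp [hne]
      · simp only [hne, if_false]
        have := h2 p (mem_erase.mpr ⟨hne, hp⟩) hpK
        omega
    · intro p hp hpK
      by_cases hne : p = p₀
      · subst hne
        intro hcon
        apply hp₀v
        refine convexHull_mono ?_ hcon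
        rintro q ⟨hq1, -, hq2⟩
        exact ⟨hq1, hq2⟩
      · intro hcon
        apply h3 p (mem_erase.mpr ⟨hne, hp⟩) hpK
        refine convexHull_mono ?_ hcon
        rintro q ⟨hq1, hq2, hq3⟩
        simp only [hne, if_false] at hq2
        have hq0 : q ≠ p₀ := by
          rintro rfl
          simp at hq2
        simp only [hq0, if_false] at hq2
        exact ⟨mem_erase.mpr ⟨hq0, hq1⟩, by omega, hq3⟩

open scoped Classical in
/-- **bisectors crossing the boundary of a convex set** -/
theorem cut {P : Finset (ℝ × ℝ)} (hP : Gen P) (hE : Even #P) {K : Set (ℝ × ℝ)}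
    (hK : Convex ℝ K) :
    {L | IsBisector P L ∧ (∃ p ∈ P, p ∉ K ∧ p ∈ L) ∧ ∃ q ∈ P, q ∈ K ∧ q ∈ L}.ncard ≤
      #{p ∈ P | p ∉ K} := by
  obtain ⟨r, h1, h2, h3⟩ := exists_rank hK #{p ∈ P | p ∉ K} P rfl
  set n := #{p ∈ P | p ∉ K} with hn
  have hw := weighted hP hE r (fun p => if p ∈ K then 0 else 1)
    (fun p _ => by split_ifs <;> norm_num)
    (fun p hp hy => h3 p hp (by
      intro hpK
      apply hy
      simp [hpK]))
  have hsum : (∑ p ∈ P, (if p ∈ K then (0 : ℤ) else 1)) = n := by
    rw [hn, card_filter]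
    push_cast
    refine sum_congr rfl fun p _ => ?_
    by_cases h : p ∈ K <;> simp [h]
  rw [hsum] at hw
  set A : Finset ((ℝ × ℝ) × (ℝ × ℝ)) := {z ∈ HH P | z.1 ∉ K ∧ z.2 ∈ K} with hA
  set A' : Finset ((ℝ × ℝ) × (ℝ × ℝ)) := {z ∈ HH P | z.1 ∈ K ∧ z.2 ∉ K} with hA'
  have hAA : #A = #A' := by
    refine card_bij' (fun z _ => (z.2, z.1)) (fun z _ => (z.2, z.1)) ?_ ?_ ?_ ?_
    · intro z hz
      rw [hA, mem_filter, mem_HH] at hz
      rw [hA', mem_filter, mem_HH]
      exact ⟨⟨hz.1.2.1, hz.1.1, hz.1.2.2.symm⟩, hz.2.2, hz.2.1⟩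
    · intro z hz
      rw [hA', mem_filter, mem_HH] at hz
      rw [hA, mem_filter, mem_HH]
      exact ⟨⟨hz.1.2.1, hz.1.1, hz.1.2.2.symm⟩, hz.2.2, hz.2.1⟩
    · intro z _; rfl
    · intro z _; rfl
  have hlow : (#A + #A' : ℤ) ≤ 2 * n := by
    refine le_trans ?_ hw
    rw [hA, hA', card_filter, card_filter]
    push_cast
    rw [← sum_add_distrib]
    refine sum_le_sum fun z hz => ?_
    rw [mem_HH] at hz
    obtain ⟨hz1, hz2, hz3⟩ := hz
    by_cases hk1 : z.1 ∈ K <;> by_cases hk2 : z.2 ∈ K
    · simp [hk1, hk2]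
    · have e1 := h1 z.1 hz1 hk1
      have e2 := h2 z.2 hz2 hk2
      have e3 : r z.2 ≤ r z.1 := by omega
      simp [hk1, hk2, eps, e3]
    · have e1 := h2 z.1 hz1 hk1
      have e2 := h1 z.2 hz2 hk2
      have e3 : r z.1 ≤ r z.2 := by omega
      simp [hk1, hk2, eps, e3]
    · simp only [hk1, hk2, eps, if_false, not_false_eq_true, and_false, and_true, add_zero, one_mul]
      split_ifs <;> omega
  have hAn : #A ≤ n := by omega
  refine le_trans ?_ hAn
  -- the lines
  set T := {L | IsBisector P L ∧ (∃ p ∈ P, p ∉ K ∧ p ∈ L) ∧ ∃ q ∈ P, q ∈ K ∧ q ∈ L} with hT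
  have hsub : T ⊆ (fun z : (ℝ × ℝ) × (ℝ × ℝ) => {x | cr z.1 z.2 x = 0}) '' (A : Set _) := by
    rintro L ⟨hL, ⟨p, hp, hpK, hpL⟩, q, hq, hqK, hqL⟩
    have hpq : p ≠ q := by rintro rfl; exact hpK hqK
    obtain ⟨e1, e2⟩ := hv_of_line hL hpq hpL hqL
    refine ⟨(p, q), ?_, e2.symm⟩
    rw [mem_coe, hA, mem_filter, mem_HH]
    exact ⟨⟨hp, hq, e1⟩, hpK, hqK⟩
  refine (Set.ncard_le_ncard hsub (A.finite_toSet.image _)).trans ?_
  refine (Set.ncard_image_le A.finite_toSet).trans ?_
  rw [Set.ncard_coe_finset]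

open scoped Classical in
/-- one step of the onion peeling: remove the vertices of the convex hull -/
noncomputable def peel (S : Finset (ℝ × ℝ)) : Finset (ℝ × ℝ) :=
  {p ∈ S | p ∈ convexHull ℝ ((S : Set (ℝ × ℝ)) \ {p})}

/-- the number of convex layers -/
noncomputable def layers (P : Finset (ℝ × ℝ)) : ℕ := sInf {m | peel^[m] P = ∅}

lemma peel_subset (S : Finset (ℝ × ℝ)) : peel S ⊆ S := by
  classical
  unfold peel
  exact filter_subset _ _

lemma peel_card (S : Finset (ℝ × ℝ)) : #(peel S) ≤ #S - 1 := by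
  classical
  rcases S.eq_empty_or_nonempty with rfl | ⟨x, hx⟩
  · simp [peel]
  · obtain ⟨p, hp, -, hpv⟩ := exists_vertex S (K := ∅) convex_empty
      (fun h => (h (mem_coe.mpr hx)).elim)
    have : peel S ⊆ S.erase p := by
      intro q hq
      unfold peel at hq
      rw [mem_filter] at hq
      rw [mem_erase]
      refine ⟨?_, hq.1⟩
      rintro rfl
      exact hpv hq.2
    exact (card_le_card this).trans (card_erase_of_mem hp).le

lemma peel_iter_card (P : Finset (ℝ × ℝ)) (j : ℕ) : #(peel^[j] P) ≤ #P - j := by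
  induction j with
  | zero => simp
  | succ j ih =>
    rw [Function.iterate_succ_apply']
    have := peel_card (peel^[j] P)
    omega

lemma peel_layers (P : Finset (ℝ × ℝ)) : peel^[layers P] P = ∅ := by
  have : (layers P) ∈ {m | peel^[m] P = ∅} := by
    unfold layers
    apply Nat.sInf_mem
    refine ⟨#P, ?_⟩
    have := peel_iter_card P #P
    rw [Nat.sub_self, Nat.le_zero, card_eq_zero] at this
    exact this
  exact this

lemma peel_anti (P : Finset (ℝ × ℝ)) {i j : ℕ} (h : i ≤ j) : peel^[j] P ⊆ peel^[i] P := by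
  induction j, h using Nat.le_induction with
  | base => exact Subset.refl _
  | succ j _ ih =>
    rw [Function.iterate_succ_apply']
    exact (peel_subset _).trans ih

open scoped Classical in
/-- **bisectors and convex layers** -/
theorem layer_bound {P : Finset (ℝ × ℝ)} (hP : Gen P) (hE : Even #P) :
    2 * {L | IsBisector P L}.ncard ≤ #P + 2 * ∑ j ∈ range (layers P), (#P - #(peel^[j] P)) := by
  set m := layers P with hm
  set r : ℝ × ℝ → ℕ := fun p => #{j ∈ range m | p ∈ peel^[j] P} with hr
  have hmem : ∀ p j, j < m → (p ∈ peel^[j] P ↔ j < r p) := by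
    intro p j hj
    constructor
    · intro h
      have : range (j + 1) ⊆ {i ∈ range m | p ∈ peel^[i] P} := by
        intro i hi
        rw [mem_range] at hi
        rw [mem_filter, mem_range]
        exact ⟨by omega, peel_anti P (by omega) h⟩
      have := card_le_card this
      rw [card_range] at this
      exact this
    · intro h
      by_contra hcon
      have : ({i ∈ range m | p ∈ peel^[i] P} : Finset ℕ) ⊆ range j := by
        intro i hi
        rw [mem_filter, mem_range] at hi
        rw [mem_range]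
        by_contra hij
        exact hcon (peel_anti P (not_lt.mp hij) hi.2)
      have := card_le_card this
      rw [card_range] at this
      simp only [hr] at h
      omega
  have hrm : ∀ p, r p ≤ m := by
    intro p
    have := card_filter_le (range m) (fun j => p ∈ peel^[j] P)
    rw [card_range] at this
    exact this
  have hr1 : ∀ p ∈ P, 1 ≤ r p := by
    intro p hp
    have hm0 : 0 < m := by
      rcases Nat.eq_zero_or_pos m with h0 | h0
      · have := peel_layers P
        rw [← hm, h0] at this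
        simp only [Function.iterate_zero, id_eq] at this
        rw [this] at hp
        exact absurd hp (notMem_empty p)
      · exact h0
    exact (hmem p 0 hm0).mp hp
  have h := ranking hP hE m r (fun p _ => hrm p) (by
    intro p hp hcon
    have h1 := hr1 p hp
    have h2 := hrm p
    set i := r p - 1 with hi
    have him : i < m := by omega
    have hpi : p ∈ peel^[i] P := (hmem p i him).mpr (by omega)
    have hsub : {q : ℝ × ℝ | q ∈ P ∧ r p ≤ r q ∧ q ≠ p} ⊆
        ((peel^[i] P : Finset (ℝ × ℝ)) : Set (ℝ × ℝ)) \ {p} := by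
      rintro q ⟨-, hq2, hq3⟩
      exact ⟨mem_coe.mpr ((hmem q i him).mpr (by omega)), hq3⟩
    have h3 : p ∈ peel^[i + 1] P := by
      rw [Function.iterate_succ_apply']
      unfold peel
      rw [mem_filter]
      exact ⟨hpi, convexHull_mono hsub hcon⟩
    by_cases him2 : i + 1 < m
    · have := (hmem p (i + 1) him2).mp h3
      omega
    · have he : i + 1 = m := by omega
      rw [he, hm, peel_layers P] at h3
      exact absurd h3 (notMem_empty p))
  refine h.trans (le_of_eq ?_)
  rw [sum_add_distrib, sum_const, smul_eq_mul, mul_one, ← mul_sum, add_comm]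
  congr 2
  have e1 : ∀ p, m - r p = ∑ j ∈ range m, if p ∈ peel^[j] P then 0 else 1 := by
    intro p
    have h4 := card_filter_add_card_filter_not (s := range m) (fun j => p ∈ peel^[j] P)
    rw [card_range] at h4
    have h5 : #{j ∈ range m | ¬ p ∈ peel^[j] P} = ∑ j ∈ range m, if p ∈ peel^[j] P then 0 else 1 := by
      rw [card_filter]
      refine sum_congr rfl fun j _ => ?_
      by_cases h6 : p ∈ peel^[j] P <;> simp [h6]
    rw [← h5]
    simp only [hr]
    omega
  rw [sum_congr rfl fun p _ => e1 p, sum_comm]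
  refine sum_congr rfl fun j _ => ?_
  have h7 : #(P \ peel^[j] P) = #P - #(peel^[j] P) :=
    card_sdiff_of_subset (peel_anti P (Nat.zero_le j))
  rw [← h7, ← filter_notMem_eq_sdiff, card_filter]
  refine sum_congr rfl fun p _ => ?_
  by_cases h6 : p ∈ peel^[j] P <;> simp [h6]

/-- twice the number of bisectors is at most `(2 m - 1) n`, `m` the number of convex layers -/
theorem layer_bound' {P : Finset (ℝ × ℝ)} (hP : Gen P) (hE : Even #P) :
    2 * {L | IsBisector P L}.ncard + #P ≤ 2 * layers P * #P := by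
  have h := layer_bound hP hE
  rcases P.eq_empty_or_nonempty with rfl | hne
  · simpa using h
  · have hm : 1 ≤ layers P := by
      rcases Nat.eq_zero_or_pos (layers P) with h0 | h0
      · have := peel_layers P
        rw [h0] at this
        simp only [Function.iterate_zero, id_eq] at this
        rw [this] at hne
        exact absurd hne not_nonempty_empty
      · exact h0
    obtain ⟨m, hm2⟩ : ∃ m, layers P = m + 1 := ⟨layers P - 1, by omega⟩
    rw [hm2] at h ⊢
    rw [sum_range_succ'] at h
    simp only [Function.iterate_zero, id_eq, Nat.sub_self, add_zero] at h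
    have h2 : ∑ j ∈ range m, (#P - #(peel^[j + 1] P)) ≤ m * #P := by
      calc ∑ j ∈ range m, (#P - #(peel^[j + 1] P)) ≤ ∑ j ∈ range m, #P :=
            sum_le_sum fun j _ => Nat.sub_le _ _
        _ = m * #P := by rw [sum_const, card_range, smul_eq_mul]
    nlinarith

end Pool.Agent.W296.HL
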