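import Pool.Agent.W296.HL4

/-!
# Bisectors: almost convex sets and separating families
-/

set_option autoImplicit false

namespace Pool.Agent.W296.HL

open Finset

open scoped Classical in
/-- **separating families of convex sets** -/
theorem separated {P : Finset (ℝ × ℝ)} (hP : Gen P) (hE : Even #P) {s : ℕ}
    (K : Fin s → Set (ℝ × ℝ)) (hK : ∀ i, Convex ℝ (K i))
    (hsep : ∀ p ∈ P, ∀ q ∈ P, p ≠ q → ∃ i, ¬ (p ∈ K i ↔ q ∈ K i)) :
    {L | IsBisector P L}.ncard ≤ ∑ i, #{p ∈ P | p ∉ K i} := by
  set T : Fin s → Set (Set (ℝ × ℝ)) := fun i =>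
    {L | IsBisector P L ∧ (∃ p ∈ P, p ∉ K i ∧ p ∈ L) ∧ ∃ q ∈ P, q ∈ K i ∧ q ∈ L} with hT
  have hfin : ∀ i, (T i).Finite := fun i => (bis_finite P).subset fun L hL => hL.1
  have hsub : {L | IsBisector P L} ⊆ ⋃ i ∈ (Finset.univ : Finset (Fin s)), T i := by
    intro L hL
    obtain ⟨a, b, c, hab, hL2, ⟨p, hp, q, hq, hpq, hpL, hqL⟩, h1, h2⟩ := id hL
    obtain ⟨i, hi⟩ := hsep p hp q hq hpq
    rw [Set.mem_iUnion₂]
    refine ⟨i, Finset.mem_univ i, hL, ?_⟩
    by_cases hpK : p ∈ K i
    · have hqK : q ∉ K i := fun h => hi ⟨fun _ => h, fun _ => hpK⟩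
      exact ⟨⟨q, hq, hqK, hqL⟩, p, hp, hpK, hpL⟩
    · have hqK : q ∈ K i := by
        by_contra h
        exact hi ⟨fun h' => absurd h' hpK, fun h' => absurd h' h⟩
      exact ⟨⟨p, hp, hpK, hpL⟩, q, hq, hqK, hqL⟩
  have hgen : ∀ U : Finset (Fin s), (⋃ i ∈ U, T i).ncard ≤ ∑ i ∈ U, #{p ∈ P | p ∉ K i} := by
    intro U
    induction U using Finset.induction_on with
    | empty => simp
    | insert i U hi ih =>
      rw [Finset.set_biUnion_insert, Finset.sum_insert hi]
      refine (Set.ncard_union_le _ _).trans (Nat.add_le_add ?_ ih)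
      exact cut hP hE (hK i)
  refine (Set.ncard_le_ncard hsub ?_).trans (hgen _)
  exact Set.Finite.biUnion (Finset.finite_toSet _) fun i _ => hfin i

open scoped Classical in
/-- a ranking of an almost convex set -/
lemma rank_almost (A : Finset (ℝ × ℝ))
    (hA : ∀ p ∈ A, p ∉ convexHull ℝ ((A : Set (ℝ × ℝ)) \ {p})) (k : ℕ) :
    ∀ B : Finset (ℝ × ℝ), Disjoint A B → #B = k → ∃ r : ℝ × ℝ → ℕ,
      (∀ p ∈ A ∪ B, r p ≤ k) ∧
      (∀ p ∈ A ∪ B, p ∉ convexHull ℝ {q : ℝ × ℝ | q ∈ A ∪ B ∧ r p ≤ r q ∧ q ≠ p}) := by
  induction k with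
  | zero =>
    intro B _ hB
    rw [card_eq_zero] at hB
    subst hB
    rw [union_empty]
    refine ⟨fun _ => 0, fun _ _ => le_rfl, fun p hp hcon => hA p hp (convexHull_mono ?_ hcon)⟩
    rintro q ⟨hq1, -, hq2⟩
    exact ⟨hq1, hq2⟩
  | succ k ih =>
    intro B hd hB
    by_cases hsub : ((A ∪ B : Finset (ℝ × ℝ)) : Set (ℝ × ℝ)) ⊆ convexHull ℝ (A : Set (ℝ × ℝ))
    · -- all of `B` inside the hull of `A`
      obtain ⟨K0, hK0⟩ : ∃ K0 : Set (ℝ × ℝ), K0 = ∅ := ⟨_, rfl⟩
      have hK0' : ∀ p : ℝ × ℝ, p ∉ K0 := fun p h => by rw [hK0] at h; exact h.elim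
      obtain ⟨r, -, h2, h3⟩ := exists_rank (K := K0) (hK0 ▸ convex_empty) #B B (by
        congr 1
        rw [filter_eq_self]
        intro p _
        exact hK0' p)
      refine ⟨fun q => if q ∈ A then 0 else r q + 1, ?_, ?_⟩
      · intro p hp
        by_cases hpA : p ∈ A
        · simp [hpA]
        · have hpB : p ∈ B := (mem_union.mp hp).resolve_left hpA
          have := h2 p hpB (hK0' p)
          simp only [hpA, if_false]
          omega
      · intro p hp
        by_cases hpA : p ∈ A
        · intro hcon
          have hCv : Convex ℝ (convexHull ℝ (A : Set (ℝ × ℝ))) := convex_convexHull ℝ _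
          have hext : p ∈ (convexHull ℝ (A : Set (ℝ × ℝ))).extremePoints ℝ := by
            rw [hCv.mem_extremePoints_iff_convex_sdiff]
            refine ⟨subset_convexHull ℝ _ hpA, ?_⟩
            rw [hCv.convex_remove_iff_notMem_convexHull_remove]
            intro h4
            apply hA p hpA
            -- a vertex of the hull is `p` itself or the hull of the others is everything
            by_contra h5
            -- `p` is separated from the other points of `A`
            obtain ⟨f, u, hu1, hu2⟩ := geometric_hahn_banach_point_closed (convex_convexHull ℝ _)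
              ((A.finite_toSet.subset Set.sdiff_subset).isClosed_convexHull ℝ) h5
            have h6 : convexHull ℝ (A : Set (ℝ × ℝ)) \ {p} ⊆ {x | f p < f x} := by
              rintro x ⟨hx1, hx2⟩
              have hAe : (A : Set (ℝ × ℝ)) = insert p ((A : Set (ℝ × ℝ)) \ {p}) := by
                rw [Set.insert_sdiff_singleton, Set.insert_eq_of_mem (mem_coe.mpr hpA)]
              rcases Set.eq_empty_or_nonempty ((A : Set (ℝ × ℝ)) \ {p}) with he | hne
              · rw [hAe, he, insert_empty_eq, convexHull_singleton] at hx1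
                exact absurd hx1 hx2
              · rw [hAe, convexHull_insert hne, mem_convexJoin] at hx1
                obtain ⟨y, hy, z, hz, hxs⟩ := hx1
                rw [Set.mem_singleton_iff] at hy
                subst hy
                obtain ⟨a, b, ha, hb, hab, rfl⟩ := hxs
                have hz2 := hu2 z hz
                have hb0 : 0 < b := by
                  rcases hb.lt_or_eq with h | h
                  · exact h
                  · exfalso
                    apply hx2
                    rw [← h, add_zero] at hab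
                    rw [← h, hab]; simp
                show f y < f (a • y + b • z)
                rw [map_add, map_smul, map_smul, smul_eq_mul, smul_eq_mul]
                have : a = 1 - b := by linarith
                rw [this]
                nlinarith
            have h7 : convexHull ℝ (convexHull ℝ (A : Set (ℝ × ℝ)) \ {p}) ⊆ {x | f p < f x} :=
              convexHull_min h6 (convex_halfSpace_gt f.isLinear (f p))
            have h10 := h7 h4
            rw [Set.mem_ofPred_eq] at h10
            exact lt_irrefl _ h10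
          have h8 := (hCv.mem_extremePoints_iff_convex_sdiff.mp hext).2
          have h9 : {q : ℝ × ℝ | q ∈ A ∪ B ∧ (if p ∈ A then 0 else r p + 1) ≤
              (if q ∈ A then 0 else r q + 1) ∧ q ≠ p} ⊆
              convexHull ℝ (A : Set (ℝ × ℝ)) \ {p} := by
            rintro q ⟨hq1, -, hq2⟩
            exact ⟨hsub (mem_coe.mpr hq1), hq2⟩
          exact (convexHull_min h9 h8 hcon).2 rfl
        · have hpB : p ∈ B := (mem_union.mp hp).resolve_left hpA
          intro hcon
          apply h3 p hpB (hK0' p)
          refine convexHull_mono ?_ hcon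
          rintro q ⟨hq1, hq2, hq3⟩
          simp only [hpA, if_false] at hq2
          have hqA : q ∉ A := by
            intro h
            simp only [h, if_true] at hq2
            omega
          simp only [hqA, if_false] at hq2
          exact ⟨(mem_union.mp hq1).resolve_left hqA, by omega, hq3⟩
    · -- a vertex in `B`
      obtain ⟨b, hb, hbK, hbv⟩ := exists_vertex (A ∪ B) (convex_convexHull ℝ (A : Set (ℝ × ℝ))) hsub
      have hbA : b ∉ A := fun h => hbK (subset_convexHull ℝ _ (mem_coe.mpr h))
      have hbB : b ∈ B := (mem_union.mp hb).resolve_left hbA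
      obtain ⟨r, h1, h2⟩ := ih (B.erase b) (hd.mono_right (erase_subset _ _))
        (by rw [card_erase_of_mem hbB, hB]; rfl)
      refine ⟨fun q => if q = b then 0 else r q + 1, ?_, ?_⟩
      · intro p hp
        by_cases hne : p = b
        · simp [hne]
        · have hp' : p ∈ A ∪ B.erase b := by
            rw [mem_union, mem_erase]; rw [mem_union] at hp; tauto
          have := h1 p hp'
          simp only [hne, if_false]
          omega
      · intro p hp
        by_cases hne : p = b
        · subst hne
          intro hcon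
          apply hbv
          refine convexHull_mono ?_ hcon
          rintro q ⟨hq1, -, hq2⟩
          exact ⟨hq1, hq2⟩
        · have hp' : p ∈ A ∪ B.erase b := by
            rw [mem_union, mem_erase]; rw [mem_union] at hp; tauto
          intro hcon
          apply h2 p hp'
          refine convexHull_mono ?_ hcon
          rintro q ⟨hq1, hq2, hq3⟩
          simp only [hne, if_false] at hq2
          have hqb : q ≠ b := by
            rintro rfl
            simp at hq2
          simp only [hqb, if_false] at hq2
          refine ⟨?_, by omega, hq3⟩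
          rw [mem_union, mem_erase]; rw [mem_union] at hq1; tauto

open scoped Classical in
/-- **all but `k` points in convex position** -/
theorem almost_convex {A B : Finset (ℝ × ℝ)} (hP : Gen (A ∪ B)) (hE : Even #(A ∪ B))
    (hd : Disjoint A B) (hA : ∀ p ∈ A, p ∉ convexHull ℝ ((A : Set (ℝ × ℝ)) \ {p})) :
    2 * {L | IsBisector (A ∪ B) L}.ncard ≤ (2 * #B + 1) * #(A ∪ B) := by
  obtain ⟨r, h1, h2⟩ := rank_almost A hA #B B hd rfl
  have h := ranking hP hE #B r h1 h2
  refine h.trans ?_
  calc ∑ p ∈ A ∪ B, (2 * (#B - r p) + 1) ≤ ∑ p ∈ A ∪ B, (2 * #B + 1) :=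
        sum_le_sum fun p _ => by omega
    _ = (2 * #B + 1) * #(A ∪ B) := by rw [sum_const, smul_eq_mul, mul_comm]

end Pool.Agent.W296.HL
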